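import Pool.Agent.TH164.Spin.Tri

/-!
# Alternating forms as a module over a Lie algebra
-/

set_option autoImplicit false
set_option linter.unusedSectionVars false
set_option linter.unusedVariables false

open Module Function

namespace Pool.Agent.TH164.Un

open Pool.Agent.TH164.Spin

variable {k : Type*} [Field k]
variable {W : Type*} [AddCommGroup W] [Module k W] {p : ℕ}

theorem upd_id (f : W →ₗ[k] W) (i : Fin p) (v : Fin p → W) :
    (fun j => (update (fun _ => (LinearMap.id : W →ₗ[k] W)) i f) j (v j)) =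
      update v i (f (v i)) := by
  funext j
  by_cases hj : j = i
  · subst hj
    rw [update_self, update_self]
  · rw [update_of_ne hj, update_of_ne hj]
    rfl

/-- The derivation given by an operator. -/
def D (f : W →ₗ[k] W) (ω : W [⋀^Fin p]→ₗ[k] k) : W [⋀^Fin p]→ₗ[k] k where
  toMultilinearMap := ∑ i, ω.toMultilinearMap.compLinearMap
    (update (fun _ => (LinearMap.id : W →ₗ[k] W)) i f)
  map_eq_zero_of_eq' := by
    intro v i j hv hij
    change (∑ i, ω.toMultilinearMap.compLinearMap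
      (update (fun _ => (LinearMap.id : W →ₗ[k] W)) i f)) v = 0
    rw [_root_.sum_apply]
    have h1 : ∀ l, (ω.toMultilinearMap.compLinearMap
        (update (fun _ => (LinearMap.id : W →ₗ[k] W)) l f)) v = ω (update v l (f (v l))) := by
      intro l
      rw [MultilinearMap.compLinearMap_apply, upd_id]
      rfl
    simp only [h1]
    rw [Finset.sum_eq_add i j hij]
    · have h2 : update v j (f (v j)) = update v i (f (v i)) ∘ Equiv.swap i j := by
        funext l
        rw [comp_apply]
        by_cases hl : l = j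
        · rw [hl, Equiv.swap_apply_right, update_self, update_self, hv]
        · by_cases hl' : l = i
          · rw [hl', Equiv.swap_apply_left, update_of_ne hij, update_of_ne hij.symm, hv]
          · rw [Equiv.swap_apply_of_ne_of_ne hl' hl, update_of_ne hl, update_of_ne hl']
      rw [h2, ω.map_swap _ hij, add_neg_cancel]
    · intro l _ hl
      refine ω.map_eq_zero_of_eq _ ?_ hij
      rw [update_of_ne hl.1.symm, update_of_ne hl.2.symm, hv]
    · intro h
      exact absurd (Finset.mem_univ _) h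
    · intro h
      exact absurd (Finset.mem_univ _) h

theorem D_apply (f : W →ₗ[k] W) (ω : W [⋀^Fin p]→ₗ[k] k) (v : Fin p → W) :
    D f ω v = ∑ i, ω (update v i (f (v i))) := by
  change (∑ i, ω.toMultilinearMap.compLinearMap
      (update (fun _ => (LinearMap.id : W →ₗ[k] W)) i f)) v = _
  rw [_root_.sum_apply]
  refine Finset.sum_congr rfl fun i _ => ?_
  rw [MultilinearMap.compLinearMap_apply, upd_id]
  rfl

theorem D_add (f g : W →ₗ[k] W) (ω : W [⋀^Fin p]→ₗ[k] k) : D (f + g) ω = D f ω + D g ω := by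
  ext v
  rw [AlternatingMap.add_apply, D_apply, D_apply, D_apply, ← Finset.sum_add_distrib]
  refine Finset.sum_congr rfl fun i _ => ?_
  rw [LinearMap.add_apply, ω.map_update_add]

theorem D_smul (c : k) (f : W →ₗ[k] W) (ω : W [⋀^Fin p]→ₗ[k] k) : D (c • f) ω = c • D f ω := by
  ext v
  rw [AlternatingMap.smul_apply, D_apply, D_apply, Finset.smul_sum]
  refine Finset.sum_congr rfl fun i _ => ?_
  rw [LinearMap.smul_apply, ω.map_update_smul]

theorem D_add' (f : W →ₗ[k] W) (ω ψ : W [⋀^Fin p]→ₗ[k] k) : D f (ω + ψ) = D f ω + D f ψ := by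
  ext v
  rw [AlternatingMap.add_apply, D_apply, D_apply, D_apply, ← Finset.sum_add_distrib]
  rfl

theorem D_smul' (c : k) (f : W →ₗ[k] W) (ω : W [⋀^Fin p]→ₗ[k] k) : D f (c • ω) = c • D f ω := by
  ext v
  rw [AlternatingMap.smul_apply, D_apply, D_apply, Finset.smul_sum]
  rfl

theorem D_neg (f : W →ₗ[k] W) (ω : W [⋀^Fin p]→ₗ[k] k) : D (-f) ω = -D f ω := by
  ext v
  rw [AlternatingMap.neg_apply, D_apply, D_apply, ← Finset.sum_neg_distrib]
  refine Finset.sum_congr rfl fun i _ => ?_
  rw [LinearMap.neg_apply, ω.map_update_neg]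

theorem D_neg' (f : W →ₗ[k] W) (ω : W [⋀^Fin p]→ₗ[k] k) : D f (-ω) = -D f ω := by
  ext v
  rw [AlternatingMap.neg_apply, D_apply, D_apply, ← Finset.sum_neg_distrib]
  rfl

theorem D_sub (f g : W →ₗ[k] W) (ω : W [⋀^Fin p]→ₗ[k] k) : D (f - g) ω = D f ω - D g ω := by
  rw [sub_eq_add_neg, D_add, D_neg, sub_eq_add_neg]

theorem D_comm (f g : W →ₗ[k] W) (ω : W [⋀^Fin p]→ₗ[k] k) :
    D f (D g ω) - D g (D f ω) = D (g ∘ₗ f - f ∘ₗ g) ω := by
  ext v
  have key : ∀ f g : W →ₗ[k] W, D f (D g ω) v = ∑ i, ω (update v i (g (f (v i)))) +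
      ∑ i, ∑ j, (if i = j then 0 else
        ω (update (update v i (f (v i))) j (g (v j)))) := by
    intro f g
    rw [D_apply, ← Finset.sum_add_distrib]
    refine Finset.sum_congr rfl fun i _ => ?_
    rw [D_apply, ← Finset.add_sum_erase _ _ (Finset.mem_univ i), update_self, update_idem,
      ← Finset.add_sum_erase (s := Finset.univ) (f := fun j => (if i = j then (0 : k) else
        ω (update (update v i (f (v i))) j (g (v j))))) (a := i) (Finset.mem_univ i), if_pos rfl,
      zero_add]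
    congr 1
    refine Finset.sum_congr rfl fun j hj => ?_
    have hji := Finset.ne_of_mem_erase hj
    rw [if_neg hji.symm, update_of_ne hji]
  rw [AlternatingMap.sub_apply, key f g, key g f, D_sub, AlternatingMap.sub_apply, D_apply, D_apply]
  have h1 : ∑ i, ∑ j, (if i = j then (0 : k) else
        ω (update (update v i (f (v i))) j (g (v j)))) = ∑ i, ∑ j, (if i = j then (0 : k) else
        ω (update (update v i (g (v i))) j (f (v j)))) := by
    rw [Finset.sum_comm]
    refine Finset.sum_congr rfl fun i _ => Finset.sum_congr rfl fun j _ => ?_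
    by_cases hij : i = j
    · rw [if_pos hij, if_pos hij.symm]
    · rw [if_neg hij, if_neg (Ne.symm hij), update_comm hij]
  rw [h1]
  simp only [LinearMap.comp_apply]
  ring

section lie

variable {L : Type*} [LieRing L] [LieAlgebra k L] [LieRingModule L W] [LieModule k L W]

instance instLRM : LieRingModule L (W [⋀^Fin p]→ₗ[k] k) where
  bracket x ω := -D (LieModule.toEnd k L W x) ω
  add_lie x y ω := by
    change -D (LieModule.toEnd k L W (x + y)) ω = -D _ ω + -D _ ω
    rw [map_add, D_add, neg_add]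
  lie_add x ω ψ := by
    change -D _ (ω + ψ) = -D _ ω + -D _ ψ
    rw [D_add', neg_add]
  leibniz_lie x y ω := by
    change -D _ (-D _ ω) = -D (LieModule.toEnd k L W ⁅x, y⁆) ω + -D _ (-D _ ω)
    rw [D_neg', D_neg', neg_neg, neg_neg]
    have h3 := D_comm (LieModule.toEnd k L W x) (LieModule.toEnd k L W y) ω
    have h4 : LieModule.toEnd k L W ⁅x, y⁆ = -(LieModule.toEnd k L W y ∘ₗ
        LieModule.toEnd k L W x - LieModule.toEnd k L W x ∘ₗ LieModule.toEnd k L W y) := by
      ext w
      change ⁅⁅x, y⁆, w⁆ = -(⁅y, ⁅x, w⁆⁆ - ⁅x, ⁅y, w⁆⁆)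
      rw [lie_lie, neg_sub]
    rw [h4, D_neg, ← h3, neg_neg]
    abel

theorem lie_def (x : L) (ω : W [⋀^Fin p]→ₗ[k] k) :
    ⁅x, ω⁆ = -D (LieModule.toEnd k L W x) ω := rfl

theorem lie_app (x : L) (ω : W [⋀^Fin p]→ₗ[k] k) (v : Fin p → W) :
    ⁅x, ω⁆ v = -∑ i, ω (update v i ⁅x, v i⁆) := by
  rw [lie_def, AlternatingMap.neg_apply, D_apply]
  rfl

instance instLM : LieModule k L (W [⋀^Fin p]→ₗ[k] k) where
  smul_lie c x ω := by
    rw [lie_def, lie_def, map_smul, D_smul, smul_neg]
  lie_smul c x ω := by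
    rw [lie_def, lie_def, D_smul', smul_neg]

end lie

/-! ### Decomposable forms -/

/-- Decomposable forms. -/
def dec (ξ : Fin p → Dual k W) : W [⋀^Fin p]→ₗ[k] k :=
  (Matrix.detRowAlternating : (Fin p → k) [⋀^Fin p]→ₗ[k] k).compLinearMap (LinearMap.pi ξ)

theorem dec_apply (ξ : Fin p → Dual k W) (v : Fin p → W) :
    dec ξ v = (Matrix.of fun i j => ξ j (v i)).det := rfl

section basis

variable {m : ℕ} (w : Basis (Fin m) k W)

/-- The form of a tuple. -/
noncomputable def fo (b : Fin p → Fin m) : W [⋀^Fin p]→ₗ[k] k := dec fun j => w.coord (b j)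

theorem fo_apply (b a : Fin p → Fin m) :
    fo w b (fun i => w (a i)) = (Matrix.of fun i j => if a i = b j then (1 : k) else 0).det := by
  unfold fo
  rw [dec_apply]
  congr 1
  ext i j
  rw [Matrix.of_apply, Matrix.of_apply, Basis.coord_apply, Basis.repr_self, Finsupp.single_apply]

theorem fo_self {b : Fin p → Fin m} (hb : Injective b) : fo w b (fun i => w (b i)) = 1 := by
  rw [fo_apply]
  have h1 : (Matrix.of fun i j => if b i = b j then (1 : k) else 0) = 1 := by
    ext i j
    rw [Matrix.of_apply, Matrix.one_apply]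
    by_cases hij : i = j
    · rw [if_pos hij, if_pos (congrArg b hij)]
    · rw [if_neg hij, if_neg fun h => hij (hb h)]
  rw [h1, Matrix.det_one]

theorem fo_ne {b a : Fin p → Fin m} (h : fo w b (fun i => w (a i)) ≠ 0) (i : Fin p) :
    ∃ j, a i = b j := by
  by_contra hcon
  push Not at hcon
  refine h ?_
  rw [fo_apply]
  refine Matrix.det_eq_zero_of_row_eq_zero i fun j => ?_
  rw [Matrix.of_apply, if_neg (hcon j)]

/-- The image of a tuple. -/
def im (a : Fin p → Fin m) : Finset (Fin m) := Finset.univ.image a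

theorem mem_im {a : Fin p → Fin m} {x : Fin m} : x ∈ im a ↔ ∃ i, a i = x := by
  unfold im
  simp

theorem card_im {a : Fin p → Fin m} (ha : Injective a) : (im a).card = p := by
  unfold im
  rw [Finset.card_image_of_injective _ ha, Finset.card_univ, Fintype.card_fin]

theorem sum_im {X : Type*} [AddCommMonoid X] {a : Fin p → Fin m} (ha : Injective a)
    (χ : Fin m → X) : ∑ i, χ (a i) = ∑ s ∈ im a, χ s := by
  unfold im
  rw [Finset.sum_image fun i _ j _ h => ha h]

theorem fo_im {b a : Fin p → Fin m} (ha : Injective a) (hb : Injective b)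
    (h : fo w b (fun i => w (a i)) ≠ 0) : im a = im b := by
  refine Finset.eq_of_subset_of_card_le ?_ (by rw [card_im ha, card_im hb])
  intro x hx
  obtain ⟨i, rfl⟩ := mem_im.1 hx
  obtain ⟨j, hj⟩ := fo_ne w h i
  exact mem_im.2 ⟨j, hj.symm⟩

/-- Values on tuples with the same image. -/
theorem val_im {b a : Fin p → Fin m} (ha : Injective a) (hb : Injective b) (h : im a = im b)
    {ω : W [⋀^Fin p]→ₗ[k] k} (h0 : ω (fun i => w (b i)) = 0) : ω (fun i => w (a i)) = 0 := by
  have h1 : ∀ i, ∃ j, b j = a i := by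
    intro i
    have : a i ∈ im b := by
      rw [← h]
      exact mem_im.2 ⟨i, rfl⟩
    exact mem_im.1 this
  choose σ hσ using h1
  have hinj : Injective σ := by
    intro i j hij
    apply ha
    rw [← hσ i, ← hσ j, hij]
  set τ : Equiv.Perm (Fin p) := Equiv.ofBijective σ (Finite.injective_iff_bijective.1 hinj) with hτ
  have h2 : (fun i => w (a i)) = (fun i => w (b i)) ∘ τ := by
    funext i
    rw [comp_apply]
    change w (a i) = w (b (σ i))
    rw [hσ]
  rw [h2, ω.map_perm, h0, smul_zero]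

/-- A form vanishes if it vanishes on the basis. -/
theorem form_zero {ω : W [⋀^Fin p]→ₗ[k] k}
    (h : ∀ a : Fin p → Fin m, Injective a → ω (fun i => w (a i)) = 0) : ω = 0 :=
  w.ext_alternating fun a ha => by
    rw [AlternatingMap.zero_apply]
    exact h a ha

section wt

variable {L : Type*} [LieRing L] [LieAlgebra k L] [LieRingModule L W] [LieModule k L W]
  {H : LieSubalgebra k L} {χ : Fin m → H → k}

theorem lie_val (hw : ∀ j, w j ∈ wt H W (χ j)) (h : H) (ω : W [⋀^Fin p]→ₗ[k] k)
    (a : Fin p → Fin m) :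
    ⁅(h : L), ω⁆ (fun i => w (a i)) = (-∑ i, χ (a i) h) * ω (fun i => w (a i)) := by
  rw [lie_app, neg_mul, Finset.sum_mul]
  congr 1
  refine Finset.sum_congr rfl fun i _ => ?_
  rw [hw (a i) h, ω.map_update_smul, update_eq_self, smul_eq_mul]

/-- Weights of forms. -/
theorem wt_form (hw : ∀ j, w j ∈ wt H W (χ j)) {μ : H → k} {ω : W [⋀^Fin p]→ₗ[k] k}
    (hω : ω ∈ wt H (W [⋀^Fin p]→ₗ[k] k) μ) {a : Fin p → Fin m}
    (h : ω (fun i => w (a i)) ≠ 0) : μ = -∑ i, χ (a i) := by
  funext x
  have h1 := congrArg (fun ψ : W [⋀^Fin p]→ₗ[k] k => ψ (fun i => w (a i))) (hω x)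
  simp only [AlternatingMap.smul_apply, smul_eq_mul] at h1
  rw [lie_val w hw] at h1
  have h2 := mul_right_cancel₀ h h1
  rw [← h2, Pi.neg_apply, Finset.sum_apply]

theorem fo_wt (hw : ∀ j, w j ∈ wt H W (χ j)) {b : Fin p → Fin m} (hb : Injective b) :
    fo w b ∈ wt H (W [⋀^Fin p]→ₗ[k] k) (-∑ i, χ (b i)) := by
  intro h
  refine w.ext_alternating fun a ha => ?_
  rw [AlternatingMap.smul_apply, lie_val w hw, smul_eq_mul]
  by_cases h0 : fo w b (fun i => w (a i)) = 0
  · rw [h0, mul_zero, mul_zero]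
  · congr 1
    rw [Pi.neg_apply, Finset.sum_apply]
    congr 1
    rw [sum_im ha (fun s => χ s h), sum_im hb (fun s => χ s h), fo_im w ha hb h0]

theorem exists_val (ω : W [⋀^Fin p]→ₗ[k] k) (h : ω ≠ 0) :
    ∃ a : Fin p → Fin m, Injective a ∧ ω (fun i => w (a i)) ≠ 0 := by
  by_contra hcon
  push Not at hcon
  exact h (form_zero w hcon)

theorem exists_wt_form (hw : ∀ j, w j ∈ wt H W (χ j)) {μ : H → k}
    (h : wt H (W [⋀^Fin p]→ₗ[k] k) μ ≠ ⊥) :
    ∃ a : Fin p → Fin m, Injective a ∧ μ = -∑ i, χ (a i) := by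
  obtain ⟨ω, hω, h0⟩ := Submodule.exists_mem_ne_zero_of_ne_bot h
  obtain ⟨a, ha, h1⟩ := exists_val w ω h0
  exact ⟨a, ha, wt_form w hw hω h1⟩

end wt

end basis

end Pool.Agent.TH164.Un
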