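import Pool.Agent.TH164.Un.Un9

/-!
# A diagonal space of forms
-/

set_option autoImplicit false
set_option linter.unusedSectionVars false
set_option linter.unusedVariables false

open Module LieModule LieAlgebra LieAlgebra.IsKilling Function

attribute [local instance 100] LieRing.ofAssociativeRing

namespace Pool.Agent.TH164.Un

open Pool.Agent.TH164.Spin

section prod

variable {k L M N : Type*} [Field k] [LieRing L] [LieAlgebra k L]
  [AddCommGroup M] [Module k M] [LieRingModule L M] [LieModule k L M]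
  [AddCommGroup N] [Module k N] [LieRingModule L N] [LieModule k L N]

/-- The product of two modules. -/
instance prodLRM : LieRingModule L (M × N) where
  bracket x v := (⁅x, v.1⁆, ⁅x, v.2⁆)
  add_lie x y v := Prod.ext (add_lie x y v.1) (add_lie x y v.2)
  lie_add x v u := Prod.ext (lie_add x v.1 u.1) (lie_add x v.2 u.2)
  leibniz_lie x y v := Prod.ext (leibniz_lie x y v.1) (leibniz_lie x y v.2)

theorem prod_lie (x : L) (v : M × N) : ⁅x, v⁆ = (⁅x, v.1⁆, ⁅x, v.2⁆) := rfl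

instance prodLM : LieModule k L (M × N) where
  smul_lie c x v := Prod.ext (smul_lie c x v.1) (smul_lie c x v.2)
  lie_smul c x v := Prod.ext (lie_smul c x v.1) (lie_smul c x v.2)

end prod

section ss

variable {k L S : Type*} [Field k] [IsAlgClosed k] [CharZero k] [LieRing L] [LieAlgebra k L]
  [FiniteDimensional k L] [LieAlgebra.IsKilling k L] (H : LieSubalgebra k L)
  [H.IsCartanSubalgebra]
variable [AddCommGroup S] [Module k S] [LieRingModule L S] [LieModule k L S]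
  [FiniteDimensional k S] [Nontrivial S]

theorem ss_mem (fai : ∀ x : L, (∀ v : S, ⁅x, v⁆ = 0) → x = 0)
    (irr : ∀ W : Submodule k S, (∀ x : L, ∀ v ∈ W, ⁅x, v⁆ ∈ W) → W ≠ ⊥ → W = ⊤) (h : H) :
    (toEnd k L S (h : L)).IsSemisimple := by
  set x : End k S := toEnd k L S (h : L) with hx
  obtain ⟨n, hn, s, hs, hnil, hss, hxns⟩ := x.exists_isNilpotent_isSemisimple
  have hc : Commute n s := Algebra.commute_of_mem_adjoin_singleton_of_commute hs
      (Algebra.commute_of_mem_adjoin_self hn).symm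
  have h1 : ad k (End k S) n ∈ Algebra.adjoin k {ad k (End k S) x} := by
    rw [hxns]
    exact LieAlgebra.ad_mem_adjoin_of_isNilpotent hc hnil hss
  have h2 : ∃ B ∈ Algebra.adjoin k {ad k L (h : L)}, ∀ y : L,
      ad k (End k S) n (toEnd k L S y) = toEnd k L S (B y) := by
    refine Algebra.adjoin_induction (p := fun A _ => ∃ B ∈ Algebra.adjoin k {ad k L (h : L)},
      ∀ y : L, A (toEnd k L S y) = toEnd k L S (B y)) ?_ ?_ ?_ ?_ h1
    · rintro _ rfl
      refine ⟨_, Algebra.self_mem_adjoin_singleton k _, fun y => ?_⟩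
      rw [ad_apply, ad_apply, hx, ← LieHom.map_lie]
    · intro r
      refine ⟨algebraMap k _ r, Subalgebra.algebraMap_mem _ r, fun y => ?_⟩
      rw [Module.algebraMap_end_apply, Module.algebraMap_end_apply, map_smul]
    · rintro A A' _ _ ⟨B, hB, h3⟩ ⟨B', hB', h4⟩
      refine ⟨B + B', Subalgebra.add_mem _ hB hB', fun y => ?_⟩
      rw [LinearMap.add_apply, LinearMap.add_apply, h3, h4, map_add]
    · rintro A A' _ _ ⟨B, hB, h3⟩ ⟨B', hB', h4⟩
      refine ⟨B * B', Subalgebra.mul_mem _ hB hB', fun y => ?_⟩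
      rw [Module.End.mul_apply, Module.End.mul_apply, h4, h3]
  obtain ⟨B, hB, h3⟩ := h2
  have hBss : B.IsSemisimple :=
    Module.End.IsSemisimple.of_mem_adjoin_singleton
      (isSemisimple_ad_of_mem_isCartanSubalgebra h.2) hB
  have hinj : ∀ y : L, toEnd k L S y = 0 → y = 0 := fun y hy =>
    fai y fun v => LinearMap.congr_fun hy v
  have hBn : IsNilpotent B := by
    obtain ⟨p, hp⟩ := LieAlgebra.ad_nilpotent_of_nilpotent (R := k) hnil
    refine ⟨p, LinearMap.ext fun y => hinj _ ?_⟩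
    have h4 : ∀ q : ℕ, ∀ y : L, ((ad k (End k S) n) ^ q) (toEnd k L S y) =
        toEnd k L S ((B ^ q) y) := by
      intro q
      induction q with
      | zero =>
        intro y
        rfl
      | succ q ih =>
        intro y
        rw [pow_succ, pow_succ, Module.End.mul_apply, Module.End.mul_apply, h3, ih]
    rw [← h4, hp]
    rfl
  have hB0 : B = 0 := Module.End.eq_zero_of_isNilpotent_isSemisimple hBn hBss
  have h5 : ∀ (y : L) (m : S), n ⁅y, m⁆ = ⁅y, n m⁆ := by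
    intro y m
    have h6 := h3 y
    rw [hB0, LinearMap.zero_apply, map_zero] at h6
    have h7 : n * toEnd k L S y - toEnd k L S y * n = 0 := h6
    exact LinearMap.congr_fun (sub_eq_zero.1 h7) m
  have h6 : LinearMap.ker n = ⊤ := by
    refine irr _ (fun y m hm => ?_) ?_
    · rw [LinearMap.mem_ker] at hm ⊢
      rw [h5 y, hm, lie_zero]
    · intro h7
      obtain ⟨p, hp⟩ := hnil
      have h8 : Function.Injective (n ^ p) := by
        rw [Module.End.coe_pow]
        exact (LinearMap.ker_eq_bot.1 h7).iterate p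
      rw [hp] at h8
      obtain ⟨m, hm⟩ := exists_ne (0 : S)
      exact hm (h8 rfl)
  have h7 : n = 0 := LinearMap.ker_eq_top.1 h6
  rw [hxns, h7, zero_add]
  exact hss

end ss

section irr

variable {k L W : Type*} [Field k] [CharZero k] [LieRing L] [LieAlgebra k L]
  [AddCommGroup W] [Module k W] [LieRingModule L W] [LieModule k L W]
  [FiniteDimensional k W]

theorem irr_of (hD : DecIn (k := k) L W 1) (V : Submodule k W)
    (hV : ∀ x : L, ∀ v ∈ V, ⁅x, v⁆ ∈ V) (h0 : V ≠ ⊥) : V = ⊤ := by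
  by_contra h1
  obtain ⟨v, hv, hv0⟩ := Submodule.exists_mem_ne_zero_of_ne_bot h0
  obtain ⟨g, hg0, hg⟩ := Submodule.exists_le_ker_of_lt_top V (lt_top_iff_ne_top.2 h1)
  have hdec : ∀ (ξ : Dual k W) (u : W), (dec fun _ : Fin 1 => ξ) (fun _ => u) = ξ u := by
    intro ξ u
    rw [dec_apply, Matrix.det_fin_one, Matrix.of_apply]
  have h2 := hD
    { carrier := {ω | ∀ u ∈ V, ω (fun _ => u) = 0}
      zero_mem' := fun u _ => rfl
      add_mem' := by
        intro a b ha hb u hu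
        rw [AlternatingMap.add_apply, ha u hu, hb u hu, add_zero]
      smul_mem' := by
        intro c a ha u hu
        rw [AlternatingMap.smul_apply, ha u hu, smul_zero] } (by
    intro x ω hω u hu
    rw [lie_app, Fin.sum_univ_one]
    have h3 : update (fun _ : Fin 1 => u) 0 ⁅x, u⁆ = fun _ => ⁅x, u⁆ := by
      funext i
      rw [Subsingleton.elim i 0, update_self]
    rw [h3, hω _ (hV x u hu), neg_zero]) (by
    refine (Submodule.ne_bot_iff _).2 ⟨dec fun _ => g, fun u hu => ?_, ?_⟩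
    · rw [hdec]
      exact LinearMap.mem_ker.1 (hg hu)
    · intro h3
      apply hg0
      refine LinearMap.ext fun u => ?_
      rw [← hdec g u, h3, AlternatingMap.zero_apply, LinearMap.zero_apply])
  obtain ⟨ξ, hξ⟩ := Module.exists_dual_forall_apply_ne_zero (K := k)
    (fun _ : Unit => v) (fun _ => hv0)
  have h3 := h2 (fun _ => ξ) v hv
  rw [hdec] at h3
  exact hξ () h3

end irr

section ex

variable {k L : Type*} [Field k] [IsAlgClosed k] [CharZero k] [LieRing L] [LieAlgebra k L]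
  [FiniteDimensional k L]
variable {W : Type*} [AddCommGroup W] [Module k W] [LieRingModule L W] [LieModule k L W]
  [FiniteDimensional k W] {m : ℕ}

theorem sys_of_phi [LieAlgebra.IsKilling k L] {H : LieSubalgebra k L}
    [H.IsCartanSubalgebra] {w' : Basis (Fin m) k W} {χ' : Fin m → H → k}
    (hw' : ∀ j, w' j ∈ wt H W (χ' j)) {φ : (H → k) →ₗ[ℚ] ℚ} (hgen : ∀ β, IsRt H β → φ β ≠ 0)
    (hdin : ∀ p, 1 ≤ p → p < m → DecIn (k := k) L W p)
    (fai : ∀ x : L, (∀ v : W, ⁅x, v⁆ = 0) → x = 0)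
    (htr : ∀ x : L, LinearMap.trace k W (toEnd k L W x) = 0) :
    ∃ (w : Basis (Fin m) k W) (χ : ℕ → H → k), Sys w χ φ := by
  set σ := Tuple.sort (fun i => φ (χ' i)) with hσ
  have hmono : Monotone ((fun i => φ (χ' i)) ∘ σ) := Tuple.monotone_sort _
  set w := w'.reindex σ.symm with hwdef
  set χ : ℕ → H → k := fun n => if h : n < m then χ' (σ ⟨n, h⟩) else 0 with hχ
  have hχv : ∀ j : Fin m, χ j = χ' (σ j) := by
    intro j
    simp only [hχ, j.2, dif_pos]
  have hw : ∀ j : Fin m, w j ∈ wt H W (χ j) := by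
    intro j
    rw [hχv, hwdef, Basis.reindex_apply, Equiv.symm_symm]
    exact hw' (σ j)
  have hweak : ∀ t, 1 ≤ t → t < m → 0 ≤ φ (df χ t) := by
    intro t ht htm
    have h1 := hmono (show (⟨t - 1, by omega⟩ : Fin m) ≤ ⟨t, htm⟩ from Nat.sub_le t 1)
    unfold df
    have h2 := hχv ⟨t, htm⟩
    have h3 := hχv ⟨t - 1, by omega⟩
    simp only at h2 h3
    rw [h2, h3, map_sub, sub_nonneg]
    exact h1
  have htop : ∀ p ≤ m, ∀ μ, wt H (W [⋀^Fin p]→ₗ[k] k) μ ≠ ⊥ → φ μ ≤ φ (lam χ p) := by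
    intro p hp μ hμ
    obtain ⟨a, ha, h1⟩ := exists_wt_form w hw hμ
    rw [h1, sum_chi χ ha hp]
    unfold lam
    rw [map_neg, map_neg, map_add, neg_add]
    have h2 : 0 ≤ φ (∑ t ∈ Finset.Ico 1 m, exc a t • df χ t) := by
      rw [map_sum]
      refine Finset.sum_nonneg fun t ht => ?_
      rw [Finset.mem_Ico] at ht
      rw [map_nsmul, nsmul_eq_mul]
      exact mul_nonneg (Nat.cast_nonneg _) (hweak t ht.1 ht.2)
    linarith
  refine ⟨w, χ, ⟨hw, ?_, hgen, hdin, fai, ?_⟩⟩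
  · intro t ht htm
    obtain ⟨q, rfl⟩ : ∃ q, t = q + 1 := ⟨t - 1, by omega⟩
    refine lt_of_le_of_ne (hweak _ ht htm) fun h0 => ?_
    have hb0 : fo w (bb q m htm) ≠ 0 := by
      intro h
      have h1 := fo_self w (bb_inj htm)
      rw [h, AlternatingMap.zero_apply] at h1
      exact zero_ne_one h1
    refine not_prop w htm (killed (hdin (q + 1) ht htm) hgen (fo_bb0 hw htm) hb0 ?_
      (ν := lam χ (q + 1)) ?_ (fo_top0 hw htm.le))
    · intro β hβ x hx
      by_contra h1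
      have h2 := htop _ htm.le _ ((Submodule.ne_bot_iff _).2
        ⟨_, lie_mem_wt hx (fo_bb0 hw htm), h1⟩)
      rw [map_add, map_sub, ← h0] at h2
      linarith
    · rw [map_sub, ← h0, sub_zero]
  · funext x
    rw [Finset.sum_apply, Pi.zero_apply]
    have h1 := htr (x : L)
    rw [LinearMap.trace_eq_matrix_trace k w] at h1
    unfold Matrix.trace at h1
    rw [← Fin.sum_univ_eq_sum_range (fun i => χ i x), ← h1]
    refine Finset.sum_congr rfl fun j _ => ?_
    rw [Matrix.diag_apply, LinearMap.toMatrix_apply, toEnd_apply_apply, hw j x, map_smul,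
      Basis.repr_self, Finsupp.smul_apply, Finsupp.single_eq_same, smul_eq_mul, mul_one]

variable {W₂ : Type*} [AddCommGroup W₂] [Module k W₂] [LieRingModule L W₂] [LieModule k L W₂]
  [FiniteDimensional k W₂] {m₂ : ℕ}

/-- **A diagonal space.** -/
theorem exists_diag (hm : Even m) (hm₂ : Even m₂) (h0 : 0 < m) (h0' : 0 < m₂)
    (hf : finrank k W = m) (hf₂ : finrank k W₂ = m₂)
    (hdin : ∀ p, 1 ≤ p → p < m → DecIn (k := k) L W p)
    (hdin₂ : ∀ p, 1 ≤ p → p < m₂ → DecIn (k := k) L W₂ p)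
    (fai : ∀ x : L, (∀ v : W, ⁅x, v⁆ = 0) → x = 0)
    (fai₂ : ∀ x : L, (∀ v : W₂, ⁅x, v⁆ = 0) → x = 0)
    (htr : ∀ x : L, LinearMap.trace k W (toEnd k L W x) = 0)
    (htr₂ : ∀ x : L, LinearMap.trace k W₂ (toEnd k L W₂ x) = 0) :
    ∃ h, 1 ≤ h ∧ h < m ∧ h < m₂ ∧ m = m₂ ∧
      ∃ U : Submodule k ((W [⋀^Fin h]→ₗ[k] k) × (W₂ [⋀^Fin h]→ₗ[k] k)),
      (∀ x : L, ∀ u ∈ U, (⁅x, u.1⁆, ⁅x, u.2⁆) ∈ U) ∧ ∃ u ∈ U, (u.1, 0) ∉ U := by
  have hm1 : 1 < m := by
    obtain ⟨r, hr⟩ := hm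
    omega
  have hm1' : 1 < m₂ := by
    obtain ⟨r, hr⟩ := hm₂
    omega
  haveI : Nontrivial W := Module.nontrivial_of_finrank_pos (R := k) (by omega)
  haveI : Nontrivial W₂ := Module.nontrivial_of_finrank_pos (R := k) (by omega)
  have irr := irr_of (hdin 1 le_rfl hm1)
  have irr₂ := irr_of (hdin₂ 1 le_rfl hm1')
  haveI i3 : LieModule.IsIrreducible k L W := LieModule.IsIrreducible.mk fun N hN => by
    have h1 := irr N.toSubmodule (fun x m hm => N.lie_mem hm) (by
      intro h2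
      exact hN (by simpa using h2))
    simpa using h1
  haveI i2 : LieModule.IsFaithful k L W := (LieModule.isFaithful_iff' k L W).2 fai
  haveI i4 : LieAlgebra.HasTrivialRadical k L :=
    LieAlgebra.hasTrivialRadical_of_isIrreducible_of_isFaithful k L W htr
  haveI i5 : LieAlgebra.IsKilling k L := inferInstance
  obtain ⟨x0, hx0⟩ := LieAlgebra.exists_isCartanSubalgebra_engel k L
  set H := LieSubalgebra.engel k x0 with hH
  haveI i6 : H.IsCartanSubalgebra := hx0
  have hD : Diag H W := diag_S (ss_mem H fai irr)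
  have hD₂ : Diag H W₂ := diag_S (ss_mem H fai₂ irr₂)
  obtain ⟨w', χ', hw'⟩ := exists_basis hD hf
  obtain ⟨w₂', χ₂', hw₂'⟩ := exists_basis hD₂ hf₂
  obtain ⟨φ, -, hφ⟩ := exists_phi (⊥ : Submodule ℚ (H → k)) (finite_rt (H := H))
  have hgen : ∀ β, IsRt H β → φ β ≠ 0 := fun β hβ => hφ β hβ (by
    rw [Submodule.mem_bot]
    exact hβ.1)
  obtain ⟨w, χ, S⟩ := sys_of_phi hw' hgen hdin fai htr
  obtain ⟨w₂, χ₂, S₂⟩ := sys_of_phi hw₂' hgen hdin₂ fai₂ htr₂
  obtain ⟨h, h1, h2, h3, h4⟩ := mid S S₂ hm hm₂ h0 h0'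
  refine ⟨h, h1, h2, h3, le_antisymm (card_le S₂ S hm h0') (card_le S S₂ hm₂ h0), ?_⟩
  set u1 := fo w (Fin.castLE h2.le : Fin h → Fin m) with hu1
  set u2 := fo w₂ (Fin.castLE h3.le : Fin h → Fin m₂) with hu2
  have e1 := S.fo_top h2.le
  have e2 := S₂.fo_top h3.le
  rw [h4] at e2
  have n1 : u1 ≠ 0 := Sys.ne_of_val (Fin.castLE_injective h2.le)
  have n2 : u2 ≠ 0 := Sys.ne_of_val (Fin.castLE_injective h3.le)
  have hu : (u1, u2) ∈ wt H ((W [⋀^Fin h]→ₗ[k] k) × (W₂ [⋀^Fin h]→ₗ[k] k)) (lam χ h) :=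
    fun x => Prod.ext (e1 x) (e2 x)
  have hu' : (u1, (0 : W₂ [⋀^Fin h]→ₗ[k] k)) ∈
      wt H ((W [⋀^Fin h]→ₗ[k] k) × (W₂ [⋀^Fin h]→ₗ[k] k)) (lam χ h) := fun x =>
    Prod.ext (e1 x) (by
      change ⁅(x : L), (0 : W₂ [⋀^Fin h]→ₗ[k] k)⁆ = lam χ h x • 0
      rw [lie_zero, smul_zero])
  obtain ⟨U, hU, huU, h5⟩ := exists_sub hgen hu (by
    intro β hβ x hx
    have e3 : ⁅x, u1⁆ = 0 := S.top_kill h2.le hβ hx (S.fo_top h2.le)
    have e4 : ⁅x, u2⁆ = 0 := S₂.top_kill h3.le hβ hx (S₂.fo_top h3.le)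
    rw [prod_lie, e3, e4]
    rfl)
  refine ⟨U, fun x u hu => hU x u hu, _, huU, fun h6 => ?_⟩
  obtain ⟨v1, hv1, v2, hv2, h7⟩ := Submodule.mem_sup.1 (h5 h6)
  have h8 : v2 = 0 := by
    have h9 : v2 = (u1, 0) - v1 := by rw [← h7, add_sub_cancel_left]
    have h10 : v2 ∈ lv (H := H) (M := (W [⋀^Fin h]→ₗ[k] k) × (W₂ [⋀^Fin h]→ₗ[k] k))
        (fun χ' => φ (lam χ h) ≤ φ χ') := by
      rw [h9]
      refine Submodule.sub_mem _ (wt_le_lv (P := fun χ' => φ (lam χ h) ≤ φ χ') le_rfl hu') ?_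
      obtain ⟨c, rfl⟩ := Submodule.mem_span_singleton.1 hv1
      exact Submodule.smul_mem _ _ (wt_le_lv (P := fun χ' => φ (lam χ h) ≤ φ χ') le_rfl hu)
    exact eq_zero_of_mem_lv (fun χ h9 h10 => absurd h9 (not_lt.2 h10)) hv2 h10
  obtain ⟨c, rfl⟩ := Submodule.mem_span_singleton.1 hv1
  rw [h8, add_zero] at h7
  have h9 : c • u2 = 0 := congrArg Prod.snd h7
  have h10 : c • u1 = u1 := congrArg Prod.fst h7
  rcases smul_eq_zero.1 h9 with h11 | h11
  · rw [h11, zero_smul] at h10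
    exact n1 h10.symm
  · exact n2 h11

end ex

end Pool.Agent.TH164.Un
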