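import Pool.Agent.TH164.Un.Un7

/-!
# Linear relations between the minors of two matrices
-/

set_option autoImplicit false
set_option linter.unusedSectionVars false
set_option linter.unusedVariables false

open Module Matrix Function

namespace Pool.Agent.TH164.Un

open Pool.Agent.TH164.Spin Pool.Agent.TH119.DR Pool.Agent.TH164.A1

/-- Linear relations and operators. -/
theorem gen_op {I : Type} [Fintype I] [DecidableEq I] (A₀ : Subalgebra ℂ (Matrix I I ℂ))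
    (hAδ : ∀ δ : Derivation ℚ ℂ ℂ, ∀ T ∈ A₀, T.map δ ∈ A₀) (P Q : Matrix I I ℂ)
    (hP : ∀ δ : Derivation ℚ ℂ ℂ, ∃ a ∈ A₀, P.map δ = a * P)
    (hrel : ∀ w : I × I → ℂ, (∀ i, IsAlgebraic ℚ (w i)) → ∑ q : I × I, w q * P q.1 q.2 = 0 →
      ∑ q : I × I, w q * Q q.1 q.2 = 0) : ∃ T ∈ A₀, T * P = Q := by
  set V : Submodule ℂ (Matrix I I ℂ) := A₀.toSubmodule.map (LinearMap.mulRight ℂ P) with hV
  have hVδ : ∀ δ : Derivation ℚ ℂ ℂ, ∀ v ∈ V, v.map δ ∈ V := by
    rintro δ _ ⟨a, ha, rfl⟩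
    obtain ⟨b, hb, hPb⟩ := hP δ
    refine ⟨a.map δ + a * b, ?_, ?_⟩
    · exact A₀.add_mem (hAδ δ a ha) (A₀.mul_mem ha hb)
    · change (a.map δ + a * b) * P = (a * P).map δ
      rw [map_mul_der, Matrix.add_mul, hPb, Matrix.mul_assoc]
  have hMV : P ∈ V := ⟨1, A₀.one_mem, Matrix.one_mul _⟩
  have hmem : Q ∈ V := by
    by_contra hne
    obtain ⟨f, hf0, hf⟩ := Submodule.exists_le_ker_of_notMem hne
    set Wm : Submodule ℂ (I × I → ℂ) :=
      { carrier := {w | ∀ v ∈ V, ∑ q : I × I, w q * v q.1 q.2 = 0}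
        zero_mem' := fun v _ => by simp
        add_mem' := by
          intro a b ha hb v hv
          simp only [Pi.add_apply, add_mul, Finset.sum_add_distrib]
          rw [ha v hv, hb v hv, add_zero]
        smul_mem' := by
          intro c a ha v hv
          simp only [Pi.smul_apply, smul_eq_mul, mul_assoc]
          rw [← Finset.mul_sum, ha v hv, mul_zero] } with hWdef
    have hWf : (fun q : I × I => f (Matrix.single q.1 q.2 1)) ∈ Wm := by
      intro v hv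
      rw [← exists_coeff]
      exact LinearMap.mem_ker.1 (hf hv)
    have h3 := exists_rat' Wm (by
      intro δ w hw v hv
      have h3 := congrArg δ (hw v hv)
      rw [map_zero, map_sum] at h3
      have h4 := hw _ (hVδ δ v hv)
      have h5 : ∑ q : I × I, δ (w q * v q.1 q.2) =
          ∑ q : I × I, δ (w q) * v q.1 q.2 +
          ∑ q : I × I, w q * (v.map δ) q.1 q.2 := by
        rw [← Finset.sum_add_distrib]
        refine Finset.sum_congr rfl fun p _ => ?_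
        rw [Derivation.leibniz, smul_eq_mul, smul_eq_mul, Matrix.map_apply]
        ring
      rw [h5, h4, add_zero] at h3
      exact h3) hWf
    have h4 : (Submodule.span ℂ {w | w ∈ Wm ∧ ∀ i, IsAlgebraic ℚ (w i)} :
        Submodule ℂ (I × I → ℂ)) ≤
        { carrier := {w | ∑ q : I × I, w q * Q q.1 q.2 = 0}
          zero_mem' := by simp
          add_mem' := by
            intro a b ha hb
            simp only [Set.mem_ofPred_eq, Pi.add_apply, add_mul, Finset.sum_add_distrib] at ha hb ⊢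
            rw [ha, hb, add_zero]
          smul_mem' := by
            intro c a ha
            simp only [Set.mem_ofPred_eq, Pi.smul_apply, smul_eq_mul, mul_assoc] at ha ⊢
            rw [← Finset.mul_sum, ha, mul_zero] } := by
      refine Submodule.span_le.2 ?_
      rintro w ⟨hw, hwa⟩
      exact hrel w hwa (hw _ hMV)
    have h5 := h4 h3
    change ∑ q : I × I, f (Matrix.single q.1 q.2 1) * Q q.1 q.2 = 0 at h5
    rw [← exists_coeff] at h5
    exact hf0 h5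
  obtain ⟨T, hT, hTM⟩ := hmem
  exact ⟨T, hT, hTM⟩

variable {m m₂ p : ℕ}

theorem minors_map (δ : Derivation ℚ ℂ ℂ) {X X' : Matrix (Fin m) (Fin m) ℂ} (hX' : X' * X = 1) :
    (minors p X).map δ = DJ p (X.map δ * X') * minors p X := by
  rw [minors_eq, map_mul_der, asy_map, Matrix.mul_zero, add_zero, tens_map δ hX',
    Matrix.mul_assoc]

theorem form_eq {X X' Y : Matrix (Fin m) (Fin m) ℂ} (hX'' : X * X' = 1)
    {u u' : (Fin m → ℂ) [⋀^Fin p]→ₗ[ℂ] ℂ}
    (h2 : Matrix.vecMul (co u') (minors p X) = Matrix.vecMul (co u) (minors p (Y * X))) :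
    u' = u.compLinearMap (Matrix.toLin' Y) := by
  rw [minors_eq, minors_eq, ← Matrix.vecMul_vecMul,
    ← Matrix.vecMul_vecMul, ← co_pull, ← co_pull, co_asy, co_asy] at h2
  have h3 : co (u'.compLinearMap (Matrix.toLin' X)) =
      co (u.compLinearMap (Matrix.toLin' (Y * X))) :=
    smul_right_injective _ (Nat.cast_ne_zero.2 (Nat.factorial_ne_zero p)) h2
  have h4 := co_inj h3
  have h6 := congrArg (fun ω : (Fin m → ℂ) [⋀^Fin p]→ₗ[ℂ] ℂ =>
    ω.compLinearMap (Matrix.toLin' X')) h4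
  simp only [AlternatingMap.compLinearMap_assoc] at h6
  rw [← Matrix.toLin'_mul, ← Matrix.toLin'_mul, hX'', Matrix.mul_assoc, hX'', Matrix.mul_one,
    Matrix.toLin'_one, AlternatingMap.compLinearMap_id] at h6
  exact h6

/-- The derivation for two matrices. -/
def DD (p : ℕ) (x : Matrix (Fin m) (Fin m) ℂ × Matrix (Fin m₂) (Fin m₂) ℂ) :
    Matrix ((Fin p → Fin m) ⊕ (Fin p → Fin m₂)) ((Fin p → Fin m) ⊕ (Fin p → Fin m₂)) ℂ :=
  Matrix.fromBlocks (DJ p x.1) 0 0 (DJ p x.2)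

/-- The minors of two matrices. -/
def mm (p : ℕ) (X : Matrix (Fin m) (Fin m) ℂ) (X₂ : Matrix (Fin m₂) (Fin m₂) ℂ) :
    Matrix ((Fin p → Fin m) ⊕ (Fin p → Fin m₂)) ((Fin p → Fin m) ⊕ (Fin p → Fin m₂)) ℂ :=
  Matrix.fromBlocks (minors p X) 0 0 (minors p X₂)

/-- All linear relations with algebraic coefficients between the minors of size `p` of the two
matrices hold for all pairs of matrices. -/
def OnlyTrivial2 (p : ℕ) (X : Matrix (Fin m) (Fin m) ℂ) (X₂ : Matrix (Fin m₂) (Fin m₂) ℂ) :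
    Prop :=
  ∀ (B : (Fin p → Fin m) → (Fin p → Fin m) → ℂ) (B₂ : (Fin p → Fin m₂) → (Fin p → Fin m₂) → ℂ),
    (∀ s t, IsAlgebraic ℚ (B s t)) → (∀ s t, IsAlgebraic ℚ (B₂ s t)) →
    ∑ s, ∑ t, B s t * (X.submatrix s t).det + ∑ s, ∑ t, B₂ s t * (X₂.submatrix s t).det = 0 →
    ∀ (Y : Matrix (Fin m) (Fin m) ℂ) (Y₂ : Matrix (Fin m₂) (Fin m₂) ℂ),
      ∑ s, ∑ t, B s t * (Y.submatrix s t).det = 0 ∧
      ∑ s, ∑ t, B₂ s t * (Y₂.submatrix s t).det = 0

theorem sum_mm (w : ((Fin p → Fin m) ⊕ (Fin p → Fin m₂)) × ((Fin p → Fin m) ⊕ (Fin p → Fin m₂)) →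
    ℂ) (Y : Matrix (Fin m) (Fin m) ℂ) (Y₂ : Matrix (Fin m₂) (Fin m₂) ℂ) :
    ∑ q, w q * mm p Y Y₂ q.1 q.2 =
      ∑ s, ∑ t, w (Sum.inl s, Sum.inl t) * (Y.submatrix s t).det +
      ∑ s, ∑ t, w (Sum.inr s, Sum.inr t) * (Y₂.submatrix s t).det := by
  rw [Fintype.sum_prod_type, Fintype.sum_sum_type]
  congr 1
  · refine Finset.sum_congr rfl fun s _ => ?_
    rw [Fintype.sum_sum_type]
    have h1 : ∑ t, w (Sum.inl s, Sum.inr t) * mm p Y Y₂ (Sum.inl s) (Sum.inr t) = 0 :=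
      Finset.sum_eq_zero fun t _ => mul_zero _
    rw [h1, add_zero]
    rfl
  · refine Finset.sum_congr rfl fun s _ => ?_
    rw [Fintype.sum_sum_type]
    have h1 : ∑ t, w (Sum.inr s, Sum.inl t) * mm p Y Y₂ (Sum.inr s) (Sum.inl t) = 0 :=
      Finset.sum_eq_zero fun t _ => mul_zero _
    rw [h1, zero_add]
    rfl

theorem DD_map (δ : Derivation ℚ ℂ ℂ)
    (x : Matrix (Fin m) (Fin m) ℂ × Matrix (Fin m₂) (Fin m₂) ℂ) :
    (DD p x).map δ = DD p (x.1.map δ, x.2.map δ) := by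
  unfold DD
  rw [Matrix.fromBlocks_map, DJ_map, DJ_map, Matrix.map_zero _ (map_zero δ),
    Matrix.map_zero _ (map_zero δ)]

/-- **Stable spaces of pairs of forms are stable under all pairs of matrices.** -/
theorem stable_two (h : Submodule ℂ (Matrix (Fin m) (Fin m) ℂ × Matrix (Fin m₂) (Fin m₂) ℂ))
    {X X' : Matrix (Fin m) (Fin m) ℂ} {X₂ X₂' : Matrix (Fin m₂) (Fin m₂) ℂ}
    (hX : X * X' = 1) (hX' : X' * X = 1) (hX₂ : X₂ * X₂' = 1) (hX₂' : X₂' * X₂ = 1)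
    (hδ : ∀ δ : Derivation ℚ ℂ ℂ, ∀ x ∈ h, (x.1.map δ, x.2.map δ) ∈ h)
    (hXδ : ∀ δ : Derivation ℚ ℂ ℂ, (X.map δ * X', X₂.map δ * X₂') ∈ h)
    (hT : OnlyTrivial2 p X X₂)
    (U : Submodule ℂ (((Fin m → ℂ) [⋀^Fin p]→ₗ[ℂ] ℂ) × ((Fin m₂ → ℂ) [⋀^Fin p]→ₗ[ℂ] ℂ)))
    (hU : ∀ x ∈ h, ∀ u ∈ U, (D (Matrix.toLin' x.1) u.1, D (Matrix.toLin' x.2) u.2) ∈ U)
    {u : ((Fin m → ℂ) [⋀^Fin p]→ₗ[ℂ] ℂ) × ((Fin m₂ → ℂ) [⋀^Fin p]→ₗ[ℂ] ℂ)} (hu : u ∈ U)
    (Y : Matrix (Fin m) (Fin m) ℂ) (Y₂ : Matrix (Fin m₂) (Fin m₂) ℂ) :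
    (u.1.compLinearMap (Matrix.toLin' Y), u.2.compLinearMap (Matrix.toLin' Y₂)) ∈ U := by
  set A₀ := Algebra.adjoin ℂ (DD p ''
    (h : Set (Matrix (Fin m) (Fin m) ℂ × Matrix (Fin m₂) (Fin m₂) ℂ))) with hA₀
  obtain ⟨T, hT1, hT2⟩ := gen_op A₀ (by
    intro δ T hT
    induction hT using Algebra.adjoin_induction with
    | mem x hx =>
      obtain ⟨y, hy, rfl⟩ := hx
      rw [DD_map]
      exact Algebra.subset_adjoin ⟨_, hδ δ y hy, rfl⟩
    | algebraMap r =>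
      rw [Algebra.algebraMap_eq_smul_one, map_smul_der, map_one_der, smul_zero, add_zero]
      exact A₀.smul_mem A₀.one_mem _
    | add x y _ _ hx hy =>
      have : (x + y).map δ = x.map δ + y.map δ := by
        ext i j
        exact map_add δ _ _
      rw [this]
      exact A₀.add_mem hx hy
    | mul x y hx' hy' hx hy =>
      rw [map_mul_der]
      exact A₀.add_mem (A₀.mul_mem hx hy') (A₀.mul_mem hx' hy))
    (mm p X X₂) (mm p (Y * X) (Y₂ * X₂)) (by
    intro δ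
    refine ⟨_, Algebra.subset_adjoin ⟨_, hXδ δ, rfl⟩, ?_⟩
    unfold mm DD
    rw [Matrix.fromBlocks_map, Matrix.fromBlocks_multiply, minors_map δ hX', minors_map δ hX₂',
      Matrix.map_zero _ (map_zero δ), Matrix.map_zero _ (map_zero δ)]
    simp only [Matrix.mul_zero, Matrix.zero_mul, add_zero, zero_add]) (by
    intro w hw h1
    rw [sum_mm] at h1 ⊢
    obtain ⟨h2, h3⟩ := hT (fun s t => w (Sum.inl s, Sum.inl t))
      (fun s t => w (Sum.inr s, Sum.inr t)) (fun s t => hw _) (fun s t => hw _) h1 (Y * X)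
      (Y₂ * X₂)
    rw [h2, h3, add_zero])
  set cc : ((Fin m → ℂ) [⋀^Fin p]→ₗ[ℂ] ℂ) × ((Fin m₂ → ℂ) [⋀^Fin p]→ₗ[ℂ] ℂ) →
    ((Fin p → Fin m) ⊕ (Fin p → Fin m₂) → ℂ) := fun v => Sum.elim (co v.1) (co v.2) with hcc
  have hDD : ∀ (y : Matrix (Fin m) (Fin m) ℂ × Matrix (Fin m₂) (Fin m₂) ℂ) v,
      Matrix.vecMul (cc v) (DD p y) =
        cc (D (Matrix.toLin' y.1) v.1, D (Matrix.toLin' y.2) v.2) := by
    intro y v
    simp only [hcc]
    unfold DD
    rw [Matrix.vecMul_fromBlocks, co_D, co_D]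
    simp
  have key : ∀ v ∈ U, ∃ v' ∈ U, Matrix.vecMul (cc v) T = cc v' := by
    clear hT2
    induction hT1 using Algebra.adjoin_induction with
    | mem x hx =>
      obtain ⟨y, hy, rfl⟩ := hx
      intro v hv
      exact ⟨_, hU y hy v hv, hDD y v⟩
    | algebraMap r =>
      intro v hv
      refine ⟨r • v, U.smul_mem _ hv, ?_⟩
      rw [Algebra.algebraMap_eq_smul_one, Matrix.vecMul_smul, Matrix.vecMul_one]
      funext i
      rcases i with i | i <;> rfl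
    | add x y _ _ hx hy =>
      intro v hv
      obtain ⟨v1, h1, h2⟩ := hx v hv
      obtain ⟨v2, h3, h4⟩ := hy v hv
      refine ⟨v1 + v2, U.add_mem h1 h3, ?_⟩
      rw [Matrix.vecMul_add, h2, h4]
      funext i
      rcases i with i | i <;> rfl
    | mul x y _ _ hx hy =>
      intro v hv
      obtain ⟨v1, h1, h2⟩ := hx v hv
      obtain ⟨v2, h3, h4⟩ := hy v1 h1
      exact ⟨v2, h3, by rw [← Matrix.vecMul_vecMul, h2, h4]⟩
  obtain ⟨u', hu', h1⟩ := key u hu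
  have h2 : Matrix.vecMul (cc u) (T * mm p X X₂) = Matrix.vecMul (cc u) (mm p (Y * X) (Y₂ * X₂)) := by
    rw [hT2]
  rw [← Matrix.vecMul_vecMul, h1] at h2
  have h3 : Matrix.vecMul (co u'.1) (minors p X) = Matrix.vecMul (co u.1) (minors p (Y * X)) := by
    have h4 := congrArg (fun f => f ∘ Sum.inl) h2
    simp only [hcc, mm, Matrix.vecMul_fromBlocks] at h4
    simpa using h4
  have h4 : Matrix.vecMul (co u'.2) (minors p X₂) =
      Matrix.vecMul (co u.2) (minors p (Y₂ * X₂)) := by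
    have h4 := congrArg (fun f => f ∘ Sum.inr) h2
    simp only [hcc, mm, Matrix.vecMul_fromBlocks] at h4
    simpa using h4
  have e1 := form_eq hX h3
  have e2 := form_eq hX₂ h4
  rw [← e1, ← e2]
  exact hu'

end Pool.Agent.TH164.Un
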