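import Pool.Agent.TH164.Un.Un5

/-!
# The special linear Lie algebra is simple; Goursat's lemma
-/

set_option autoImplicit false
set_option linter.unusedSectionVars false
set_option linter.unusedVariables false

open Module Function

namespace Pool.Agent.TH164.Un

open Pool.Agent.TH164.Spin

section simple

variable {k : Type*} [Field k] [IsAlgClosed k] [CharZero k]
variable {W : Type*} [AddCommGroup W] [Module k W] [FiniteDimensional k W] {m : ℕ}

theorem trEl (w : Basis (Fin m) k W) {i j : Fin m} (hij : i ≠ j) :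
    LinearMap.trace k W (El w i j) = 0 := by
  rw [LinearMap.trace_eq_matrix_trace k w]
  unfold Matrix.trace
  refine Finset.sum_eq_zero fun l _ => ?_
  rw [Matrix.diag_apply, LinearMap.toMatrix_apply, El_basis]
  by_cases h1 : l = j
  · rw [if_pos h1, Basis.repr_self, Finsupp.single_apply, if_neg]
    rw [h1]
    exact hij
  · rw [if_neg h1, map_zero, Finsupp.zero_apply]

theorem sl_simple (w : Basis (Fin m) k W) (U : Submodule k (End k W))
    (htr : ∀ f ∈ U, LinearMap.trace k W f = 0)
    (hi : ∀ f, LinearMap.trace k W f = 0 → ∀ g ∈ U, f * g - g * f ∈ U) {g : End k W}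
    (hg : g ∈ U) (hg0 : g ≠ 0) : ∀ f, LinearMap.trace k W f = 0 → f ∈ U := by
  have hm0 : 0 < m := by
    rcases Nat.eq_zero_or_pos m with h | h
    · subst h
      exfalso
      apply hg0
      refine w.ext fun i => Fin.elim0 i
    · exact h
  have hcl : ∀ i j l : Fin m, El w i j * El w j l = El w i l := fun i j l => by
    have := El_comp w i j j l
    rwa [if_pos rfl] at this
  have hcl0 : ∀ i j j' l : Fin m, j ≠ j' → El w i j * El w j' l = 0 := fun i j j' l h => by
    have := El_comp w i j j' l
    rwa [if_neg h] at this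
  have h1 : ∃ i j : Fin m, i ≠ j ∧ El w i j ∈ U := by
    by_cases hA : ∃ i j : Fin m, i ≠ j ∧ w.coord j (g (w i)) ≠ 0
    · obtain ⟨i, j, hij, hc⟩ := hA
      refine ⟨i, j, hij, ?_⟩
      have h2 := hi _ (trEl w hij) _ (hi _ (trEl w hij) _ hg)
      have h3 : El w i j * g * El w i j = w.coord j (g (w i)) • El w i j := by
        refine LinearMap.ext fun v => ?_
        rw [Module.End.mul_apply, Module.End.mul_apply, LinearMap.smul_apply, El_apply w i j v,
          map_smul, map_smul, El_apply, smul_comm]
      have h4 : El w i j * (El w i j * g - g * El w i j) - (El w i j * g - g * El w i j) * El w i j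
          = (-2 * w.coord j (g (w i))) • El w i j := by
        have h5 : El w i j * El w i j = 0 := hcl0 i j i j hij.symm
        rw [mul_sub, sub_mul, ← mul_assoc, h5, zero_mul, mul_assoc g, h5, mul_zero, sub_zero,
          zero_sub, ← mul_assoc, h3]
        module
      rw [h4] at h2
      have h5 := U.smul_mem (-2 * w.coord j (g (w i)))⁻¹ h2
      rwa [smul_smul, inv_mul_cancel₀, one_smul] at h5
      exact mul_ne_zero (neg_ne_zero.2 two_ne_zero) hc
    · push Not at hA
      have hd : ∀ i, g (w i) = w.coord i (g (w i)) • w i := by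
        intro i
        refine w.ext_elem fun l => ?_
        rw [map_smul, Basis.repr_self, Finsupp.smul_apply, Finsupp.single_apply]
        by_cases hl : i = l
        · rw [if_pos hl, smul_eq_mul, mul_one, hl]
          rfl
        · rw [if_neg hl, smul_zero]
          exact hA i l hl
      have h2 : ∃ i j : Fin m, w.coord i (g (w i)) ≠ w.coord j (g (w j)) := by
        by_contra hcon
        push Not at hcon
        set o : Fin m := ⟨0, hm0⟩ with ho
        have h3 : g = w.coord o (g (w o)) • (LinearMap.id : W →ₗ[k] W) := by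
          refine w.ext fun i => ?_
          conv_lhs => rw [hd i, hcon i o]
          rfl
        have h4 := htr g hg
        rw [h3, map_smul, LinearMap.trace_id, Module.finrank_eq_card_basis w, Fintype.card_fin,
          smul_eq_mul] at h4
        rcases mul_eq_zero.1 h4 with h5 | h5
        · rw [h5, zero_smul] at h3
          exact hg0 h3
        · exact absurd h5 (Nat.cast_ne_zero.2 (by omega))
      obtain ⟨i, j, hij⟩ := h2
      have hij' : i ≠ j := by
        rintro rfl
        exact hij rfl
      refine ⟨i, j, hij', ?_⟩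
      have h3 := hi _ (trEl w hij') _ hg
      have h4 : El w i j * g - g * El w i j =
          (w.coord j (g (w j)) - w.coord i (g (w i))) • El w i j := by
        refine w.ext fun l => ?_
        rw [LinearMap.sub_apply, Module.End.mul_apply, Module.End.mul_apply,
          LinearMap.smul_apply, El_basis]
        by_cases hl : l = j
        · rw [if_pos hl, hl]
          conv_lhs => rw [hd j, hd i]
          rw [map_smul, El_basis, if_pos rfl, sub_smul]
        · rw [if_neg hl, map_zero, sub_zero, smul_zero]
          conv_lhs => rw [hd l]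
          rw [map_smul, El_basis, if_neg hl, smul_zero]
      rw [h4] at h3
      have h5 := U.smul_mem (w.coord j (g (w j)) - w.coord i (g (w i)))⁻¹ h3
      rwa [smul_smul, inv_mul_cancel₀ (sub_ne_zero.2 hij.symm), one_smul] at h5
  obtain ⟨i, j, hij, hE⟩ := h1
  have h2 : ∀ a, a ≠ j → El w a j ∈ U := by
    intro a haj
    by_cases hai : a = i
    · rw [hai]
      exact hE
    · have h3 := hi _ (trEl w hai) _ hE
      rwa [hcl, hcl0 i j a i (Ne.symm haj), sub_zero] at h3
  have h3 : ∀ a b, a ≠ b → El w a b ∈ U := by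
    intro a b hab
    by_cases hbj : b = j
    · rw [hbj] at hab ⊢
      exact h2 a hab
    · by_cases haj : a = j
      · subst haj
        have h4 := hi _ (trEl w hij.symm) _ hE
        rw [hcl, hcl] at h4
        have h5 := hi _ (trEl w hab) _ h4
        by_cases hbi : b = i
        · have h6 : El w a b * (El w a a - El w i i) - (El w a a - El w i i) * El w a b =
              (-2 : k) • El w a b := by
            rw [mul_sub, sub_mul, hcl0 a b a a (Ne.symm hab), hcl a a b, hbi, hcl a i i,
              hcl0 i i a i hij]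
            module
          rw [h6] at h5
          have h7 := U.smul_mem (-2 : k)⁻¹ h5
          rwa [smul_smul, inv_mul_cancel₀ (neg_ne_zero.2 two_ne_zero), one_smul] at h7
        · have h6 : El w a b * (El w a a - El w i i) - (El w a a - El w i i) * El w a b =
              (-1 : k) • El w a b := by
            rw [mul_sub, sub_mul, hcl0 a b a a (Ne.symm hab), hcl a a b, hcl0 a b i i hbi,
              hcl0 i i a b hij]
            module
          rw [h6] at h5
          have h7 := U.smul_mem (-1 : k)⁻¹ h5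
          rwa [smul_smul, inv_mul_cancel₀ (neg_ne_zero.2 one_ne_zero), one_smul] at h7
      · have h4 := hi _ (trEl w (Ne.symm hbj)) _ (h2 a haj)
        rw [hcl, hcl0 j b a j (Ne.symm hab), zero_sub] at h4
        exact (Submodule.neg_mem_iff _).1 h4
  intro f hf
  exact gen_sl w U (fun f hf g hg => hi f (htr f hf) g hg)
    (fun q h => h3 _ _ (by
      intro h1
      have := congrArg Fin.val h1
      simp only at this
      omega)) (fun q h => h3 _ _ (by
      intro h1
      have := congrArg Fin.val h1
      simp only at this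
      omega)) hf

theorem sl_noncomm (w : Basis (Fin m) k W) (hm : 2 ≤ m) : ∃ X : End k W,
    LinearMap.trace k W X = 0 ∧ ∃ Y : End k W, LinearMap.trace k W Y = 0 ∧ X * Y - Y * X ≠ 0 := by
  set i : Fin m := ⟨0, by omega⟩ with hi
  set j : Fin m := ⟨1, by omega⟩ with hj
  have hij : i ≠ j := by
    intro h
    have := congrArg Fin.val h
    simp [hi, hj] at this
  refine ⟨El w i j, trEl w hij, El w j i, trEl w hij.symm, fun h => ?_⟩
  have h1 : El w i j * El w j i = El w i i := by
    have := El_comp w i j j i
    rwa [if_pos rfl] at this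
  have h2 : El w j i * El w i j = El w j j := by
    have := El_comp w j i i j
    rwa [if_pos rfl] at this
  rw [h1, h2] at h
  have h3 := LinearMap.congr_fun h (w i)
  rw [LinearMap.sub_apply, El_basis, El_basis, if_pos rfl, if_neg hij, sub_zero,
    LinearMap.zero_apply] at h3
  exact w.ne_zero i h3

end simple

section goursat

variable {k : Type*} [Field k] {J : Type} [Fintype J] [DecidableEq J] {A : J → Type*}
  [∀ j, Ring (A j)] [∀ j, Algebra k (A j)]

/-- **Goursat's lemma.** -/
theorem goursat (S : ∀ j, Submodule k (A j))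
    (hsim : ∀ j, ∀ U : Submodule k (A j), U ≤ S j → (∀ X ∈ S j, ∀ Y ∈ U, X * Y - Y * X ∈ U) →
      ∀ Y ∈ U, Y ≠ 0 → S j ≤ U)
    (hnc : ∀ j, ∃ X ∈ S j, ∃ Y ∈ S j, X * Y - Y * X ≠ 0)
    {l : Submodule k (∀ j, A j)} (hle : ∀ x ∈ l, ∀ j, x j ∈ S j)
    (hbr : ∀ x ∈ l, ∀ y ∈ l, x * y - y * x ∈ l)
    (hsurj : ∀ j, ∀ X ∈ S j, ∃ x ∈ l, x j = X)
    (hno : ∀ i j, i ≠ j → ∃ x ∈ l, x i = 0 ∧ x j ≠ 0) :
    ∀ x : ∀ j, A j, (∀ j, x j ∈ S j) → x ∈ l := by
  have hid : ∀ (j : J) (D : Finset J), (∃ x ∈ l, (∀ i ∈ D, x i = 0) ∧ x j ≠ 0) →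
      ∀ X ∈ S j, ∃ x ∈ l, x j = X ∧ ∀ i ∈ D, x i = 0 := by
    rintro j D ⟨x, hx, hxD, hxj⟩
    refine hsim j
      { carrier := {X | ∃ x ∈ l, x j = X ∧ ∀ i ∈ D, x i = 0}
        zero_mem' := ⟨0, l.zero_mem, rfl, fun i _ => rfl⟩
        add_mem' := by
          rintro _ _ ⟨x, hx, rfl, h1⟩ ⟨y, hy, rfl, h2⟩
          exact ⟨x + y, l.add_mem hx hy, rfl, fun i hi => by
            rw [Pi.add_apply, h1 i hi, h2 i hi, add_zero]⟩
        smul_mem' := by
          rintro c _ ⟨x, hx, rfl, h1⟩
          exact ⟨c • x, l.smul_mem c hx, rfl, fun i hi => by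
            rw [Pi.smul_apply, h1 i hi, smul_zero]⟩ } ?_ ?_ _ ⟨x, hx, rfl, hxD⟩ hxj
    · rintro _ ⟨x, hx, rfl, -⟩
      exact hle x hx j
    · rintro X hX _ ⟨y, hy, rfl, h1⟩
      obtain ⟨x, hx, rfl⟩ := hsurj j X hX
      refine ⟨x * y - y * x, hbr x hx y hy, rfl, fun i hi => ?_⟩
      change x i * y i - y i * x i = 0
      rw [h1 i hi, mul_zero, zero_mul, sub_zero]
  have key : ∀ (j : J) (D : Finset J), j ∉ D → ∀ X ∈ S j, ∃ x ∈ l, x j = X ∧
      ∀ i ∈ D, x i = 0 := by
    intro j D
    induction D using Finset.induction_on with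
    | empty =>
      intro _ X hX
      obtain ⟨x, hx, hxj⟩ := hsurj j X hX
      exact ⟨x, hx, hxj, fun i hi => absurd hi (Finset.notMem_empty i)⟩
    | insert i D hiD ih =>
      intro hj
      have hij : i ≠ j := fun h => hj (h ▸ Finset.mem_insert_self i D)
      have hjD : j ∉ D := fun h => hj (Finset.mem_insert_of_mem h)
      refine hid j _ ?_
      obtain ⟨X, hX, Y, hY, hXY⟩ := hnc j
      obtain ⟨x, hx, hxj, hxD⟩ := ih hjD X hX
      obtain ⟨z, hz, hzi, hzj⟩ := hno i j hij
      obtain ⟨y, hy, hyj, hyD⟩ := hid j {i} ⟨z, hz, fun i' hi' => by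
        rw [Finset.mem_singleton.1 hi']
        exact hzi, hzj⟩ Y hY
      refine ⟨x * y - y * x, hbr x hx y hy, fun i' hi' => ?_, ?_⟩
      · change x i' * y i' - y i' * x i' = 0
        rcases Finset.mem_insert.1 hi' with rfl | hi'
        · rw [hyD _ (Finset.mem_singleton_self _), mul_zero, zero_mul, sub_zero]
        · rw [hxD i' hi', mul_zero, zero_mul, sub_zero]
      · change x j * y j - y j * x j ≠ 0
        rw [hxj, hyj]
        exact hXY
  intro x hx
  have h1 : x = ∑ j, Pi.single j (x j) := (Finset.univ_sum_single x).symm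
  rw [h1]
  refine Submodule.sum_mem _ fun j _ => ?_
  obtain ⟨y, hy, hyj, hyD⟩ := key j (Finset.univ.erase j) (Finset.notMem_erase _ _) (x j) (hx j)
  have h2 : Pi.single j (x j) = y := by
    funext i
    by_cases hij : i = j
    · subst hij
      rw [Pi.single_eq_same, hyj]
    · rw [Pi.single_eq_of_ne hij, hyD i (Finset.mem_erase.2 ⟨hij, Finset.mem_univ _⟩)]
  rw [h2]
  exact hy

end goursat

end Pool.Agent.TH164.Un
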