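import Pool.Agent.TH164.Un.Un8
import Pool.Agent.TH164.Un.Un10
import Pool.Agent.TH164.Un.Un11
import Pool.Agent.TH164.Un.Un12

/-!
# Products: the Lie algebra of the stabilizer
-/

set_option autoImplicit false
set_option linter.unusedSectionVars false
set_option linter.unusedVariables false

open Module Matrix Function

attribute [local instance 100] LieRing.ofAssociativeRing

namespace Pool.Agent.TH164.Un

open Pool.Agent.TH164.Spin Pool.Agent.TH119.MX Pool.Agent.TH119.DR Pool.Agent.TH164.A1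

variable {J : Type} [Fintype J] [DecidableEq J] {m : J → ℕ}

/-- Families of matrices. -/
abbrev MJ (m : J → ℕ) : Type := ∀ j, Matrix (Fin (m j)) (Fin (m j)) ℂ

/-- Block diagonal matrices. -/
def bk (x : MJ m) (c : Fin 2 → ℂ) :
    Matrix ((Σ j, Fin (m j)) ⊕ Fin 2) ((Σ j, Fin (m j)) ⊕ Fin 2) ℂ :=
  Matrix.fromBlocks (Matrix.blockDiagonal' x) 0 0 (Matrix.diagonal c)

theorem bk_mul (x y : MJ m) (c e : Fin 2 → ℂ) : bk x c * bk y e = bk (x * y) (c * e) := by
  unfold bk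
  rw [Matrix.fromBlocks_multiply]
  simp only [Matrix.mul_zero, Matrix.zero_mul, add_zero, zero_add,
    ← Matrix.blockDiagonal'_mul, Matrix.diagonal_mul_diagonal]
  rfl

theorem bk_add (x y : MJ m) (c e : Fin 2 → ℂ) : bk x c + bk y e = bk (x + y) (c + e) := by
  unfold bk
  rw [Matrix.fromBlocks_add, add_zero, add_zero, ← Matrix.blockDiagonal'_add,
    Matrix.diagonal_add]
  rfl

theorem bk_smul (a : ℂ) (x : MJ m) (c : Fin 2 → ℂ) : a • bk x c = bk (a • x) (a • c) := by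
  unfold bk
  rw [Matrix.fromBlocks_smul, smul_zero, smul_zero, ← Matrix.blockDiagonal'_smul,
    ← Matrix.diagonal_smul]

theorem bk_sub (x y : MJ m) (c e : Fin 2 → ℂ) : bk x c - bk y e = bk (x - y) (c - e) := by
  have h1 : bk x c - bk y e = bk x c + (-1 : ℂ) • bk y e := by
    rw [neg_one_smul, sub_eq_add_neg]
  rw [h1, bk_smul, bk_add, neg_one_smul, neg_one_smul, ← sub_eq_add_neg, ← sub_eq_add_neg]

theorem bk_one : bk (1 : MJ m) 1 = 1 := by
  unfold bk
  rw [Matrix.blockDiagonal'_one, show (1 : Fin 2 → ℂ) = fun _ => 1 from rfl,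
    Matrix.diagonal_one, Matrix.fromBlocks_one]

theorem bk_zero : bk (0 : MJ m) 0 = 0 := by
  unfold bk
  rw [Matrix.blockDiagonal'_zero, show (0 : Fin 2 → ℂ) = fun _ => 0 from rfl,
    Matrix.diagonal_zero, Matrix.fromBlocks_zero]

theorem bk_map {f : ℂ → ℂ} (hf : f 0 = 0) (x : MJ m) (c : Fin 2 → ℂ) :
    (bk x c).map f = bk (fun j => (x j).map f) (fun i => f (c i)) := by
  unfold bk
  rw [Matrix.fromBlocks_map, Matrix.blockDiagonal'_map _ _ hf, Matrix.diagonal_map hf,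
    Matrix.map_zero _ hf, Matrix.map_zero _ hf]

variable {H : Set (Matrix ((Σ j, Fin (m j)) ⊕ Fin 2) ((Σ j, Fin (m j)) ⊕ Fin 2) ℂ)}

/-- The elements of the stabilizer with the relation of the determinants. -/
def Rel (H : Set (Matrix ((Σ j, Fin (m j)) ⊕ Fin 2) ((Σ j, Fin (m j)) ⊕ Fin 2) ℂ)) (d : ℕ) :
    Submodule ℂ (MJ m × (Fin 2 → ℂ)) where
  carrier := {p | Stab H d (bk p.1 p.2) ∧ ∀ j, (p.1 j).trace = 2 * p.2 0 - p.2 1}
  zero_mem' := ⟨by
    change Stab H d (bk 0 0)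
    rw [bk_zero]
    exact Stab.zero, fun j => by
    change (0 : Matrix (Fin (m j)) (Fin (m j)) ℂ).trace = 2 * (0 : ℂ) - 0
    rw [Matrix.trace_zero, mul_zero, sub_zero]⟩
  add_mem' := by
    rintro p q ⟨h1, h2⟩ ⟨h3, h4⟩
    refine ⟨?_, fun j => ?_⟩
    · change Stab H d (bk (p.1 + q.1) (p.2 + q.2))
      rw [← bk_add]
      exact h1.add h3
    · change (p.1 j + q.1 j).trace = 2 * (p.2 0 + q.2 0) - (p.2 1 + q.2 1)
      rw [Matrix.trace_add, h2, h4]
      ring
  smul_mem' := by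
    rintro a p ⟨h1, h2⟩
    refine ⟨?_, fun j => ?_⟩
    · change Stab H d (bk (a • p.1) (a • p.2))
      rw [← bk_smul]
      exact h1.smul a
    · change (a • p.1 j).trace = 2 * (a * p.2 0) - a * p.2 1
      rw [Matrix.trace_smul, h2, smul_eq_mul]
      ring

theorem Rel_comm {d : ℕ} {x y : MJ m} {c e : Fin 2 → ℂ} (h1 : (x, c) ∈ Rel H d)
    (h2 : (y, e) ∈ Rel H d) : (x * y - y * x, (0 : Fin 2 → ℂ)) ∈ Rel H d := by
  have h3 := h1.1.comm h2.1
  rw [bk_mul, bk_mul, bk_sub, mul_comm c e, sub_self] at h3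
  refine ⟨h3, fun j => ?_⟩
  change (x j * y j - y j * x j).trace = 2 * (0 : ℂ) - 0
  rw [Matrix.trace_sub, Matrix.trace_mul_comm, sub_self, mul_zero, sub_zero]

/-- The families of operators with trace zero in the stabilizer, modulo scalars. -/
def lj (H : Set (Matrix ((Σ j, Fin (m j)) ⊕ Fin 2) ((Σ j, Fin (m j)) ⊕ Fin 2) ℂ)) (d : ℕ) :
    Submodule ℂ (∀ j, End ℂ (Fin (m j) → ℂ)) where
  carrier := {f | (∀ j, LinearMap.trace ℂ (Fin (m j) → ℂ) (f j) = 0) ∧ ∃ (τ : ℂ) (c : Fin 2 → ℂ),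
    ((fun j => LinearMap.toMatrix' (f j) + (τ / m j) • (1 : Matrix (Fin (m j)) (Fin (m j)) ℂ) :
      MJ m), c) ∈ Rel H d}
  zero_mem' := ⟨fun j => map_zero _, 0, 0, by
    have h1 : ((fun j => LinearMap.toMatrix' ((0 : ∀ j, End ℂ (Fin (m j) → ℂ)) j) +
        ((0 : ℂ) / m j) • (1 : Matrix (Fin (m j)) (Fin (m j)) ℂ) : MJ m)) = 0 := by
      funext j
      rw [Pi.zero_apply, map_zero, zero_div, zero_smul, add_zero]
      rfl
    rw [h1]
    exact Submodule.zero_mem _⟩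
  add_mem' := by
    rintro f g ⟨h1, τ, c, h2⟩ ⟨h3, σ, e, h4⟩
    refine ⟨fun j => by rw [Pi.add_apply, map_add, h1, h3, add_zero], τ + σ, c + e, ?_⟩
    have h5 := Submodule.add_mem _ h2 h4
    have h6 : ((fun j => LinearMap.toMatrix' ((f + g) j) + ((τ + σ) / m j) •
        (1 : Matrix (Fin (m j)) (Fin (m j)) ℂ) : MJ m)) =
        (fun j => LinearMap.toMatrix' (f j) + (τ / m j) • (1 : Matrix (Fin (m j)) (Fin (m j)) ℂ)) +
        (fun j => LinearMap.toMatrix' (g j) + (σ / m j) • 1) := by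
      funext j
      rw [Pi.add_apply, Pi.add_apply, map_add, add_div, add_smul]
      abel
    rw [h6]
    exact h5
  smul_mem' := by
    rintro a f ⟨h1, τ, c, h2⟩
    refine ⟨fun j => by rw [Pi.smul_apply, map_smul, h1, smul_zero], a * τ, a • c, ?_⟩
    have h5 := Submodule.smul_mem _ a h2
    have h6 : ((fun j => LinearMap.toMatrix' ((a • f) j) + ((a * τ) / m j) •
        (1 : Matrix (Fin (m j)) (Fin (m j)) ℂ) : MJ m)) =
        a • (fun j => LinearMap.toMatrix' (f j) + (τ / m j) •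
          (1 : Matrix (Fin (m j)) (Fin (m j)) ℂ)) := by
      funext j
      rw [Pi.smul_apply, Pi.smul_apply, map_smul, smul_add, smul_smul, mul_div_assoc]
    rw [h6]
    exact h5

theorem lj_comm' {d : ℕ} {f g : ∀ j, End ℂ (Fin (m j) → ℂ)} (hf : f ∈ lj H d) (hg : g ∈ lj H d) :
    ((fun j => LinearMap.toMatrix' ((f * g - g * f) j) : MJ m), (0 : Fin 2 → ℂ)) ∈ Rel H d := by
  obtain ⟨h1, τ, c, h2⟩ := hf
  obtain ⟨h3, σ, e, h4⟩ := hg
  have h5 := Rel_comm h2 h4
  have h6 : ((fun j => LinearMap.toMatrix' ((f * g - g * f) j) : MJ m)) =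
      (fun j => LinearMap.toMatrix' (f j) + (τ / m j) • (1 : Matrix (Fin (m j)) (Fin (m j)) ℂ)) *
      (fun j => LinearMap.toMatrix' (g j) + (σ / m j) • (1 : Matrix (Fin (m j)) (Fin (m j)) ℂ)) -
      (fun j => LinearMap.toMatrix' (g j) + (σ / m j) • (1 : Matrix (Fin (m j)) (Fin (m j)) ℂ)) *
      (fun j => LinearMap.toMatrix' (f j) + (τ / m j) •
        (1 : Matrix (Fin (m j)) (Fin (m j)) ℂ)) := by
    funext j
    change LinearMap.toMatrix' (f j * g j - g j * f j) = (_ + _) * (_ + _) - (_ + _) * (_ + _)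
    rw [map_sub, LinearMap.toMatrix'_mul, LinearMap.toMatrix'_mul]
    simp only [Matrix.add_mul, Matrix.mul_add, Matrix.smul_mul, Matrix.mul_smul,
      Matrix.one_mul, Matrix.mul_one]
    module
  rw [h6]
  exact h5

theorem lj_comm {d : ℕ} {f g : ∀ j, End ℂ (Fin (m j) → ℂ)} (hf : f ∈ lj H d) (hg : g ∈ lj H d) :
    f * g - g * f ∈ lj H d := by
  refine ⟨fun j => ?_, 0, 0, ?_⟩
  · change LinearMap.trace ℂ (Fin (m j) → ℂ) (f j * g j - g j * f j) = 0
    rw [map_sub, LinearMap.trace_mul_comm, sub_self]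
  · have h1 := lj_comm' hf hg
    have h2 : ((fun j => LinearMap.toMatrix' ((f * g - g * f) j) + ((0 : ℂ) / m j) •
        (1 : Matrix (Fin (m j)) (Fin (m j)) ℂ) : MJ m)) =
        (fun j => LinearMap.toMatrix' ((f * g - g * f) j)) := by
      funext j
      rw [zero_div, zero_smul, add_zero]
    rw [h2]
    exact h1

theorem lj_of (hm0 : ∀ j, 0 < m j) {d : ℕ} {x : MJ m} {c : Fin 2 → ℂ} (h : (x, c) ∈ Rel H d) :
    (fun j => Matrix.toLin' (x j) - ((2 * c 0 - c 1) / m j) •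
      (LinearMap.id : (Fin (m j) → ℂ) →ₗ[ℂ] _)) ∈ lj H d := by
  refine ⟨fun j => ?_, 2 * c 0 - c 1, c, ?_⟩
  · have hmC : (m j : ℂ) ≠ 0 := Nat.cast_ne_zero.2 (by have := hm0 j; omega)
    have h1 : LinearMap.trace ℂ (Fin (m j) → ℂ) (Matrix.toLin' (x j)) = (x j).trace := by
      rw [LinearMap.trace_eq_matrix_trace ℂ (Pi.basisFun ℂ (Fin (m j)))]
      congr 1
      exact LinearMap.toMatrix'_toLin' (x j)
    rw [map_sub, map_smul, LinearMap.trace_id, Module.finrank_fin_fun, smul_eq_mul,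
      div_mul_cancel₀ _ hmC, h1, h.2 j, sub_self]
  · have h2 : ((fun j => LinearMap.toMatrix' (Matrix.toLin' (x j) - ((2 * c 0 - c 1) / m j) •
        (LinearMap.id : (Fin (m j) → ℂ) →ₗ[ℂ] _)) + ((2 * c 0 - c 1) / m j) •
        (1 : Matrix (Fin (m j)) (Fin (m j)) ℂ) : MJ m)) = x := by
      funext j
      rw [map_sub, LinearMap.toMatrix'_toLin', map_smul, LinearMap.toMatrix'_id, sub_add_cancel]
    rw [h2]
    exact h

section data

variable {X X' : MJ m} {z : Fin 2 → ℂ}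
  {B B' : Matrix ((Σ j, Fin (m j)) ⊕ Fin 2) ((Σ j, Fin (m j)) ⊕ Fin 2) ℂ}

theorem Rel_der (hH : AlgGrp QA H) (d : ℕ) (δ : Derivation ℚ ℂ ℂ) {x : MJ m} {c : Fin 2 → ℂ}
    (hx : (x, c) ∈ Rel H d) :
    ((fun j => (x j).map δ : MJ m), fun i => δ (c i)) ∈ Rel H d := by
  refine ⟨?_, fun j => ?_⟩
  · have h1 := hH.stab_map (derK δ QA fun x hx => mem_QA.1 hx) hx.1
    have h2 : (bk x c).map (derK δ QA fun x hx => mem_QA.1 hx) =
        bk (fun j => (x j).map δ) (fun i => δ (c i)) := bk_map (f := δ) (map_zero δ) x c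
    rwa [h2] at h1
  · have h1 := congrArg δ (hx.2 j)
    have h2 : δ (x j).trace = ((x j).map δ).trace := by
      unfold Matrix.trace
      rw [map_sum]
      rfl
    rw [h2] at h1
    change ((x j).map δ).trace = 2 * δ (c 0) - δ (c 1)
    rw [h1, map_sub]
    congr 1
    have h3 : (2 : ℂ) * c 0 = c 0 + c 0 := two_mul _
    change δ (2 * c 0) = _
    rw [h3, map_add]
    ring

theorem Rel_tor (hH : AlgGrp QA H) (hX : ∀ j, X j * X' j = 1) (hz : ∀ i, z i ≠ 0)
    (hB : B * B' = 1)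
    (hBa : ∀ i j, B' i j ∈ QA) (hPB : bk X z * B ∈ H) {α : J → ℂ}
    (hα : ∀ j, IsAlgebraic ℚ (α j)) (hdet : ∀ j, (X j).det * z 1 = α j * z 0 ^ 2)
    (d : ℕ) (δ : Derivation ℚ ℂ ℂ) :
    ((fun j => (X j).map δ * X' j : MJ m), fun i => δ (z i) * (z i)⁻¹) ∈ Rel H d := by
  refine ⟨?_, fun j => ?_⟩
  · have hX' : ∀ j, X' j * X j = 1 := fun j => mul_eq_one_comm.1 (hX j)
    have h1 : bk X z * bk X' (fun i => (z i)⁻¹) = 1 := by
      rw [bk_mul, ← bk_one]
      congr 1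
      · funext j
        exact hX j
      · funext i
        exact mul_inv_cancel₀ (hz i)
    have h2 : bk X' (fun i => (z i)⁻¹) * bk X z = 1 := by
      rw [bk_mul, ← bk_one]
      congr 1
      · funext j
        exact hX' j
      · funext i
        exact inv_mul_cancel₀ (hz i)
    have h3 := hH.stab_der le_rfl (fun x hx => mem_QA.1 hx) h1 h2 hB hBa hPB (d := d) δ
    rw [bk_map (f := δ) (map_zero δ), bk_mul] at h3
    exact h3
  · have h1 := der_det' δ (hX j)
    have h2 := congrArg δ (hdet j)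
    have hdet0 : (X j).det ≠ 0 := by
      intro h
      have h1 := congrArg Matrix.det (hX j)
      rw [Matrix.det_mul, h, zero_mul, Matrix.det_one] at h1
      exact zero_ne_one h1
    have h3 : δ (α j) = 0 := deriv_alg δ (hα j)
    have h4 : z 0 ^ 2 = z 0 * z 0 := pow_two _
    rw [h4, Derivation.leibniz, Derivation.leibniz, Derivation.leibniz, h1, h3] at h2
    simp only [smul_eq_mul, mul_zero, add_zero] at h2
    have h5 := hdet j
    have h0 := hz 0
    have h01 := hz 1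
    change ((X j).map δ * X' j).trace = 2 * (δ (z 0) * (z 0)⁻¹) - δ (z 1) * (z 1)⁻¹
    have h6 : (X j).det * z 1 * ((X j).map δ * X' j).trace =
        (X j).det * z 1 * (2 * (δ (z 0) * (z 0)⁻¹) - δ (z 1) * (z 1)⁻¹) := by
      have e1 : (X j).det * z 1 * (2 * (δ (z 0) * (z 0)⁻¹)) = 2 * α j * z 0 * δ (z 0) := by
        rw [h5]
        field_simp
      have e2 : (X j).det * z 1 * (δ (z 1) * (z 1)⁻¹) = (X j).det * δ (z 1) := by
        field_simp
      rw [mul_sub, e1, e2]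
      linear_combination h2
    exact mul_left_cancel₀ (mul_ne_zero hdet0 h01) h6

end data

end Pool.Agent.TH164.Un
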