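import Pool.Agent.TH164.Un.Un10
import Pool.Agent.TH164.Un.Un12

/-!
# Graphs
-/

set_option autoImplicit false
set_option linter.unusedSectionVars false
set_option linter.unusedVariables false

open Module Function

attribute [local instance 100] LieRing.ofAssociativeRing

namespace Pool.Agent.TH164.Un

open Pool.Agent.TH164.Spin

variable {W₁ W₂ : Type} [AddCommGroup W₁] [Module ℂ W₁] [FiniteDimensional ℂ W₁]
  [AddCommGroup W₂] [Module ℂ W₂] [FiniteDimensional ℂ W₂]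

/-- The first projection of a space of pairs. -/
def fstL (P : Submodule ℂ (End ℂ W₁ × End ℂ W₂))
    (hbr : ∀ x ∈ P, ∀ y ∈ P, (x.1 * y.1 - y.1 * x.1, x.2 * y.2 - y.2 * x.2) ∈ P) :
    LieSubalgebra ℂ (End ℂ W₁) where
  carrier := {X | ∃ x ∈ P, x.1 = X}
  zero_mem' := ⟨0, P.zero_mem, rfl⟩
  add_mem' := by
    rintro _ _ ⟨x, hx, rfl⟩ ⟨y, hy, rfl⟩
    exact ⟨x + y, P.add_mem hx hy, rfl⟩
  smul_mem' := by
    rintro a _ ⟨x, hx, rfl⟩
    exact ⟨a • x, P.smul_mem a hx, rfl⟩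
  lie_mem' := by
    rintro _ _ ⟨x, hx, rfl⟩ ⟨y, hy, rfl⟩
    exact ⟨_, hbr x hx y hy, rfl⟩

/-- **Graphs give diagonal spaces.** -/
theorem graph_diag {n₁ n₂ : ℕ} (hf₁ : finrank ℂ W₁ = n₁) (hf₂ : finrank ℂ W₂ = n₂)
    (P : Submodule ℂ (End ℂ W₁ × End ℂ W₂))
    (hbr : ∀ x ∈ P, ∀ y ∈ P, (x.1 * y.1 - y.1 * x.1, x.2 * y.2 - y.2 * x.2) ∈ P)
    (h12 : ∀ x ∈ P, x.1 = 0 → x.2 = 0) (h21 : ∀ x ∈ P, x.2 = 0 → x.1 = 0)
    (ht1 : ∀ x ∈ P, LinearMap.trace ℂ W₁ x.1 = 0) (ht2 : ∀ x ∈ P, LinearMap.trace ℂ W₂ x.2 = 0)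
    (hn₁ : Even n₁) (hn₂ : Even n₂) (h01 : 0 < n₁) (h02 : 0 < n₂)
    (hd1 : ∀ p, 1 ≤ p → p < n₁ → ∀ U : Submodule ℂ (W₁ [⋀^Fin p]→ₗ[ℂ] ℂ),
      (∀ x ∈ P, ∀ ω ∈ U, D x.1 ω ∈ U) → U ≠ ⊥ → ∀ ξ : Fin p → Dual ℂ W₁, dec ξ ∈ U)
    (hd2 : ∀ p, 1 ≤ p → p < n₂ → ∀ U : Submodule ℂ (W₂ [⋀^Fin p]→ₗ[ℂ] ℂ),
      (∀ x ∈ P, ∀ ω ∈ U, D x.2 ω ∈ U) → U ≠ ⊥ → ∀ ξ : Fin p → Dual ℂ W₂, dec ξ ∈ U) :
    ∃ h, 1 ≤ h ∧ h < n₁ ∧ h < n₂ ∧ n₁ = n₂ ∧
      ∃ U : Submodule ℂ ((W₁ [⋀^Fin h]→ₗ[ℂ] ℂ) × (W₂ [⋀^Fin h]→ₗ[ℂ] ℂ)),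
      (∀ x ∈ P, ∀ u ∈ U, (D x.1 u.1, D x.2 u.2) ∈ U) ∧ ∃ u ∈ U, (u.1, 0) ∉ U := by
  have hch : ∀ y : fstL P hbr, ∃ x ∈ P, x.1 = (y : End ℂ W₁) := fun y => y.2
  choose g hg1 hg2 using hch
  have huni : ∀ x ∈ P, ∀ y : fstL P hbr, x.1 = (y : End ℂ W₁) → x.2 = (g y).2 := by
    intro x hx y hxy
    rw [← sub_eq_zero]
    exact h12 (x - g y) (P.sub_mem hx (hg1 y)) (by
      rw [Prod.fst_sub, hg2, hxy, sub_self])
  letI i1 : LieRingModule (fstL P hbr) W₂ :=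
    { bracket := fun y v => (g y).2 v
      add_lie := fun x y v => by
        have h1 := huni (g x + g y) (P.add_mem (hg1 x) (hg1 y)) (x + y) (by
          rw [Prod.fst_add, hg2, hg2]
          rfl)
        change (g (x + y)).2 v = (g x).2 v + (g y).2 v
        rw [← h1]
        rfl
      lie_add := fun x v u => map_add _ _ _
      leibniz_lie := fun x y v => by
        have h1 := huni _ (hbr _ (hg1 x) _ (hg1 y)) ⁅x, y⁆ (by
          change (g x).1 * (g y).1 - (g y).1 * (g x).1 = _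
          rw [hg2, hg2]
          rfl)
        change (g x).2 ((g y).2 v) = (g ⁅x, y⁆).2 v + (g y).2 ((g x).2 v)
        rw [← h1]
        change (g x).2 ((g y).2 v) = ((g x).2 * (g y).2 - (g y).2 * (g x).2) v +
          (g y).2 ((g x).2 v)
        rw [LinearMap.sub_apply, Module.End.mul_apply, Module.End.mul_apply, sub_add_cancel] }
  letI i2 : LieModule ℂ (fstL P hbr) W₂ :=
    { smul_lie := fun c x v => by
        have h1 := huni (c • g x) (P.smul_mem c (hg1 x)) (c • x) (by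
          rw [Prod.smul_fst, hg2]
          rfl)
        change (g (c • x)).2 v = c • (g x).2 v
        rw [← h1]
        rfl
      lie_smul := fun c x v => map_smul _ _ _ }
  have hto2 : ∀ y : fstL P hbr, LieModule.toEnd ℂ (fstL P hbr) W₂ y = (g y).2 := fun y => rfl
  have hto1 : ∀ y : fstL P hbr, LieModule.toEnd ℂ (fstL P hbr) W₁ y = (y : End ℂ W₁) :=
    fun y => rfl
  obtain ⟨h, h1, h2, h3, h4, U, hU, u, hu, hu'⟩ := exists_diag (k := ℂ) (L := fstL P hbr)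
    (W := W₁) (W₂ := W₂) hn₁ hn₂ h01 h02 hf₁ hf₂ (by
      intro p hp hpm U hU h0 ξ
      refine hd1 p hp hpm U (fun x hx ω hω => ?_) h0 ξ
      have h1 := hU ⟨x.1, x, hx, rfl⟩ ω hω
      rw [lie_def, hto1] at h1
      exact (Submodule.neg_mem_iff _).1 h1) (by
      intro p hp hpm U hU h0 ξ
      refine hd2 p hp hpm U (fun x hx ω hω => ?_) h0 ξ
      have h1 := hU ⟨x.1, x, hx, rfl⟩ ω hω
      rw [lie_def, hto2, ← huni x hx ⟨x.1, x, hx, rfl⟩ rfl] at h1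
      exact (Submodule.neg_mem_iff _).1 h1) (by
      intro x hx
      exact Subtype.ext (LinearMap.ext fun v => hx v)) (by
      intro x hx
      have h1 : (g x).2 = 0 := LinearMap.ext fun v => hx v
      have h2 := h21 _ (hg1 x) h1
      rw [hg2] at h2
      exact Subtype.ext h2) (by
      intro x
      obtain ⟨y, hy, h1⟩ := x.2
      rw [hto1, ← h1]
      exact ht1 y hy) (by
      intro x
      rw [hto2]
      exact ht2 _ (hg1 x))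
  refine ⟨h, h1, h2, h3, h4, U, fun x hx v hv => ?_, u, hu, hu'⟩
  have h8 := hU ⟨x.1, x, hx, rfl⟩ v hv
  rw [lie_def, lie_def, hto1, hto2, ← huni x hx ⟨x.1, x, hx, rfl⟩ rfl] at h8
  have h9 := U.neg_mem h8
  rw [Prod.neg_mk, neg_neg, neg_neg] at h9
  exact h9

end Pool.Agent.TH164.Un
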