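import Pool.Agent.TH164.Un.Un13

/-!
# Products: the projections are everything
-/

set_option autoImplicit false
set_option linter.unusedSectionVars false
set_option linter.unusedVariables false

open Module Matrix Function

attribute [local instance 100] LieRing.ofAssociativeRing

namespace Pool.Agent.TH164.Un

open Pool.Agent.TH164.Spin Pool.Agent.TH119.MX Pool.Agent.TH119.DR Pool.Agent.TH164.A1

variable {J : Type} [Fintype J] [DecidableEq J] {m : J → ℕ}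
variable {H : Set (Matrix ((Σ j, Fin (m j)) ⊕ Fin 2) ((Σ j, Fin (m j)) ⊕ Fin 2) ℂ)}

/-- The projection to one factor, as a Lie algebra. -/
def pj (H : Set (Matrix ((Σ j, Fin (m j)) ⊕ Fin 2) ((Σ j, Fin (m j)) ⊕ Fin 2) ℂ)) (d : ℕ)
    (j : J) : LieSubalgebra ℂ (End ℂ (Fin (m j) → ℂ)) where
  carrier := {X | ∃ x ∈ lj H d, x j = X}
  zero_mem' := ⟨0, Submodule.zero_mem _, rfl⟩
  add_mem' := by
    rintro _ _ ⟨x, hx, rfl⟩ ⟨y, hy, rfl⟩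
    exact ⟨x + y, Submodule.add_mem _ hx hy, rfl⟩
  smul_mem' := by
    rintro a _ ⟨x, hx, rfl⟩
    exact ⟨a • x, Submodule.smul_mem _ a hx, rfl⟩
  lie_mem' := by
    rintro _ _ ⟨x, hx, rfl⟩ ⟨y, hy, rfl⟩
    exact ⟨x * y - y * x, lj_comm hx hy, rfl⟩

/-- The projection to one factor. -/
def Rj (H : Set (Matrix ((Σ j, Fin (m j)) ⊕ Fin 2) ((Σ j, Fin (m j)) ⊕ Fin 2) ℂ)) (d : ℕ)
    (j : J) : Submodule ℂ (Matrix (Fin (m j)) (Fin (m j)) ℂ) :=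
  (Rel H d).map ((LinearMap.proj (R := ℂ) (φ := fun j => Matrix (Fin (m j)) (Fin (m j)) ℂ) j).comp
    (LinearMap.fst ℂ (MJ m) (Fin 2 → ℂ)))

theorem mem_Rj {d : ℕ} {j : J} {y : Matrix (Fin (m j)) (Fin (m j)) ℂ} : y ∈ Rj H d j ↔
    ∃ p ∈ Rel H d, p.1 j = y := Iff.rfl

/-- The projection to two factors. -/
def Rij (H : Set (Matrix ((Σ j, Fin (m j)) ⊕ Fin 2) ((Σ j, Fin (m j)) ⊕ Fin 2) ℂ)) (d : ℕ)
    (i j : J) : Submodule ℂ (Matrix (Fin (m i)) (Fin (m i)) ℂ × Matrix (Fin (m j)) (Fin (m j)) ℂ) :=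
  (Rel H d).map (((LinearMap.proj (R := ℂ) (φ := fun j => Matrix (Fin (m j)) (Fin (m j)) ℂ)
    i).prod (LinearMap.proj j)).comp (LinearMap.fst ℂ (MJ m) (Fin 2 → ℂ)))

theorem mem_Rij {d : ℕ} {i j : J}
    {y : Matrix (Fin (m i)) (Fin (m i)) ℂ × Matrix (Fin (m j)) (Fin (m j)) ℂ} :
    y ∈ Rij H d i j ↔ ∃ p ∈ Rel H d, (p.1 i, p.1 j) = y := Iff.rfl

/-- The data. -/
structure Dat (H : Set (Matrix ((Σ j, Fin (m j)) ⊕ Fin 2) ((Σ j, Fin (m j)) ⊕ Fin 2) ℂ))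
    (X X' : MJ m) (z : Fin 2 → ℂ) : Prop where
  hm : ∀ j, Even (m j)
  hm0 : ∀ j, 0 < m j
  hH : AlgGrp QA H
  hX : ∀ j, X j * X' j = 1
  der : ∀ (d : ℕ) (δ : Derivation ℚ ℂ ℂ),
    ((fun j => (X j).map δ * X' j : MJ m), fun i => δ (z i) * (z i)⁻¹) ∈ Rel H d
  one : ∀ j p, 1 ≤ p → p < m j → OnlyTrivial p (X j)
  two : ∀ i j, i ≠ j → ∀ p, 1 ≤ p → p < m i → p < m j → OnlyTrivial2 p (X i) (X j)

section data

variable {X X' : MJ m} {z : Fin 2 → ℂ}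

/-- Stable spaces of forms contain the decomposable forms. -/
theorem Dat.dec (T : Dat H X X' z) (d : ℕ) {j : J} {p : ℕ} (hp : 1 ≤ p) (hpm : p < m j)
    (U : Submodule ℂ ((Fin (m j) → ℂ) [⋀^Fin p]→ₗ[ℂ] ℂ))
    (hU : ∀ x ∈ lj H d, ∀ ω ∈ U, D (x j) ω ∈ U) (h0 : U ≠ ⊥)
    (ξ : Fin p → Dual ℂ (Fin (m j) → ℂ)) : Pool.Agent.TH164.Un.dec ξ ∈ U := by
  refine dec_mem (Rj H d j) (T.hX j) (mul_eq_one_comm.1 (T.hX j)) ?_ ?_ (T.one j p hp hpm) U ?_ h0 ξ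
  · intro δ y hy
    obtain ⟨x, hx, rfl⟩ := mem_Rj.1 hy
    exact mem_Rj.2 ⟨_, Rel_der T.hH d δ hx, rfl⟩
  · intro δ
    exact mem_Rj.2 ⟨_, T.der d δ, rfl⟩
  · intro y hy ω hω
    obtain ⟨x, hx, rfl⟩ := mem_Rj.1 hy
    have h2 := hU _ (lj_of T.hm0 hx) ω hω
    rw [D_sub, D_smul, D_id] at h2
    have h3 := U.add_mem h2 (U.smul_mem ((2 * x.2 0 - x.2 1) / m j) (U.smul_mem (p : ℂ) hω))
    rwa [sub_add_cancel] at h3

theorem Dat.surj (T : Dat H X X' z) (d : ℕ) (j : J)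
    (f : End ℂ (Fin (m j) → ℂ)) (hf : LinearMap.trace ℂ (Fin (m j) → ℂ) f = 0) :
    ∃ x ∈ lj H d, x j = f := by
  refine sl_full (T.hm j) (by rw [Module.finrank_fin_fun]) (pj H d j) ?_ ?_ f hf
  · rintro _ ⟨x, hx, rfl⟩
    exact hx.1 j
  · intro p hp hpm U hU h0 ξ
    exact T.dec d hp hpm U (fun x hx ω hω => hU _ ⟨x, hx, rfl⟩ ω hω) h0 ξ

end data

end Pool.Agent.TH164.Un
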