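import Pool.Agent.TH164.Un.Un14
import Pool.Agent.TH164.Un.Un15

/-!
# Products: there are no graphs
-/

set_option autoImplicit false
set_option linter.unusedSectionVars false
set_option linter.unusedVariables false

open Module Matrix Function

namespace Pool.Agent.TH164.Un

open Pool.Agent.TH164.Spin Pool.Agent.TH119.MX Pool.Agent.TH119.DR Pool.Agent.TH164.A1

theorem comp_zero_form {p : ℕ} (hp : 1 ≤ p) {n : ℕ} (u : (Fin n → ℂ) [⋀^Fin p]→ₗ[ℂ] ℂ) :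
    u.compLinearMap (Matrix.toLin' (0 : Matrix (Fin n) (Fin n) ℂ)) = 0 := by
  ext v
  rw [AlternatingMap.compLinearMap_apply, AlternatingMap.zero_apply]
  refine u.map_coord_zero ⟨0, by omega⟩ ?_
  rw [map_zero, LinearMap.zero_apply]

/-- The projection of a space of pairs to the first factor is one-to-one, if it is onto the
operators with trace zero. -/
theorem back {n₁ n₂ : ℕ} (hn₂ : 2 ≤ n₂)
    (P : Submodule ℂ (End ℂ (Fin n₁ → ℂ) × End ℂ (Fin n₂ → ℂ)))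
    (hbr : ∀ x ∈ P, ∀ y ∈ P, (x.1 * y.1 - y.1 * x.1, x.2 * y.2 - y.2 * x.2) ∈ P)
    (h12 : ∀ x ∈ P, x.1 = 0 → x.2 = 0)
    (ht1 : ∀ x ∈ P, LinearMap.trace ℂ (Fin n₁ → ℂ) x.1 = 0)
    (hs1 : ∀ f, LinearMap.trace ℂ (Fin n₁ → ℂ) f = 0 → ∃ x ∈ P, x.1 = f)
    (hs2 : ∀ f, LinearMap.trace ℂ (Fin n₂ → ℂ) f = 0 → ∃ x ∈ P, x.2 = f)
    {x : End ℂ (Fin n₁ → ℂ) × End ℂ (Fin n₂ → ℂ)} (hx : x ∈ P) (hx2 : x.2 = 0) : x.1 = 0 := by
  by_contra hx1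
  have h1 : ∀ f : End ℂ (Fin n₁ → ℂ), LinearMap.trace ℂ (Fin n₁ → ℂ) f = 0 → (f, 0) ∈ P := by
    refine sl_simple (Pi.basisFun ℂ (Fin n₁))
      (P.comap (LinearMap.inl ℂ (End ℂ (Fin n₁ → ℂ)) (End ℂ (Fin n₂ → ℂ)))) ?_ ?_ (g := x.1) ?_ hx1
    · intro f hf
      exact ht1 _ hf
    · intro f hf y hy
      obtain ⟨v, hv, rfl⟩ := hs1 f hf
      have h1 := hbr v hv _ hy
      have h2 : (v.1 * (LinearMap.inl ℂ (End ℂ (Fin n₁ → ℂ)) (End ℂ (Fin n₂ → ℂ)) y).1 -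
          (LinearMap.inl ℂ (End ℂ (Fin n₁ → ℂ)) (End ℂ (Fin n₂ → ℂ)) y).1 * v.1,
          v.2 * (LinearMap.inl ℂ (End ℂ (Fin n₁ → ℂ)) (End ℂ (Fin n₂ → ℂ)) y).2 -
          (LinearMap.inl ℂ (End ℂ (Fin n₁ → ℂ)) (End ℂ (Fin n₂ → ℂ)) y).2 * v.2) =
          LinearMap.inl ℂ (End ℂ (Fin n₁ → ℂ)) (End ℂ (Fin n₂ → ℂ)) (v.1 * y - y * v.1) := by
        refine Prod.ext rfl ?_
        change v.2 * 0 - 0 * v.2 = 0
        rw [mul_zero, zero_mul, sub_zero]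
      rw [h2] at h1
      exact h1
    · have h2 : (LinearMap.inl ℂ (End ℂ (Fin n₁ → ℂ)) (End ℂ (Fin n₂ → ℂ)) x.1) = x :=
        Prod.ext rfl hx2.symm
      rw [Submodule.mem_comap, h2]
      exact hx
  obtain ⟨F, hF, G, hG, hFG⟩ := sl_noncomm (Pi.basisFun ℂ (Fin n₂)) hn₂
  obtain ⟨y, hy, rfl⟩ := hs2 F hF
  have h2 := h12 (y - (y.1, 0)) (P.sub_mem hy (h1 y.1 (ht1 y hy))) (by
    rw [Prod.fst_sub, sub_self])
  rw [Prod.snd_sub, sub_zero] at h2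
  apply hFG
  rw [h2, zero_mul, mul_zero, sub_zero]

variable {J : Type} [Fintype J] [DecidableEq J] {m : J → ℕ}
variable {H : Set (Matrix ((Σ j, Fin (m j)) ⊕ Fin 2) ((Σ j, Fin (m j)) ⊕ Fin 2) ℂ)}

/-- Pairs of operators. -/
def Pij (H : Set (Matrix ((Σ j, Fin (m j)) ⊕ Fin 2) ((Σ j, Fin (m j)) ⊕ Fin 2) ℂ)) (d : ℕ)
    (i j : J) : Submodule ℂ (End ℂ (Fin (m i) → ℂ) × End ℂ (Fin (m j) → ℂ)) :=
  (lj H d).map ((LinearMap.proj (R := ℂ) (φ := fun j => End ℂ (Fin (m j) → ℂ))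
    i).prod (LinearMap.proj j))

theorem mem_Pij {d : ℕ} {i j : J} {y : End ℂ (Fin (m i) → ℂ) × End ℂ (Fin (m j) → ℂ)} :
    y ∈ Pij H d i j ↔ ∃ x ∈ lj H d, (x i, x j) = y := Iff.rfl

section data

variable {X X' : MJ m} {z : Fin 2 → ℂ}

/-- The last step. -/
theorem Dat.last (T : Dat H X X' z) (d : ℕ) {i j : J} (hij : i ≠ j) {h : ℕ} (h1 : 1 ≤ h)
    (h2 : h < m i) (h3 : h < m j) (h4 : m i = m j)
    (U : Submodule ℂ (((Fin (m i) → ℂ) [⋀^Fin h]→ₗ[ℂ] ℂ) × ((Fin (m j) → ℂ) [⋀^Fin h]→ₗ[ℂ] ℂ)))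
    (hU : ∀ x ∈ Pij H d i j, ∀ u ∈ U, (D x.1 u.1, D x.2 u.2) ∈ U)
    {u : ((Fin (m i) → ℂ) [⋀^Fin h]→ₗ[ℂ] ℂ) × ((Fin (m j) → ℂ) [⋀^Fin h]→ₗ[ℂ] ℂ)} (hu : u ∈ U) :
    (u.1, 0) ∈ U := by
  have h5 := stable_two (Rij H d i j) (T.hX i) (mul_eq_one_comm.1 (T.hX i)) (T.hX j)
    (mul_eq_one_comm.1 (T.hX j)) (by
    intro δ y hy
    obtain ⟨x, hx, rfl⟩ := mem_Rij.1 hy
    exact mem_Rij.2 ⟨_, Rel_der T.hH d δ hx, rfl⟩) (by
    intro δ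
    exact mem_Rij.2 ⟨_, T.der d δ, rfl⟩) (T.two i j hij h h1 h2 h3) U (by
    intro y hy v hv
    obtain ⟨x, hx, rfl⟩ := mem_Rij.1 hy
    have h8 := hU _ (mem_Pij.2 ⟨_, lj_of T.hm0 hx, rfl⟩) v hv
    have h10 := U.add_mem h8 (U.smul_mem ((2 * x.2 0 - x.2 1) / m i) (U.smul_mem (h : ℂ) hv))
    have h11 : (D (Matrix.toLin' (x.1 i) - ((2 * x.2 0 - x.2 1) / m i) •
        (LinearMap.id : (Fin (m i) → ℂ) →ₗ[ℂ] _)) v.1,
        D (Matrix.toLin' (x.1 j) - ((2 * x.2 0 - x.2 1) / m j) •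
        (LinearMap.id : (Fin (m j) → ℂ) →ₗ[ℂ] _)) v.2) +
        ((2 * x.2 0 - x.2 1) / m i) • (h : ℂ) • v =
        (D (Matrix.toLin' (x.1 i)) v.1, D (Matrix.toLin' (x.1 j)) v.2) := by
      have e1 : (m j : ℂ) = m i := by rw [h4]
      rw [e1]
      refine Prod.ext ?_ ?_
      · change D _ v.1 + ((2 * x.2 0 - x.2 1) / m i) • (h : ℂ) • v.1 = _
        rw [D_sub, D_smul, D_id, sub_add_cancel]
      · change D _ v.2 + ((2 * x.2 0 - x.2 1) / m i) • (h : ℂ) • v.2 = _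
        rw [D_sub, D_smul, D_id, sub_add_cancel]
    rw [← h11]
    exact h10) hu 1 0
  rw [comp_zero_form h1, Matrix.toLin'_one, AlternatingMap.compLinearMap_id] at h5
  exact h5

/-- **No graphs.** -/
theorem Dat.noGraph (T : Dat H X X' z) (d : ℕ) {i j : J} (hij : i ≠ j) :
    ∃ x ∈ lj H d, x i = 0 ∧ x j ≠ 0 := by
  by_contra hcon
  push Not at hcon
  have hmj : 2 ≤ m j := by
    obtain ⟨r, hr⟩ := T.hm j
    have := T.hm0 j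
    omega
  have hbr : ∀ x ∈ Pij H d i j, ∀ y ∈ Pij H d i j,
      (x.1 * y.1 - y.1 * x.1, x.2 * y.2 - y.2 * x.2) ∈ Pij H d i j := by
    intro x' hx' y' hy'
    obtain ⟨x, hx, rfl⟩ := mem_Pij.1 hx'
    obtain ⟨y, hy, rfl⟩ := mem_Pij.1 hy'
    exact mem_Pij.2 ⟨_, lj_comm hx hy, rfl⟩
  have h12 : ∀ x ∈ Pij H d i j, x.1 = 0 → x.2 = 0 := by
    intro x' hx' h
    obtain ⟨x, hx, rfl⟩ := mem_Pij.1 hx'
    exact hcon x hx h
  have ht1 : ∀ x ∈ Pij H d i j, LinearMap.trace ℂ (Fin (m i) → ℂ) x.1 = 0 := by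
    intro x' hx'
    obtain ⟨x, hx, rfl⟩ := mem_Pij.1 hx'
    exact hx.1 i
  have ht2 : ∀ x ∈ Pij H d i j, LinearMap.trace ℂ (Fin (m j) → ℂ) x.2 = 0 := by
    intro x' hx'
    obtain ⟨x, hx, rfl⟩ := mem_Pij.1 hx'
    exact hx.1 j
  have hs1 : ∀ f, LinearMap.trace ℂ (Fin (m i) → ℂ) f = 0 → ∃ x ∈ Pij H d i j, x.1 = f := by
    intro f hf
    obtain ⟨x, hx, rfl⟩ := T.surj d i f hf
    exact ⟨_, mem_Pij.2 ⟨x, hx, rfl⟩, rfl⟩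
  have hs2 : ∀ f, LinearMap.trace ℂ (Fin (m j) → ℂ) f = 0 → ∃ x ∈ Pij H d i j, x.2 = f := by
    intro f hf
    obtain ⟨x, hx, rfl⟩ := T.surj d j f hf
    exact ⟨_, mem_Pij.2 ⟨x, hx, rfl⟩, rfl⟩
  have h21 : ∀ x ∈ Pij H d i j, x.2 = 0 → x.1 = 0 := fun x hx h =>
    back hmj (Pij H d i j) hbr h12 ht1 hs1 hs2 hx h
  obtain ⟨h, h1, h2, h3, h4, U, hU, u, hu, hu'⟩ := graph_diag (W₁ := Fin (m i) → ℂ)
    (W₂ := Fin (m j) → ℂ) (by rw [Module.finrank_fin_fun]) (by rw [Module.finrank_fin_fun])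
    (Pij H d i j) hbr h12 h21 ht1 ht2 (T.hm i) (T.hm j) (T.hm0 i) (T.hm0 j) (by
      intro p hp hpm U hU h0 ξ
      exact T.dec d hp hpm U (fun x hx ω hω => hU _ (mem_Pij.2 ⟨x, hx, rfl⟩) ω hω) h0 ξ) (by
      intro p hp hpm U hU h0 ξ
      exact T.dec d hp hpm U (fun x hx ω hω => hU _ (mem_Pij.2 ⟨x, hx, rfl⟩) ω hω) h0 ξ)
  exact hu' (T.last d hij h1 h2 h3 h4 U hU hu)

/-- **All families of operators with trace zero.** -/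
theorem Dat.top (T : Dat H X X' z) (d : ℕ) (f : ∀ j, End ℂ (Fin (m j) → ℂ))
    (hf : ∀ j, LinearMap.trace ℂ (Fin (m j) → ℂ) (f j) = 0) : f ∈ lj H d := by
  refine goursat (k := ℂ) (A := fun j => End ℂ (Fin (m j) → ℂ))
    (fun j => LinearMap.ker (LinearMap.trace ℂ (Fin (m j) → ℂ))) ?_ ?_ ?_ ?_ ?_ ?_ f hf
  · intro j U hU hi Y hY hY0 f hf
    exact sl_simple (Pi.basisFun ℂ (Fin (m j))) U (fun f hf => hU hf)
      (fun f hf g hg => hi f hf g hg) hY hY0 f hf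
  · intro j
    have hmj : 2 ≤ m j := by
      obtain ⟨r, hr⟩ := T.hm j
      have := T.hm0 j
      omega
    obtain ⟨F, hF, G, hG, hFG⟩ := sl_noncomm (Pi.basisFun ℂ (Fin (m j))) hmj
    exact ⟨F, hF, G, hG, hFG⟩
  · intro x hx j
    exact hx.1 j
  · intro x hx y hy
    exact lj_comm hx hy
  · intro j f hf
    exact T.surj d j f hf
  · intro i j hij
    exact T.noGraph d hij

end data

end Pool.Agent.TH164.Un
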