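import Pool.Agent.TH164.Un.Un16

/-!
# Products: all elements of the group
-/

set_option autoImplicit false
set_option linter.unusedSectionVars false
set_option linter.unusedVariables false

open Module Matrix Function

namespace Pool.Agent.TH164.Un

open Pool.Agent.TH164.Spin Pool.Agent.TH119.MX Pool.Agent.TH119.DR Pool.Agent.TH164.A1

variable {J : Type} [Fintype J] [DecidableEq J] {m : J → ℕ}
variable {H : Set (Matrix ((Σ j, Fin (m j)) ⊕ Fin 2) ((Σ j, Fin (m j)) ⊕ Fin 2) ℂ)}

section data

variable {X X' : MJ m} {z : Fin 2 → ℂ}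

theorem sing_mul (j : J) (A B : Matrix (Fin (m j)) (Fin (m j)) ℂ) :
    (Pi.single j A : MJ m) * Pi.single j B = Pi.single j (A * B) := by
  funext i
  rw [Pi.mul_apply]
  by_cases hij : i = j
  · subst hij
    rw [Pi.single_eq_same, Pi.single_eq_same, Pi.single_eq_same]
  · rw [Pi.single_eq_of_ne hij, Pi.single_eq_of_ne hij, Pi.single_eq_of_ne hij, Matrix.mul_zero]

/-- One block in the stabilizer. -/
def Rs (H : Set (Matrix ((Σ j, Fin (m j)) ⊕ Fin 2) ((Σ j, Fin (m j)) ⊕ Fin 2) ℂ)) (d : ℕ)
    (j : J) : Submodule ℂ ((Fin (m j) → ℂ) →ₗ[ℂ] (Fin (m j) → ℂ)) where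
  carrier := {f | Stab H d (bk (Pi.single j (LinearMap.toMatrix' f) : MJ m) 0)}
  zero_mem' := by
    change Stab H d (bk (Pi.single j (LinearMap.toMatrix' 0) : MJ m) 0)
    rw [map_zero, Pi.single_zero, bk_zero]
    exact Stab.zero
  add_mem' := by
    intro f g hf hg
    change Stab H d (bk (Pi.single j (LinearMap.toMatrix' (f + g)) : MJ m) 0)
    have h1 := hf.add hg
    rwa [bk_add, add_zero, ← Pi.single_add, ← map_add] at h1
  smul_mem' := by
    intro a f hf
    change Stab H d (bk (Pi.single j (LinearMap.toMatrix' (a • f)) : MJ m) 0)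
    have h1 := hf.smul a
    rwa [bk_smul, smul_zero, ← Pi.single_smul, ← map_smul] at h1

theorem mem_Rs {d : ℕ} {j : J} {f : (Fin (m j) → ℂ) →ₗ[ℂ] (Fin (m j) → ℂ)} : f ∈ Rs H d j ↔
    Stab H d (bk (Pi.single j (LinearMap.toMatrix' f) : MJ m) 0) := Iff.rfl

theorem Rs_comm {d : ℕ} {j : J} {f g : (Fin (m j) → ℂ) →ₗ[ℂ] (Fin (m j) → ℂ)}
    (hf : f ∈ Rs H d j) (hg : g ∈ Rs H d j) : f ∘ₗ g - g ∘ₗ f ∈ Rs H d j := by
  have h1 := Stab.comm (mem_Rs.1 hf) (mem_Rs.1 hg)
  rw [bk_mul, bk_mul, bk_sub, mul_zero, sub_zero, sing_mul, sing_mul, ← Pi.single_sub,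
    ← LinearMap.toMatrix'_comp, ← LinearMap.toMatrix'_comp, ← map_sub] at h1
  exact mem_Rs.2 h1

theorem Dat.el (T : Dat H X X' z) (d : ℕ) (j : J) {a b : Fin (m j)} (hab : a ≠ b) :
    El (Pi.basisFun ℂ (Fin (m j))) a b ∈ Rs H d j := by
  set w := Pi.basisFun ℂ (Fin (m j)) with hw
  set F : ∀ j, End ℂ (Fin (m j) → ℂ) := Pi.single j (El w a a - El w b b) with hF
  set G : ∀ j, End ℂ (Fin (m j) → ℂ) := Pi.single j (El w a b) with hG
  have hf := T.top d F (by
    intro i
    by_cases hij : i = j
    · subst hij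
      rw [hF, Pi.single_eq_same]
      exact trace_El' a b
    · rw [hF, Pi.single_eq_of_ne hij, map_zero])
  have hg := T.top d G (by
    intro i
    by_cases hij : i = j
    · subst hij
      rw [hG, Pi.single_eq_same]
      exact trace_El hab
    · rw [hG, Pi.single_eq_of_ne hij, map_zero])
  have h1 := (lj_comm' hf hg).1
  have h2 : (fun i => LinearMap.toMatrix' ((F * G - G * F) i) : MJ m) =
      (2 : ℂ) • Pi.single j (LinearMap.toMatrix' (El w a b)) := by
    funext i
    rw [Pi.smul_apply]
    by_cases hij : i = j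
    · subst hij
      rw [Pi.sub_apply, Pi.mul_apply, Pi.mul_apply, hF, hG, Pi.single_eq_same, Pi.single_eq_same,
        Pi.single_eq_same, ← map_smul]
      congr 1
      change (El w a a - El w b b) ∘ₗ El w a b - El w a b ∘ₗ (El w a a - El w b b) = _
      rw [LinearMap.sub_comp, LinearMap.comp_sub, El_comp, El_comp, El_comp, El_comp,
        if_pos rfl, if_neg hab.symm, if_neg hab.symm, if_pos rfl, two_smul]
      abel
    · rw [Pi.sub_apply, Pi.mul_apply, Pi.mul_apply, hF, hG, Pi.single_eq_of_ne hij,
        Pi.single_eq_of_ne hij, Pi.single_eq_of_ne hij, mul_zero, sub_zero, map_zero, smul_zero]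
  have h3 : Stab H d (bk ((2 : ℂ) • Pi.single j (LinearMap.toMatrix' (El w a b)) : MJ m) 0) := by
    rw [← h2]
    exact h1
  have h6 := h3.smul (2 : ℂ)⁻¹
  rw [bk_smul, smul_smul, inv_mul_cancel₀ two_ne_zero, one_smul, smul_zero] at h6
  exact mem_Rs.2 h6

/-- One block. -/
theorem Dat.single (T : Dat H X X' z) (d : ℕ) (j : J) (y : Matrix (Fin (m j)) (Fin (m j)) ℂ)
    (hy : y.trace = 0) : Stab H d (bk (Pi.single j y : MJ m) 0) := by
  have h1 := gen_sl (Pi.basisFun ℂ (Fin (m j))) (Rs H d j) (fun f hf g hg => Rs_comm hf hg)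
    (fun q h => T.el d j (by
      intro h1
      have := congrArg Fin.val h1
      simp only at this
      omega)) (fun q h => T.el d j (by
      intro h1
      have := congrArg Fin.val h1
      simp only at this
      omega)) (f := Matrix.toLin' y) (by
    rw [LinearMap.trace_eq_matrix_trace ℂ (Pi.basisFun ℂ (Fin (m j)))]
    rw [← hy]
    congr 1
    exact LinearMap.toMatrix'_toLin' y)
  have h2 := mem_Rs.1 h1
  rwa [LinearMap.toMatrix'_toLin'] at h2

/-- **The stabilizer.** -/
theorem Dat.all (T : Dat H X X' z) (hz : ∀ i, z i ≠ 0) (hind : AlgebraicIndependent ℚ z) (d : ℕ)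
    (x : MJ m) (c : Fin 2 → ℂ) (hx : ∀ j, (x j).trace = 2 * c 0 - c 1) : Stab H d (bk x c) := by
  obtain ⟨δ, hδ⟩ := Pool.Agent.W437.HD.exists_derivation hind fun i => z i * c i
  have h1 := T.der d δ
  have hc : (fun i => δ (z i) * (z i)⁻¹) = c := by
    funext i
    have h2 : δ (z i) = z i * c i := hδ i
    rw [h2, mul_comm (z i) (c i), mul_assoc, mul_inv_cancel₀ (hz i), mul_one]
  rw [hc] at h1
  set y : MJ m := fun j => (X j).map δ * X' j with hy
  set V : Submodule ℂ (MJ m) :=
    { carrier := {x | Stab H d (bk x 0)}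
      zero_mem' := by
        change Stab H d (bk 0 0)
        rw [bk_zero]
        exact Stab.zero
      add_mem' := by
        intro f g hf hg
        change Stab H d (bk (f + g) 0)
        have h1 := hf.add hg
        rwa [bk_add, add_zero] at h1
      smul_mem' := by
        intro a f hf
        change Stab H d (bk (a • f) 0)
        have h1 := hf.smul a
        rwa [bk_smul, smul_zero] at h1 } with hVdef
  have h2 : x - y ∈ V := by
    have h3 : x - y = ∑ j, Pi.single j ((x - y) j) := (Finset.univ_sum_single _).symm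
    rw [h3]
    refine Submodule.sum_mem _ fun j _ => T.single d j _ ?_
    rw [Pi.sub_apply, Matrix.trace_sub, hx j, h1.2 j, sub_self]
  have h3 : Stab H d (bk y c) := h1.1
  have h4 := h3.add (show Stab H d (bk (x - y) 0) from h2)
  rwa [bk_add, add_zero, add_sub_cancel] at h4

end data

/-! ### Elements of the group -/

/-- A diagonal matrix with one entry different from one. -/
def dg {n : ℕ} (a : Fin n) (u : ℂ) : Matrix (Fin n) (Fin n) ℂ :=
  Matrix.diagonal fun x => if x = a then u else 1

theorem dg_eq {n : ℕ} (a : Fin n) (u : ℂ) :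
    1 + (u - 1) • Matrix.single a a (1 : ℂ) = dg a u := by
  ext i j
  unfold dg
  rw [Matrix.add_apply, Matrix.smul_apply, Matrix.one_apply, Matrix.diagonal_apply,
    Matrix.single_apply]
  by_cases hij : i = j
  · subst hij
    by_cases hia : i = a
    · subst hia
      simp
    · have hia' : ¬ a = i := fun h => hia h.symm
      simp [hia, hia']
  · have hij' : ¬ (a = i ∧ a = j) := by
      rintro ⟨h7, h8⟩
      exact hij (h7.symm.trans h8)
    rw [if_neg hij, if_neg hij, if_neg hij', smul_zero, add_zero]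

theorem dg_det {n : ℕ} (a : Fin n) (u : ℂ) : (dg a u).det = u := by
  unfold dg
  rw [Matrix.det_diagonal, Finset.prod_ite_eq' Finset.univ a, if_pos (Finset.mem_univ _)]

theorem upd_mul (j : J) (A B : Matrix (Fin (m j)) (Fin (m j)) ℂ) :
    (Function.update (1 : MJ m) j A) * Function.update (1 : MJ m) j B =
      Function.update (1 : MJ m) j (A * B) := by
  funext i
  rw [Pi.mul_apply]
  by_cases hij : i = j
  · subst hij
    rw [update_self, update_self, update_self]
  · rw [update_of_ne hij, update_of_ne hij, update_of_ne hij, Pi.one_apply, mul_one]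

section pres

variable (hS : ∀ d (x : MJ m) (c : Fin 2 → ℂ), (∀ j, (x j).trace = 2 * c 0 - c 1) →
  Stab H d (bk x c))

include hS

theorem pres_id : Pres H (bk (1 : MJ m) 1) := by
  have h4 := pres_of_stab (X := (0 : Matrix ((Σ j, Fin (m j)) ⊕ Fin 2)
    ((Σ j, Fin (m j)) ⊕ Fin 2) ℂ)) (ε := 1)
    (H := H) (by rw [Matrix.mul_zero, smul_zero]) (fun d => Stab.zero) 0
  rw [smul_zero, add_zero] at h4
  rw [bk_one]
  exact h4

theorem pres_tor (a : ∀ j, Fin (m j)) (u : ℂ) :
    Pres H (bk (fun j => dg (a j) u : MJ m) fun _ => u) := by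
  have h1 := pres_of_stab (X := bk (fun j => Matrix.single (a j) (a j) (1 : ℂ) : MJ m) 1) (ε := 1)
    (H := H) (by
      rw [bk_mul, one_smul, mul_one]
      congr 1
      funext j
      exact (Matrix.single_mul_single_same _ _ _ _ _).trans (by rw [mul_one]))
    (fun d => hS d _ _ fun j => by
      rw [Matrix.trace_single_eq_same, Pi.one_apply, Pi.one_apply]
      norm_num) (u - 1)
  rw [bk_smul, ← bk_one, bk_add] at h1
  have h2 : (1 : MJ m) + (u - 1) • (fun j => Matrix.single (a j) (a j) (1 : ℂ) : MJ m) =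
      fun j => dg (a j) u := by
    funext j
    exact dg_eq (a j) u
  have h3 : (1 : Fin 2 → ℂ) + (u - 1) • (1 : Fin 2 → ℂ) = fun _ => u := by
    funext i
    change 1 + (u - 1) * 1 = u
    ring
  rw [h2, h3] at h1
  exact h1

theorem pres_two (a b : ∀ j, Fin (m j)) (hab : ∀ j, a j ≠ b j) (u : ℂ) :
    Pres H (bk (fun j => dg (a j) u * dg (b j) u : MJ m) ![u, 1]) := by
  have e1 : ∀ j, Matrix.single (a j) (a j) (1 : ℂ) * Matrix.single (a j) (a j) (1 : ℂ) =
      Matrix.single (a j) (a j) (1 : ℂ) := fun j => by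
    rw [Matrix.single_mul_single_same, mul_one]
  have e2 : ∀ j, Matrix.single (b j) (b j) (1 : ℂ) * Matrix.single (b j) (b j) (1 : ℂ) =
      Matrix.single (b j) (b j) (1 : ℂ) := fun j => by
    rw [Matrix.single_mul_single_same, mul_one]
  have e3 : ∀ j, Matrix.single (a j) (a j) (1 : ℂ) * Matrix.single (b j) (b j) (1 : ℂ) = 0 :=
    fun j => Matrix.single_mul_single_of_ne _ _ _ _ (hab j)  _
  have e4 : ∀ j, Matrix.single (b j) (b j) (1 : ℂ) * Matrix.single (a j) (a j) (1 : ℂ) = 0 :=
    fun j => Matrix.single_mul_single_of_ne _ _ _ _ (hab j).symm _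
  have h1 := pres_of_stab (X := bk (fun j => Matrix.single (a j) (a j) (1 : ℂ) +
    Matrix.single (b j) (b j) (1 : ℂ) : MJ m) ![1, 0]) (ε := 1)
    (H := H) (by
      rw [bk_mul, one_smul]
      congr 1
      · funext j
        change (Matrix.single (a j) (a j) (1 : ℂ) + Matrix.single (b j) (b j) (1 : ℂ)) *
          (Matrix.single (a j) (a j) (1 : ℂ) + Matrix.single (b j) (b j) (1 : ℂ)) =
          Matrix.single (a j) (a j) (1 : ℂ) + Matrix.single (b j) (b j) (1 : ℂ)
        rw [Matrix.add_mul, Matrix.mul_add, Matrix.mul_add, e1, e2, e3, e4, add_zero, zero_add]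
      · funext i
        fin_cases i <;> simp)
    (fun d => hS d _ _ fun j => by
      rw [Matrix.trace_add, Matrix.trace_single_eq_same, Matrix.trace_single_eq_same]
      simp
      norm_num) (u - 1)
  rw [bk_smul, ← bk_one, bk_add] at h1
  have h2 : (1 : MJ m) + (u - 1) • (fun j => Matrix.single (a j) (a j) (1 : ℂ) +
      Matrix.single (b j) (b j) (1 : ℂ) : MJ m) = fun j => dg (a j) u * dg (b j) u := by
    funext j
    change 1 + (u - 1) • (Matrix.single (a j) (a j) (1 : ℂ) + Matrix.single (b j) (b j) (1 : ℂ)) =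
      dg (a j) u * dg (b j) u
    rw [← dg_eq, ← dg_eq]
    simp only [Matrix.add_mul, Matrix.mul_add, Matrix.smul_mul, Matrix.mul_smul, e3, smul_zero,
      Matrix.one_mul, Matrix.mul_one, smul_add, add_zero]
    abel
  have h3 : (1 : Fin 2 → ℂ) + (u - 1) • ![(1 : ℂ), 0] = ![u, 1] := by
    funext i
    fin_cases i
    · simp
    · simp
  rw [h2, h3] at h1
  exact h1

theorem pres_tv (j : J) (t : TransvectionStruct (Fin (m j)) ℂ) :
    Pres H (bk (Function.update (1 : MJ m) j t.toMatrix) 1) := by
  have h4 := pres_of_stab (X := bk (Pi.single j (Matrix.single t.i t.j (1 : ℂ)) : MJ m) 0)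
    (ε := 0) (H := H) (by
      rw [bk_mul, sing_mul, Matrix.single_mul_single_of_ne _ _ _ _ t.hij.symm, mul_zero,
        Pi.single_zero, bk_zero, zero_smul])
    (fun d => hS d _ _ fun i => by
      by_cases hij : i = j
      · subst hij
        rw [Pi.single_eq_same, Matrix.trace_single_eq_of_ne _ _ _ t.hij, Pi.zero_apply,
          Pi.zero_apply]
        ring
      · rw [Pi.single_eq_of_ne hij, Matrix.trace_zero, Pi.zero_apply, Pi.zero_apply]
        ring) t.c
  rw [bk_smul, ← bk_one, bk_add, smul_zero, add_zero] at h4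
  have h2 : (1 : MJ m) + t.c • (Pi.single j (Matrix.single t.i t.j (1 : ℂ)) : MJ m) =
      Function.update (1 : MJ m) j t.toMatrix := by
    funext i
    by_cases hij : i = j
    · subst hij
      rw [update_self, Pi.add_apply, Pi.smul_apply, Pi.single_eq_same, Pi.one_apply]
      unfold TransvectionStruct.toMatrix Matrix.transvection
      rw [Matrix.smul_single, smul_eq_mul, mul_one]
    · rw [update_of_ne hij, Pi.add_apply, Pi.smul_apply, Pi.single_eq_of_ne hij, smul_zero,
        add_zero]
  rw [h2] at h4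
  exact h4

theorem pres_el (a0 : ∀ j, Fin (m j)) (j : J) {b : Fin (m j)} (hb : b ≠ a0 j) {u : ℂ}
    (hu : u ≠ 0) : Pres H (bk (Function.update (1 : MJ m) j
      (Matrix.diagonal fun x => if x = a0 j then u⁻¹ else if x = b then u else 1)) 1) := by
  have h1 := (pres_tor hS (Function.update a0 j b) u).mul (pres_tor hS a0 u⁻¹)
  rw [bk_mul] at h1
  have h2 : (fun i => dg (Function.update a0 j b i) u : MJ m) * (fun i => dg (a0 i) u⁻¹) =
      Function.update (1 : MJ m) j
        (Matrix.diagonal fun x => if x = a0 j then u⁻¹ else if x = b then u else 1) := by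
    funext i
    rw [Pi.mul_apply]
    by_cases hij : i = j
    · subst hij
      rw [update_self, update_self]
      unfold dg
      rw [Matrix.diagonal_mul_diagonal]
      congr 1
      funext x
      by_cases h3 : x = a0 i
      · have h4 : x ≠ b := fun h => hb (h.symm.trans h3)
        rw [if_pos h3, if_pos h3, if_neg h4, one_mul]
      · rw [if_neg h3, if_neg h3, mul_one]
    · rw [update_of_ne hij, update_of_ne hij, Pi.one_apply]
      unfold dg
      rw [Matrix.diagonal_mul_diagonal, ← Matrix.diagonal_one]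
      congr 1
      funext x
      by_cases h3 : x = a0 i
      · rw [if_pos h3, if_pos h3, mul_inv_cancel₀ hu]
      · rw [if_neg h3, if_neg h3, mul_one]
  have h3 : (fun _ => u : Fin 2 → ℂ) * (fun _ => u⁻¹) = 1 := by
    funext i
    exact mul_inv_cancel₀ hu
  rw [h2, h3] at h1
  exact h1

theorem pres_diag (a0 : ∀ j, Fin (m j)) (j : J) (E : Fin (m j) → ℂ) (hE : ∏ a, E a = 1) :
    Pres H (bk (Function.update (1 : MJ m) j (Matrix.diagonal E)) 1) := by
  have hE0 : ∀ a, E a ≠ 0 := fun a h => by
    rw [Finset.prod_eq_zero (Finset.mem_univ a) h] at hE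
    exact zero_ne_one hE
  have key : ∀ s : Finset (Fin (m j)), a0 j ∉ s → Pres H (bk (Function.update (1 : MJ m) j
      (Matrix.diagonal fun x => if x = a0 j then ∏ a ∈ s, (E a)⁻¹ else
        if x ∈ s then E x else 1)) 1) := by
    intro s
    induction s using Finset.induction_on with
    | empty =>
      intro _
      have h1 : (Matrix.diagonal fun x : Fin (m j) => if x = a0 j then
          ∏ a ∈ (∅ : Finset (Fin (m j))), (E a)⁻¹ else if x ∈ (∅ : Finset (Fin (m j))) then E x
          else 1) = 1 := by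
        rw [← Matrix.diagonal_one]
        congr 1
        funext x
        rw [Finset.prod_empty, if_neg (Finset.notMem_empty x), ite_self]
      rw [h1, show Function.update (1 : MJ m) j 1 = 1 from Function.update_eq_self j 1]
      exact pres_id hS
    | insert b s hb ih =>
      intro h
      rw [Finset.mem_insert, not_or] at h
      have h1 := (pres_el hS a0 j (b := b) (Ne.symm h.1) (hE0 b)).mul (ih h.2)
      rw [bk_mul, upd_mul, mul_one, Matrix.diagonal_mul_diagonal] at h1
      have h2 : (fun x => (if x = a0 j then (E b)⁻¹ else if x = b then E b else 1) *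
          (if x = a0 j then ∏ a ∈ s, (E a)⁻¹ else if x ∈ s then E x else 1)) =
          fun x => if x = a0 j then ∏ a ∈ insert b s, (E a)⁻¹ else
            if x ∈ insert b s then E x else 1 := by
        funext x
        by_cases h3 : x = a0 j
        · rw [if_pos h3, if_pos h3, if_pos h3, Finset.prod_insert hb]
        · rw [if_neg h3, if_neg h3, if_neg h3]
          by_cases h4 : x = b
          · rw [if_pos h4, if_neg (by rw [h4]; exact hb), if_pos (by
              rw [h4]
              exact Finset.mem_insert_self b s), mul_one, h4]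
          · rw [if_neg h4, one_mul]
            by_cases h5 : x ∈ s
            · rw [if_pos h5, if_pos (Finset.mem_insert_of_mem h5)]
            · rw [if_neg h5, if_neg (by
                rw [Finset.mem_insert, not_or]
                exact ⟨h4, h5⟩)]
      rw [h2] at h1
      exact h1
  have h1 := key (Finset.univ.erase (a0 j)) (Finset.notMem_erase _ _)
  have h2 : (fun x => if x = a0 j then ∏ a ∈ Finset.univ.erase (a0 j), (E a)⁻¹ else
      if x ∈ Finset.univ.erase (a0 j) then E x else 1) = E := by
    funext x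
    by_cases h3 : x = a0 j
    · rw [if_pos h3, h3]
      have h4 := Finset.mul_prod_erase Finset.univ E (Finset.mem_univ (a0 j))
      rw [hE] at h4
      rw [Finset.prod_inv_distrib]
      exact (eq_inv_of_mul_eq_one_left h4).symm
    · rw [if_neg h3, if_pos (Finset.mem_erase.2 ⟨h3, Finset.mem_univ _⟩)]
  rw [h2] at h1
  exact h1

theorem pres_sl (a0 : ∀ j, Fin (m j)) (j : J) (M : Matrix (Fin (m j)) (Fin (m j)) ℂ)
    (hM : M.det = 1) : Pres H (bk (Function.update (1 : MJ m) j M) 1) := by
  refine Matrix.diagonal_transvection_induction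
    (fun M => Pres H (bk (Function.update (1 : MJ m) j M) 1)) M ?_ ?_ ?_
  · intro E hE
    rw [hM, Matrix.det_diagonal] at hE
    exact pres_diag hS a0 j E hE
  · intro t
    exact pres_tv hS j t
  · intro A B hA hB
    have h1 := hA.mul hB
    rwa [bk_mul, upd_mul, mul_one] at h1

theorem pres_sls (a0 : ∀ j, Fin (m j)) (g : MJ m) (hg : ∀ j, (g j).det = 1) :
    Pres H (bk g 1) := by
  have key : ∀ s : Finset J, Pres H (bk (fun j => if j ∈ s then g j else 1 : MJ m) 1) := by
    intro s
    induction s using Finset.induction_on with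
    | empty =>
      have h1 : (fun j => if j ∈ (∅ : Finset J) then g j else 1 : MJ m) = 1 := by
        funext j
        rw [if_neg (Finset.notMem_empty j)]
        rfl
      rw [h1]
      exact pres_id hS
    | insert a s ha ih =>
      have h1 := (pres_sl hS a0 a (g a) (hg a)).mul ih
      rw [bk_mul, mul_one] at h1
      have h2 : (Function.update (1 : MJ m) a (g a)) * (fun j => if j ∈ s then g j else 1) =
          fun j => if j ∈ insert a s then g j else 1 := by
        funext j
        rw [Pi.mul_apply]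
        by_cases hja : j = a
        · subst hja
          rw [update_self, if_neg ha, if_pos (Finset.mem_insert_self j s), mul_one]
        · rw [update_of_ne hja, Pi.one_apply, one_mul]
          by_cases h5 : j ∈ s
          · rw [if_pos h5, if_pos (Finset.mem_insert_of_mem h5)]
          · rw [if_neg h5, if_neg (by
              rw [Finset.mem_insert, not_or]
              exact ⟨hja, h5⟩)]
      rw [h2] at h1
      exact h1
  have h1 := key Finset.univ
  have h2 : (fun j => if j ∈ (Finset.univ : Finset J) then g j else 1 : MJ m) = g := by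
    funext j
    rw [if_pos (Finset.mem_univ j)]
  rwa [h2] at h1

/-- **All elements of the group.** -/
theorem pres_all (hm2 : ∀ j, 2 ≤ m j) (g : MJ m) (c : Fin 2 → ℂ) (hc : ∀ i, c i ≠ 0)
    (hg : ∀ j, (g j).det * c 1 = c 0 ^ 2) : Pres H (bk g c) := by
  set a0 : ∀ j, Fin (m j) := fun j => ⟨0, by have := hm2 j; omega⟩ with ha0
  set b0 : ∀ j, Fin (m j) := fun j => ⟨1, by have := hm2 j; omega⟩ with hb0
  have hab : ∀ j, a0 j ≠ b0 j := by
    intro j h
    have := congrArg Fin.val h
    simp [ha0, hb0] at this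
  set v : ℂ := c 0 * (c 1)⁻¹ with hv
  have hv0 : v ≠ 0 := mul_ne_zero (hc 0) (inv_ne_zero (hc 1))
  have h1 := (pres_tor hS a0 (c 1)).mul (pres_two hS a0 b0 hab v)
  rw [bk_mul] at h1
  set t : MJ m := (fun j => dg (a0 j) (c 1)) * (fun j => dg (a0 j) v * dg (b0 j) v) with ht
  have htd : ∀ j, (t j).det = c 1 * (v * v) := by
    intro j
    rw [ht, Pi.mul_apply, Matrix.det_mul, Matrix.det_mul, dg_det, dg_det, dg_det]
  have htd0 : ∀ j, (t j).det ≠ 0 := fun j => by
    rw [htd]
    exact mul_ne_zero (hc 1) (mul_ne_zero hv0 hv0)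
  have h2 : ((fun _ => c 1 : Fin 2 → ℂ) * ![v, 1]) = c := by
    funext i
    fin_cases i
    · change c 1 * v = c 0
      rw [hv, mul_comm (c 0), ← mul_assoc, mul_inv_cancel₀ (hc 1), one_mul]
    · change c 1 * 1 = c 1
      rw [mul_one]
  rw [h2] at h1
  have h3 := pres_sls hS a0 (fun j => g j * (t j)⁻¹) (by
    intro j
    have h4 := htd j
    rw [Matrix.det_mul, Matrix.det_nonsing_inv, Ring.inverse_eq_inv']
    have h5 : (g j).det = (t j).det := by
      rw [h4, hv]
      have h6 := hg j
      have h7 := hc 1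
      field_simp
      rw [h6]
    rw [h5]
    exact mul_inv_cancel₀ (htd0 j))
  have h4 := h3.mul h1
  rw [bk_mul, one_mul] at h4
  have h5 : (fun j => g j * (t j)⁻¹ : MJ m) * t = g := by
    funext j
    change g j * (t j)⁻¹ * t j = g j
    rw [Matrix.mul_assoc, Matrix.nonsing_inv_mul _ (isUnit_iff_ne_zero.2 (htd0 j)),
      Matrix.mul_one]
  rw [h5] at h4
  exact h4

end pres

end Pool.Agent.TH164.Un
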