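import Pool.Agent.TH164.Un.Un16

/-!
# Products without a condition on the determinants: the projections
-/

set_option autoImplicit false
set_option linter.unusedSectionVars false
set_option linter.unusedVariables false

open Module Matrix Function

attribute [local instance 100] LieRing.ofAssociativeRing

namespace Pool.Agent.TH164.Un

open Pool.Agent.TH164.Spin Pool.Agent.TH119.MX Pool.Agent.TH119.DR Pool.Agent.TH164.A1

variable {J : Type} [Fintype J] [DecidableEq J] {m : J → ℕ}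

/-- Block diagonal matrices. -/
def b2 (x : MJ m) : Matrix (Σ j, Fin (m j)) (Σ j, Fin (m j)) ℂ := Matrix.blockDiagonal' x

theorem b2_mul (x y : MJ m) : b2 x * b2 y = b2 (x * y) := (Matrix.blockDiagonal'_mul x y).symm

theorem b2_add (x y : MJ m) : b2 x + b2 y = b2 (x + y) := (Matrix.blockDiagonal'_add x y).symm

theorem b2_smul (a : ℂ) (x : MJ m) : a • b2 x = b2 (a • x) := (Matrix.blockDiagonal'_smul a x).symm

theorem b2_sub (x y : MJ m) : b2 x - b2 y = b2 (x - y) := (Matrix.blockDiagonal'_sub x y).symm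

theorem b2_one : b2 (1 : MJ m) = 1 := Matrix.blockDiagonal'_one

theorem b2_zero : b2 (0 : MJ m) = 0 := Matrix.blockDiagonal'_zero

theorem b2_map {f : ℂ → ℂ} (hf : f 0 = 0) (x : MJ m) :
    (b2 x).map f = b2 fun j => (x j).map f := Matrix.blockDiagonal'_map x f hf

variable {H : Set (Matrix (Σ j, Fin (m j)) (Σ j, Fin (m j)) ℂ)}

/-- The stabilizer. -/
def Re (H : Set (Matrix (Σ j, Fin (m j)) (Σ j, Fin (m j)) ℂ)) (d : ℕ) :
    Submodule ℂ (MJ m) where
  carrier := {x | Stab H d (b2 x)}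
  zero_mem' := by
    change Stab H d (b2 0)
    rw [b2_zero]
    exact Stab.zero
  add_mem' := by
    intro x y h1 h2
    change Stab H d (b2 (x + y))
    rw [← b2_add]
    exact Stab.add h1 h2
  smul_mem' := by
    intro a x h1
    change Stab H d (b2 (a • x))
    rw [← b2_smul]
    exact Stab.smul a h1

theorem mem_Re {d : ℕ} {x : MJ m} : x ∈ Re H d ↔ Stab H d (b2 x) := Iff.rfl

theorem Re_comm {d : ℕ} {x y : MJ m} (h1 : x ∈ Re H d) (h2 : y ∈ Re H d) :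
    x * y - y * x ∈ Re H d := by
  have h3 := Stab.comm (mem_Re.1 h1) (mem_Re.1 h2)
  rw [b2_mul, b2_mul, b2_sub] at h3
  exact mem_Re.2 h3

theorem Re_der (hH : AlgGrp QA H) (d : ℕ) (δ : Derivation ℚ ℂ ℂ) {x : MJ m}
    (hx : x ∈ Re H d) : (fun j => (x j).map δ : MJ m) ∈ Re H d := by
  have h1 := hH.stab_map (derK δ QA fun x hx => mem_QA.1 hx) (mem_Re.1 hx)
  have h2 : (b2 x).map (derK δ QA fun x hx => mem_QA.1 hx) =
      b2 (fun j => (x j).map δ) := b2_map (f := δ) (map_zero δ) x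
  rw [h2] at h1
  exact mem_Re.2 h1

theorem Re_tor (hH : AlgGrp QA H) {X X' : MJ m} (hX : ∀ j, X j * X' j = 1)
    {B B' : Matrix (Σ j, Fin (m j)) (Σ j, Fin (m j)) ℂ} (hB : B * B' = 1)
    (hBa : ∀ i j, B' i j ∈ QA) (hPB : b2 X * B ∈ H)
    (d : ℕ) (δ : Derivation ℚ ℂ ℂ) :
    (fun j => (X j).map δ * X' j : MJ m) ∈ Re H d := by
  have hX' : ∀ j, X' j * X j = 1 := fun j => mul_eq_one_comm.1 (hX j)
  have h1 : b2 X * b2 X' = 1 := by
    rw [b2_mul, ← b2_one]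
    congr 1
    funext j
    exact hX j
  have h2 : b2 X' * b2 X = 1 := by
    rw [b2_mul, ← b2_one]
    congr 1
    funext j
    exact hX' j
  have h3 := hH.stab_der le_rfl (fun x hx => mem_QA.1 hx) h1 h2 hB hBa hPB (d := d) δ
  rw [b2_map (f := δ) (map_zero δ), b2_mul] at h3
  exact mem_Re.2 h3

/-- The families of operators with trace zero in the stabilizer, modulo scalars. -/
def le (H : Set (Matrix (Σ j, Fin (m j)) (Σ j, Fin (m j)) ℂ)) (d : ℕ) :
    Submodule ℂ (∀ j, End ℂ (Fin (m j) → ℂ)) where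
  carrier := {f | (∀ j, LinearMap.trace ℂ (Fin (m j) → ℂ) (f j) = 0) ∧ ∃ σ : J → ℂ,
    (fun j => LinearMap.toMatrix' (f j) + σ j • (1 : Matrix (Fin (m j)) (Fin (m j)) ℂ) :
      MJ m) ∈ Re H d}
  zero_mem' := ⟨fun j => map_zero _, 0, by
    have h1 : (fun j => LinearMap.toMatrix' ((0 : ∀ j, End ℂ (Fin (m j) → ℂ)) j) +
        (0 : J → ℂ) j • (1 : Matrix (Fin (m j)) (Fin (m j)) ℂ) : MJ m) = 0 := by
      funext j
      rw [Pi.zero_apply, map_zero, Pi.zero_apply, zero_smul, add_zero]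
      rfl
    rw [h1]
    exact Submodule.zero_mem _⟩
  add_mem' := by
    rintro f g ⟨h1, σ, h2⟩ ⟨h3, τ, h4⟩
    refine ⟨fun j => by rw [Pi.add_apply, map_add, h1, h3, add_zero], σ + τ, ?_⟩
    have h5 := Submodule.add_mem _ h2 h4
    have h6 : (fun j => LinearMap.toMatrix' ((f + g) j) + (σ + τ) j •
        (1 : Matrix (Fin (m j)) (Fin (m j)) ℂ) : MJ m) =
        (fun j => LinearMap.toMatrix' (f j) + σ j • (1 : Matrix (Fin (m j)) (Fin (m j)) ℂ)) +
        (fun j => LinearMap.toMatrix' (g j) + τ j • 1) := by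
      funext j
      rw [Pi.add_apply, Pi.add_apply, map_add, Pi.add_apply, add_smul]
      abel
    rw [h6]
    exact h5
  smul_mem' := by
    rintro a f ⟨h1, σ, h2⟩
    refine ⟨fun j => by rw [Pi.smul_apply, map_smul, h1, smul_zero], a • σ, ?_⟩
    have h5 := Submodule.smul_mem _ a h2
    have h6 : (fun j => LinearMap.toMatrix' ((a • f) j) + (a • σ) j •
        (1 : Matrix (Fin (m j)) (Fin (m j)) ℂ) : MJ m) =
        a • (fun j => LinearMap.toMatrix' (f j) + σ j •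
          (1 : Matrix (Fin (m j)) (Fin (m j)) ℂ)) := by
      funext j
      rw [Pi.smul_apply, Pi.smul_apply, Pi.smul_apply, map_smul, smul_add, smul_smul,
        smul_eq_mul]
    rw [h6]
    exact h5

theorem le_comm' {d : ℕ} {f g : ∀ j, End ℂ (Fin (m j) → ℂ)} (hf : f ∈ le H d) (hg : g ∈ le H d) :
    (fun j => LinearMap.toMatrix' ((f * g - g * f) j) : MJ m) ∈ Re H d := by
  obtain ⟨h1, σ, h2⟩ := hf
  obtain ⟨h3, τ, h4⟩ := hg
  have h5 := Re_comm h2 h4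
  have h6 : (fun j => LinearMap.toMatrix' ((f * g - g * f) j) : MJ m) =
      (fun j => LinearMap.toMatrix' (f j) + σ j • (1 : Matrix (Fin (m j)) (Fin (m j)) ℂ)) *
      (fun j => LinearMap.toMatrix' (g j) + τ j • (1 : Matrix (Fin (m j)) (Fin (m j)) ℂ)) -
      (fun j => LinearMap.toMatrix' (g j) + τ j • (1 : Matrix (Fin (m j)) (Fin (m j)) ℂ)) *
      (fun j => LinearMap.toMatrix' (f j) + σ j •
        (1 : Matrix (Fin (m j)) (Fin (m j)) ℂ)) := by
    funext j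
    change LinearMap.toMatrix' (f j * g j - g j * f j) = (_ + _) * (_ + _) - (_ + _) * (_ + _)
    rw [map_sub, LinearMap.toMatrix'_mul, LinearMap.toMatrix'_mul]
    simp only [Matrix.add_mul, Matrix.mul_add, Matrix.smul_mul, Matrix.mul_smul,
      Matrix.one_mul, Matrix.mul_one]
    module
  rw [h6]
  exact h5

theorem le_comm {d : ℕ} {f g : ∀ j, End ℂ (Fin (m j) → ℂ)} (hf : f ∈ le H d) (hg : g ∈ le H d) :
    f * g - g * f ∈ le H d := by
  refine ⟨fun j => ?_, 0, ?_⟩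
  · change LinearMap.trace ℂ (Fin (m j) → ℂ) (f j * g j - g j * f j) = 0
    rw [map_sub, LinearMap.trace_mul_comm, sub_self]
  · have h1 := le_comm' hf hg
    have h2 : (fun j => LinearMap.toMatrix' ((f * g - g * f) j) + (0 : J → ℂ) j •
        (1 : Matrix (Fin (m j)) (Fin (m j)) ℂ) : MJ m) =
        (fun j => LinearMap.toMatrix' ((f * g - g * f) j)) := by
      funext j
      rw [Pi.zero_apply, zero_smul, add_zero]
    rw [h2]
    exact h1

theorem le_of (hm0 : ∀ j, 0 < m j) {d : ℕ} {x : MJ m} (h : x ∈ Re H d) :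
    (fun j => Matrix.toLin' (x j) - ((x j).trace / m j) •
      (LinearMap.id : (Fin (m j) → ℂ) →ₗ[ℂ] _)) ∈ le H d := by
  refine ⟨fun j => ?_, fun j => (x j).trace / m j, ?_⟩
  · have hmC : (m j : ℂ) ≠ 0 := Nat.cast_ne_zero.2 (by have := hm0 j; omega)
    have h1 : LinearMap.trace ℂ (Fin (m j) → ℂ) (Matrix.toLin' (x j)) = (x j).trace := by
      rw [LinearMap.trace_eq_matrix_trace ℂ (Pi.basisFun ℂ (Fin (m j)))]
      congr 1
      exact LinearMap.toMatrix'_toLin' (x j)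
    rw [map_sub, map_smul, LinearMap.trace_id, Module.finrank_fin_fun, smul_eq_mul,
      div_mul_cancel₀ _ hmC, h1, sub_self]
  · have h2 : (fun j => LinearMap.toMatrix' (Matrix.toLin' (x j) - ((x j).trace / m j) •
        (LinearMap.id : (Fin (m j) → ℂ) →ₗ[ℂ] _)) + ((x j).trace / m j) •
        (1 : Matrix (Fin (m j)) (Fin (m j)) ℂ) : MJ m) = x := by
      funext j
      rw [map_sub, LinearMap.toMatrix'_toLin', map_smul, LinearMap.toMatrix'_id, sub_add_cancel]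
    rw [h2]
    exact h

/-- The projection to one factor, as a Lie algebra. -/
def pe (H : Set (Matrix (Σ j, Fin (m j)) (Σ j, Fin (m j)) ℂ)) (d : ℕ)
    (j : J) : LieSubalgebra ℂ (End ℂ (Fin (m j) → ℂ)) where
  carrier := {X | ∃ x ∈ le H d, x j = X}
  zero_mem' := ⟨0, Submodule.zero_mem _, rfl⟩
  add_mem' := by
    rintro _ _ ⟨x, hx, rfl⟩ ⟨y, hy, rfl⟩
    exact ⟨x + y, Submodule.add_mem _ hx hy, rfl⟩
  smul_mem' := by
    rintro a _ ⟨x, hx, rfl⟩
    exact ⟨a • x, Submodule.smul_mem _ a hx, rfl⟩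
  lie_mem' := by
    rintro _ _ ⟨x, hx, rfl⟩ ⟨y, hy, rfl⟩
    exact ⟨x * y - y * x, le_comm hx hy, rfl⟩

/-- The projection to one factor. -/
def Rf (H : Set (Matrix (Σ j, Fin (m j)) (Σ j, Fin (m j)) ℂ)) (d : ℕ)
    (j : J) : Submodule ℂ (Matrix (Fin (m j)) (Fin (m j)) ℂ) :=
  (Re H d).map (LinearMap.proj (R := ℂ) (φ := fun j => Matrix (Fin (m j)) (Fin (m j)) ℂ) j)

theorem mem_Rf {d : ℕ} {j : J} {y : Matrix (Fin (m j)) (Fin (m j)) ℂ} : y ∈ Rf H d j ↔
    ∃ x ∈ Re H d, x j = y := Iff.rfl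

/-- Pairs of operators. -/
def Pe (H : Set (Matrix (Σ j, Fin (m j)) (Σ j, Fin (m j)) ℂ)) (d : ℕ)
    (i j : J) : Submodule ℂ (End ℂ (Fin (m i) → ℂ) × End ℂ (Fin (m j) → ℂ)) :=
  (le H d).map ((LinearMap.proj (R := ℂ) (φ := fun j => End ℂ (Fin (m j) → ℂ))
    i).prod (LinearMap.proj j))

theorem mem_Pe {d : ℕ} {i j : J} {y : End ℂ (Fin (m i) → ℂ) × End ℂ (Fin (m j) → ℂ)} :
    y ∈ Pe H d i j ↔ ∃ x ∈ le H d, (x i, x j) = y := Iff.rfl

/-- All linear relations with algebraic coefficients between products of an entry of `X` and an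
entry of `Y` are trivial. -/
def NoRel {n₁ n₂ : ℕ} (X : Matrix (Fin n₁) (Fin n₁) ℂ) (Y : Matrix (Fin n₂) (Fin n₂) ℂ) : Prop :=
  ∀ B : (Fin n₁ × Fin n₂) × (Fin n₁ × Fin n₂) → ℂ, (∀ q, IsAlgebraic ℚ (B q)) →
    ∑ q, B q * (X q.1.1 q.2.1 * Y q.1.2 q.2.2) = 0 → B = 0

/-- The data. -/
structure Det (H : Set (Matrix (Σ j, Fin (m j)) (Σ j, Fin (m j)) ℂ)) (X X' : MJ m) : Prop where
  hm : ∀ j, Even (m j)
  hm0 : ∀ j, 0 < m j
  hH : AlgGrp QA H
  hX : ∀ j, X j * X' j = 1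
  der : ∀ (d : ℕ) (δ : Derivation ℚ ℂ ℂ), (fun j => (X j).map δ * X' j : MJ m) ∈ Re H d
  one : ∀ j p, 1 ≤ p → p < m j → OnlyTrivial p (X j)
  two : ∀ i j, i ≠ j → NoRel (X i) (X j)

section data

variable {X X' : MJ m}

theorem Det.dec (T : Det H X X') (d : ℕ) {j : J} {p : ℕ} (hp : 1 ≤ p) (hpm : p < m j)
    (U : Submodule ℂ ((Fin (m j) → ℂ) [⋀^Fin p]→ₗ[ℂ] ℂ))
    (hU : ∀ x ∈ le H d, ∀ ω ∈ U, D (x j) ω ∈ U) (h0 : U ≠ ⊥)
    (ξ : Fin p → Dual ℂ (Fin (m j) → ℂ)) : Pool.Agent.TH164.Un.dec ξ ∈ U := by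
  refine dec_mem (Rf H d j) (T.hX j) (mul_eq_one_comm.1 (T.hX j)) ?_ ?_ (T.one j p hp hpm) U ?_ h0 ξ
  · intro δ y hy
    obtain ⟨x, hx, rfl⟩ := mem_Rf.1 hy
    exact mem_Rf.2 ⟨_, Re_der T.hH d δ hx, rfl⟩
  · intro δ
    exact mem_Rf.2 ⟨_, T.der d δ, rfl⟩
  · intro y hy ω hω
    obtain ⟨x, hx, rfl⟩ := mem_Rf.1 hy
    have h2 := hU _ (le_of T.hm0 hx) ω hω
    rw [D_sub, D_smul, D_id] at h2
    have h3 := U.add_mem h2 (U.smul_mem ((x j).trace / m j) (U.smul_mem (p : ℂ) hω))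
    rwa [sub_add_cancel] at h3

theorem Det.surj (T : Det H X X') (d : ℕ) (j : J)
    (f : End ℂ (Fin (m j) → ℂ)) (hf : LinearMap.trace ℂ (Fin (m j) → ℂ) f = 0) :
    ∃ x ∈ le H d, x j = f := by
  refine sl_full (T.hm j) (by rw [Module.finrank_fin_fun]) (pe H d j) ?_ ?_ f hf
  · rintro _ ⟨x, hx, rfl⟩
    exact hx.1 j
  · intro p hp hpm U hU h0 ξ
    exact T.dec d hp hpm U (fun x hx ω hω => hU _ ⟨x, hx, rfl⟩ ω hω) h0 ξ

end data

end Pool.Agent.TH164.Un
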