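import Pool.Agent.TH164.Un.Un18
import Mathlib.LinearAlgebra.Matrix.Kronecker

/-!
# The tensor product of two nontrivial representations is reducible
-/

set_option autoImplicit false
set_option linter.unusedSectionVars false
set_option linter.unusedVariables false

open Module Matrix Function

open scoped Kronecker

namespace Pool.Agent.TH164.Un

open Pool.Agent.TH164.Spin Pool.Agent.TH119.MX Pool.Agent.TH119.DR Pool.Agent.TH164.A1

theorem mul_sg {n : ℕ} (x : Matrix (Fin n) (Fin n) ℂ) (b a b' a' : Fin n) :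
    (x * Matrix.single b a (1 : ℂ)) b' a' = if a = a' then x b' b else 0 := by
  rw [Matrix.mul_apply, Finset.sum_eq_single b]
  · rw [Matrix.single_apply]
    by_cases h : a = a'
    · rw [if_pos ⟨rfl, h⟩, if_pos h, mul_one]
    · rw [if_neg (fun h1 => h h1.2), if_neg h, mul_zero]
  · intro c _ hc
    rw [Matrix.single_apply, if_neg (fun h1 => hc h1.1.symm), mul_zero]
  · intro h
    exact absurd (Finset.mem_univ _) h

theorem sg_mul {n : ℕ} (x : Matrix (Fin n) (Fin n) ℂ) (b a b' a' : Fin n) :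
    (Matrix.single b a (1 : ℂ) * x) b' a' = if b = b' then x a a' else 0 := by
  rw [Matrix.mul_apply, Finset.sum_eq_single a]
  · rw [Matrix.single_apply]
    by_cases h : b = b'
    · rw [if_pos ⟨h, rfl⟩, if_pos h, one_mul]
    · rw [if_neg (fun h1 => h h1.1), if_neg h, zero_mul]
  · intro c _ hc
    rw [Matrix.single_apply, if_neg (fun h1 => hc h1.2.symm), zero_mul]
  · intro h
    exact absurd (Finset.mem_univ _) h

/-- The part with trace zero. -/
noncomputable def prr (n : ℕ) : Matrix (Fin n) (Fin n) ℂ →ₗ[ℂ] End ℂ (Fin n → ℂ) :=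
  (Matrix.toLin' : Matrix (Fin n) (Fin n) ℂ ≃ₗ[ℂ] _).toLinearMap -
    ((n : ℂ)⁻¹ • Matrix.traceLinearMap (Fin n) ℂ ℂ).smulRight
      (LinearMap.id : (Fin n → ℂ) →ₗ[ℂ] _)

theorem prr_apply {n : ℕ} (M : Matrix (Fin n) (Fin n) ℂ) : prr n M = Matrix.toLin' M -
    (M.trace / n) • (LinearMap.id : (Fin n → ℂ) →ₗ[ℂ] _) := by
  unfold prr
  rw [LinearMap.sub_apply, LinearMap.smulRight_apply, LinearMap.smul_apply,
    Matrix.traceLinearMap_apply, smul_eq_mul, div_eq_inv_mul]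
  rfl

theorem prr_trace {n : ℕ} (hn : 0 < n) (M : Matrix (Fin n) (Fin n) ℂ) :
    LinearMap.trace ℂ (Fin n → ℂ) (prr n M) = 0 := by
  have hmC : (n : ℂ) ≠ 0 := Nat.cast_ne_zero.2 (by omega)
  have h1 : LinearMap.trace ℂ (Fin n → ℂ) (Matrix.toLin' M) = M.trace := by
    rw [LinearMap.trace_eq_matrix_trace ℂ (Pi.basisFun ℂ (Fin n))]
    congr 1
    exact LinearMap.toMatrix'_toLin' M
  rw [prr_apply, map_sub, map_smul, LinearMap.trace_id, Module.finrank_fin_fun, smul_eq_mul,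
    div_mul_cancel₀ _ hmC, h1, sub_self]

theorem prr_comm {n : ℕ} (x y : Matrix (Fin n) (Fin n) ℂ) :
    prr n x * prr n y - prr n y * prr n x = prr n (x * y - y * x) := by
  rw [prr_apply, prr_apply, prr_apply, Matrix.trace_sub, Matrix.trace_mul_comm, sub_self,
    zero_div, zero_smul, sub_zero, map_sub, Matrix.toLin'_mul, Matrix.toLin'_mul]
  refine LinearMap.ext fun v => ?_
  simp only [LinearMap.sub_apply, Module.End.mul_apply, LinearMap.smul_apply, LinearMap.id_apply,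
    LinearMap.comp_apply, map_sub, map_smul]
  module

theorem toM_comm {n : ℕ} (y : Matrix (Fin n) (Fin n) ℂ) (f : End ℂ (Fin n → ℂ)) :
    LinearMap.toMatrix' (prr n y * f - f * prr n y) =
      y * LinearMap.toMatrix' f - LinearMap.toMatrix' f * y := by
  rw [map_sub, LinearMap.toMatrix'_mul, LinearMap.toMatrix'_mul, prr_apply, map_sub, map_smul,
    LinearMap.toMatrix'_id, LinearMap.toMatrix'_toLin', Matrix.sub_mul, Matrix.mul_sub,
    Matrix.smul_mul, Matrix.mul_smul, Matrix.one_mul, Matrix.mul_one]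
  abel

/-- The action on the tensor product. -/
def KK {n₁ n₂ : ℕ} (x : Matrix (Fin n₁) (Fin n₁) ℂ) (y : Matrix (Fin n₂) (Fin n₂) ℂ) :
    Matrix (Fin n₁ × Fin n₂) (Fin n₁ × Fin n₂) ℂ :=
  x ⊗ₖ (1 : Matrix (Fin n₂) (Fin n₂) ℂ) + (1 : Matrix (Fin n₁) (Fin n₁) ℂ) ⊗ₖ y

theorem KK_map {n₁ n₂ : ℕ} (δ : Derivation ℚ ℂ ℂ) (x : Matrix (Fin n₁) (Fin n₁) ℂ)
    (y : Matrix (Fin n₂) (Fin n₂) ℂ) : (KK x y).map δ = KK (x.map δ) (y.map δ) := by
  have h1 : ∀ (n : ℕ) (i j : Fin n), δ ((1 : Matrix (Fin n) (Fin n) ℂ) i j) = 0 := by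
    intro n i j
    rw [Matrix.one_apply]
    split_ifs
    · exact δ.map_one_eq_zero
    · exact map_zero δ
  ext ⟨a, r⟩ ⟨b, s⟩
  unfold KK
  rw [Matrix.map_apply, Matrix.add_apply, Matrix.add_apply, Matrix.kroneckerMap_apply,
    Matrix.kroneckerMap_apply, Matrix.kroneckerMap_apply, Matrix.kroneckerMap_apply, map_add,
    Derivation.leibniz, Derivation.leibniz, h1, h1, Matrix.map_apply, Matrix.map_apply,
    smul_eq_mul, smul_eq_mul, smul_eq_mul, smul_eq_mul]
  ring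

theorem kron_map {n₁ n₂ : ℕ} (δ : Derivation ℚ ℂ ℂ) {X X' : Matrix (Fin n₁) (Fin n₁) ℂ}
    {Y Y' : Matrix (Fin n₂) (Fin n₂) ℂ} (hX : X' * X = 1) (hY : Y' * Y = 1) :
    (X ⊗ₖ Y).map δ = KK (X.map δ * X') (Y.map δ * Y') * (X ⊗ₖ Y) := by
  unfold KK
  rw [Matrix.add_mul, ← Matrix.mul_kronecker_mul, ← Matrix.mul_kronecker_mul, Matrix.mul_assoc,
    Matrix.mul_assoc, hX, hY, Matrix.mul_one, Matrix.mul_one, Matrix.one_mul, Matrix.one_mul]
  ext ⟨a, r⟩ ⟨b, s⟩
  rw [Matrix.map_apply, Matrix.add_apply, Matrix.kroneckerMap_apply,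
    Matrix.kroneckerMap_apply, Matrix.kroneckerMap_apply,
    Derivation.leibniz, Matrix.map_apply, Matrix.map_apply, smul_eq_mul, smul_eq_mul]
  ring

/-- **No graphs.** -/
theorem casimir {n₁ n₂ : ℕ} (hn₁ : 2 ≤ n₁)
    (P : Submodule ℂ (End ℂ (Fin n₁ → ℂ) × End ℂ (Fin n₂ → ℂ)))
    (hbr : ∀ x ∈ P, ∀ y ∈ P, (x.1 * y.1 - y.1 * x.1, x.2 * y.2 - y.2 * x.2) ∈ P)
    (h12 : ∀ x ∈ P, x.1 = 0 → x.2 = 0) (h21 : ∀ x ∈ P, x.2 = 0 → x.1 = 0)
    (hs1 : ∀ f, LinearMap.trace ℂ (Fin n₁ → ℂ) f = 0 → ∃ x ∈ P, x.1 = f)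
    (Q : Submodule ℂ (Matrix (Fin n₁) (Fin n₁) ℂ × Matrix (Fin n₂) (Fin n₂) ℂ))
    (hQ : ∀ x ∈ Q, (prr n₁ x.1, prr n₂ x.2) ∈ P)
    (hQδ : ∀ δ : Derivation ℚ ℂ ℂ, ∀ x ∈ Q, (x.1.map δ, x.2.map δ) ∈ Q)
    {X X' : Matrix (Fin n₁) (Fin n₁) ℂ} {Y Y' : Matrix (Fin n₂) (Fin n₂) ℂ}
    (hX' : X * X' = 1) (hY' : Y * Y' = 1)
    (hXδ : ∀ δ : Derivation ℚ ℂ ℂ, (X.map δ * X', Y.map δ * Y') ∈ Q) (hT : NoRel X Y) :
    False := by
  have hX : X' * X = 1 := mul_eq_one_comm.1 hX'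
  have hY : Y' * Y = 1 := mul_eq_one_comm.1 hY'
  have hch : ∀ b a : Fin n₁, ∃ x ∈ P, x.1 = prr n₁ (Matrix.single b a (1 : ℂ)) := fun b a =>
    hs1 _ (prr_trace (by omega) _)
  choose F hF1 hF2 using hch
  set R : Fin n₁ → Fin n₁ → Matrix (Fin n₂) (Fin n₂) ℂ := fun b a =>
    LinearMap.toMatrix' (F b a).2 with hR
  have uni : ∀ p ∈ P, ∀ M : Matrix (Fin n₁) (Fin n₁) ℂ, p.1 = prr n₁ M →
      LinearMap.toMatrix' p.2 = ∑ b, ∑ a, M b a • R b a := by
    intro p hp M hpM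
    set q := ∑ b, ∑ a, M b a • F b a with hq
    have hqP : q ∈ P := P.sum_mem fun b _ => P.sum_mem fun a _ => P.smul_mem _ (hF1 b a)
    have hq1 : q.1 = prr n₁ M := by
      rw [hq, Prod.fst_sum]
      conv_rhs => rw [Matrix.matrix_eq_sum_single M, map_sum]
      refine Finset.sum_congr rfl fun b _ => ?_
      rw [Prod.fst_sum, map_sum]
      refine Finset.sum_congr rfl fun a _ => ?_
      rw [Prod.smul_fst, hF2, ← map_smul, Matrix.smul_single, smul_eq_mul, mul_one]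
    have h1 := h12 (p - q) (P.sub_mem hp hqP) (by rw [Prod.fst_sub, hpM, hq1, sub_self])
    rw [Prod.snd_sub, sub_eq_zero] at h1
    rw [h1, hq, Prod.snd_sum, map_sum]
    refine Finset.sum_congr rfl fun b _ => ?_
    rw [Prod.snd_sum, map_sum]
    refine Finset.sum_congr rfl fun a _ => ?_
    rw [Prod.smul_snd, map_smul]
  have hrel : ∀ x ∈ Q, ∀ b a : Fin n₁, x.2 * R b a - R b a * x.2 =
      ∑ c, x.1 c b • R c a - ∑ c, x.1 a c • R b c := by
    intro x hx b a
    have h1 := hbr _ (hQ x hx) _ (hF1 b a)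
    have h2 := uni _ h1 (x.1 * Matrix.single b a (1 : ℂ) - Matrix.single b a (1 : ℂ) * x.1) (by
      change prr n₁ x.1 * (F b a).1 - (F b a).1 * prr n₁ x.1 = _
      rw [hF2, prr_comm])
    change LinearMap.toMatrix' (prr n₂ x.2 * (F b a).2 - (F b a).2 * prr n₂ x.2) = _ at h2
    rw [toM_comm] at h2
    rw [hR]
    change x.2 * LinearMap.toMatrix' (F b a).2 - LinearMap.toMatrix' (F b a).2 * x.2 = _
    rw [h2]
    simp only [Matrix.sub_apply, mul_sg, sg_mul, sub_smul, Finset.sum_sub_distrib, ite_smul,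
      zero_smul, Finset.sum_ite_eq, Finset.mem_univ, if_true]
    congr 1
    rw [Finset.sum_eq_single b]
    · simp
      rfl
    · intro c _ hc
      simp [Ne.symm hc]
    · intro h
      exact absurd (Finset.mem_univ _) h
  set Ω : Matrix (Fin n₁ × Fin n₂) (Fin n₁ × Fin n₂) ℂ :=
    Matrix.of fun p q => R q.1 p.1 p.2 q.2 with hΩ
  have hcom : ∀ x ∈ Q, Ω * KK x.1 x.2 = KK x.1 x.2 * Ω := by
    intro x hx
    ext ⟨a, r⟩ ⟨b, s⟩
    have h1 := congrFun (congrFun (hrel x hx b a) r) s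
    rw [Matrix.sub_apply, Matrix.sub_apply, Matrix.sum_apply, Matrix.sum_apply, Matrix.mul_apply,
      Matrix.mul_apply] at h1
    have e1 : (Ω * KK x.1 x.2) (a, r) (b, s) = ∑ c, x.1 c b * R c a r s +
        ∑ t, R b a r t * x.2 t s := by
      rw [Matrix.mul_apply, Fintype.sum_prod_type]
      have e2 : ∀ c t, Ω (a, r) (c, t) * KK x.1 x.2 (c, t) (b, s) =
          (if t = s then x.1 c b * R c a r s else 0) +
          (if c = b then R b a r t * x.2 t s else 0) := by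
        intro c t
        unfold KK
        rw [Matrix.add_apply, Matrix.kroneckerMap_apply, Matrix.kroneckerMap_apply,
          Matrix.one_apply, Matrix.one_apply, hΩ, Matrix.of_apply]
        by_cases h2 : t = s
        · by_cases h3 : c = b
          · rw [if_pos h2, if_pos h2, if_pos h3, if_pos h3, h2, h3]
            ring
          · rw [if_pos h2, if_pos h2, if_neg h3, if_neg h3, h2]
            ring
        · by_cases h3 : c = b
          · rw [if_neg h2, if_neg h2, if_pos h3, if_pos h3, h3]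
            ring
          · rw [if_neg h2, if_neg h2, if_neg h3, if_neg h3]
            ring
      simp only [e2, Finset.sum_add_distrib, Finset.sum_ite_eq', Finset.mem_univ, if_true]
      congr 1
      rw [Finset.sum_comm]
      simp only [Finset.sum_ite_eq', Finset.mem_univ, if_true]
    have e3 : (KK x.1 x.2 * Ω) (a, r) (b, s) = ∑ c, x.1 a c * R b c r s +
        ∑ t, x.2 r t * R b a t s := by
      rw [Matrix.mul_apply, Fintype.sum_prod_type]
      have e2 : ∀ c t, KK x.1 x.2 (a, r) (c, t) * Ω (c, t) (b, s) =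
          (if t = r then x.1 a c * R b c r s else 0) +
          (if c = a then x.2 r t * R b a t s else 0) := by
        intro c t
        unfold KK
        rw [Matrix.add_apply, Matrix.kroneckerMap_apply, Matrix.kroneckerMap_apply,
          Matrix.one_apply, Matrix.one_apply, hΩ, Matrix.of_apply]
        by_cases h2 : r = t
        · by_cases h3 : a = c
          · rw [if_pos h2, if_pos h2.symm, if_pos h3, if_pos h3.symm, h2, h3]
            ring
          · rw [if_pos h2, if_pos h2.symm, if_neg h3, if_neg (Ne.symm h3), h2]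
            ring
        · by_cases h3 : a = c
          · rw [if_neg h2, if_neg (Ne.symm h2), if_pos h3, if_pos h3.symm, h3]
            ring
          · rw [if_neg h2, if_neg (Ne.symm h2), if_neg h3, if_neg (Ne.symm h3)]
            ring
      simp only [e2, Finset.sum_add_distrib, Finset.sum_ite_eq', Finset.mem_univ, if_true]
      congr 1
      rw [Finset.sum_comm]
      simp only [Finset.sum_ite_eq', Finset.mem_univ, if_true]
    rw [e1, e3]
    simp only [Matrix.smul_apply, smul_eq_mul] at h1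
    linear_combination -h1
  set A₀ := Algebra.adjoin ℂ ((fun p : Matrix (Fin n₁) (Fin n₁) ℂ × Matrix (Fin n₂) (Fin n₂) ℂ =>
    KK p.1 p.2) '' (Q : Set (Matrix (Fin n₁) (Fin n₁) ℂ × Matrix (Fin n₂) (Fin n₂) ℂ))) with hA₀
  have hA1 : ∀ T ∈ A₀, Ω * T = T * Ω := by
    intro T hT
    induction hT using Algebra.adjoin_induction with
    | mem x hx =>
      obtain ⟨y, hy, rfl⟩ := hx
      exact hcom y hy
    | algebraMap r => exact (Algebra.commutes r Ω).symm
    | add x y _ _ hx hy => rw [Matrix.mul_add, Matrix.add_mul, hx, hy]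
    | mul x y _ _ hx hy => rw [← Matrix.mul_assoc, hx, Matrix.mul_assoc, hy, Matrix.mul_assoc]
  have hA2 : ∀ M : Matrix (Fin n₁ × Fin n₂) (Fin n₁ × Fin n₂) ℂ, M ∈ A₀ := by
    intro M
    obtain ⟨T, hT1, hT2⟩ := gen_op A₀ (by
      intro δ T hT
      induction hT using Algebra.adjoin_induction with
      | mem x hx =>
        obtain ⟨y, hy, rfl⟩ := hx
        change (KK y.1 y.2).map δ ∈ A₀
        rw [KK_map]
        exact Algebra.subset_adjoin ⟨_, hQδ δ y hy, rfl⟩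
      | algebraMap r =>
        rw [Algebra.algebraMap_eq_smul_one, map_smul_der, map_one_der, smul_zero, add_zero]
        exact A₀.smul_mem A₀.one_mem _
      | add x y _ _ hx hy =>
        have : (x + y).map δ = x.map δ + y.map δ := by
          ext i j
          exact map_add δ _ _
        rw [this]
        exact A₀.add_mem hx hy
      | mul x y hx' hy' hx hy =>
        rw [map_mul_der]
        exact A₀.add_mem (A₀.mul_mem hx hy') (A₀.mul_mem hx' hy))
      (X ⊗ₖ Y) (M * (X ⊗ₖ Y)) (by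
      intro δ
      exact ⟨_, Algebra.subset_adjoin ⟨_, hXδ δ, rfl⟩, kron_map δ hX hY⟩) (by
      intro w hw h1
      have h2 := hT w hw h1
      refine Finset.sum_eq_zero fun q _ => ?_
      rw [h2, Pi.zero_apply, zero_mul])
    have h1 : (X ⊗ₖ Y) * (X' ⊗ₖ Y') = 1 := by
      rw [← Matrix.mul_kronecker_mul, hX', hY', Matrix.one_kronecker_one]
    have h2 := congrArg (fun Z => Z * (X' ⊗ₖ Y')) hT2
    simp only [Matrix.mul_assoc, h1, Matrix.mul_one] at h2
    rw [← h2]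
    exact hT1
  -- off-diagonal entries vanish
  have hoff : ∀ x y, x ≠ y → Ω x y = 0 := by
    intro x y hxy
    have h1 := hA1 _ (hA2 (Matrix.single x x 1))
    have h2 := congrFun (congrFun h1 x) y
    rw [Matrix.mul_apply, Matrix.mul_apply, Finset.sum_eq_zero, Finset.sum_eq_single x] at h2
    · rw [Matrix.single_apply, if_pos ⟨rfl, rfl⟩, one_mul] at h2
      exact h2.symm
    · intro z _ hz
      rw [Matrix.single_apply, if_neg (fun h => hz h.2.symm), zero_mul]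
    · intro h
      exact absurd (Finset.mem_univ _) h
    · intro z _
      rw [Matrix.single_apply, if_neg (fun h => hxy h.2), mul_zero]
  set a : Fin n₁ := ⟨0, by omega⟩ with ha
  set b : Fin n₁ := ⟨1, by omega⟩ with hb
  have hab : a ≠ b := by
    intro h
    have := congrArg Fin.val h
    simp [ha, hb] at this
  have h1 : R b a = 0 := by
    ext r s
    have h2 := hoff (a, r) (b, s) (fun h => hab (congrArg Prod.fst h))
    exact h2
  have h2 : (F b a).2 = 0 := by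
    have h3 : LinearMap.toMatrix' (F b a).2 = 0 := h1
    exact (LinearEquiv.map_eq_zero_iff _).1 h3
  have h3 := h21 _ (hF1 b a) h2
  rw [hF2, prr_apply, Matrix.trace_single_eq_of_ne _ _ _ hab.symm, zero_div, zero_smul,
    sub_zero] at h3
  have h4 : Matrix.single b a (1 : ℂ) = 0 := (LinearEquiv.map_eq_zero_iff _).1 h3
  have h5 := congrFun (congrFun h4 b) a
  rw [Matrix.single_apply, if_pos ⟨rfl, rfl⟩] at h5
  exact one_ne_zero h5

variable {J : Type} [Fintype J] [DecidableEq J] {m : J → ℕ}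
variable {H : Set (Matrix (Σ j, Fin (m j)) (Σ j, Fin (m j)) ℂ)}

/-- The projection to two factors. -/
def Qe (H : Set (Matrix (Σ j, Fin (m j)) (Σ j, Fin (m j)) ℂ)) (d : ℕ)
    (i j : J) : Submodule ℂ (Matrix (Fin (m i)) (Fin (m i)) ℂ × Matrix (Fin (m j)) (Fin (m j)) ℂ) :=
  (Re H d).map ((LinearMap.proj (R := ℂ) (φ := fun j => Matrix (Fin (m j)) (Fin (m j)) ℂ)
    i).prod (LinearMap.proj j))

theorem mem_Qe {d : ℕ} {i j : J}
    {y : Matrix (Fin (m i)) (Fin (m i)) ℂ × Matrix (Fin (m j)) (Fin (m j)) ℂ} :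
    y ∈ Qe H d i j ↔ ∃ x ∈ Re H d, (x i, x j) = y := Iff.rfl

section data

variable {X X' : MJ m}

theorem Det.noGraph (T : Det H X X') (d : ℕ) {i j : J} (hij : i ≠ j) :
    ∃ x ∈ le H d, x i = 0 ∧ x j ≠ 0 := by
  by_contra hcon
  push Not at hcon
  have hmj : ∀ j, 2 ≤ m j := by
    intro j
    obtain ⟨r, hr⟩ := T.hm j
    have := T.hm0 j
    omega
  have hbr : ∀ x ∈ Pe H d i j, ∀ y ∈ Pe H d i j,
      (x.1 * y.1 - y.1 * x.1, x.2 * y.2 - y.2 * x.2) ∈ Pe H d i j := by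
    intro x' hx' y' hy'
    obtain ⟨x, hx, rfl⟩ := mem_Pe.1 hx'
    obtain ⟨y, hy, rfl⟩ := mem_Pe.1 hy'
    exact mem_Pe.2 ⟨_, le_comm hx hy, rfl⟩
  have h12 : ∀ x ∈ Pe H d i j, x.1 = 0 → x.2 = 0 := by
    intro x' hx' h
    obtain ⟨x, hx, rfl⟩ := mem_Pe.1 hx'
    exact hcon x hx h
  have ht1 : ∀ x ∈ Pe H d i j, LinearMap.trace ℂ (Fin (m i) → ℂ) x.1 = 0 := by
    intro x' hx'
    obtain ⟨x, hx, rfl⟩ := mem_Pe.1 hx'
    exact hx.1 i
  have hs1 : ∀ f, LinearMap.trace ℂ (Fin (m i) → ℂ) f = 0 → ∃ x ∈ Pe H d i j, x.1 = f := by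
    intro f hf
    obtain ⟨x, hx, rfl⟩ := T.surj d i f hf
    exact ⟨_, mem_Pe.2 ⟨x, hx, rfl⟩, rfl⟩
  have hs2 : ∀ f, LinearMap.trace ℂ (Fin (m j) → ℂ) f = 0 → ∃ x ∈ Pe H d i j, x.2 = f := by
    intro f hf
    obtain ⟨x, hx, rfl⟩ := T.surj d j f hf
    exact ⟨_, mem_Pe.2 ⟨x, hx, rfl⟩, rfl⟩
  have h21 : ∀ x ∈ Pe H d i j, x.2 = 0 → x.1 = 0 := fun x hx h =>
    back (hmj j) (Pe H d i j) hbr h12 ht1 hs1 hs2 hx h
  refine casimir (hmj i) (Pe H d i j) hbr h12 h21 hs1 (Qe H d i j) ?_ ?_ (T.hX i) (T.hX j) ?_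
    (T.two i j hij)
  · intro y hy
    obtain ⟨x, hx, rfl⟩ := mem_Qe.1 hy
    refine mem_Pe.2 ⟨_, le_of T.hm0 hx, ?_⟩
    rw [prr_apply, prr_apply]
  · intro δ y hy
    obtain ⟨x, hx, rfl⟩ := mem_Qe.1 hy
    exact mem_Qe.2 ⟨_, Re_der T.hH d δ hx, rfl⟩
  · intro δ
    exact mem_Qe.2 ⟨_, T.der d δ, rfl⟩

/-- **All families of operators with trace zero.** -/
theorem Det.top (T : Det H X X') (d : ℕ) (f : ∀ j, End ℂ (Fin (m j) → ℂ))
    (hf : ∀ j, LinearMap.trace ℂ (Fin (m j) → ℂ) (f j) = 0) : f ∈ le H d := by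
  refine goursat (k := ℂ) (A := fun j => End ℂ (Fin (m j) → ℂ))
    (fun j => LinearMap.ker (LinearMap.trace ℂ (Fin (m j) → ℂ))) ?_ ?_ ?_ ?_ ?_ ?_ f hf
  · intro j U hU hi Y hY hY0 f hf
    exact sl_simple (Pi.basisFun ℂ (Fin (m j))) U (fun f hf => hU hf)
      (fun f hf g hg => hi f hf g hg) hY hY0 f hf
  · intro j
    have hmj : 2 ≤ m j := by
      obtain ⟨r, hr⟩ := T.hm j
      have := T.hm0 j
      omega
    obtain ⟨F, hF, G, hG, hFG⟩ := sl_noncomm (Pi.basisFun ℂ (Fin (m j))) hmj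
    exact ⟨F, hF, G, hG, hFG⟩
  · intro x hx j
    exact hx.1 j
  · intro x hx y hy
    exact le_comm hx hy
  · intro j f hf
    exact T.surj d j f hf
  · intro i j hij
    exact T.noGraph d hij

end data

end Pool.Agent.TH164.Un
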