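import Pool.Agent.TH164.Un.Un1

/-!
# Levels of the spaces of alternating forms
-/

set_option autoImplicit false
set_option linter.unusedSectionVars false
set_option linter.unusedVariables false

open Module LieModule LieAlgebra LieAlgebra.IsKilling Function

namespace Pool.Agent.TH164.Un

open Pool.Agent.TH164.Spin

instance finForm {k W : Type*} [Field k] [AddCommGroup W] [Module k W] [FiniteDimensional k W]
    {p : ℕ} : FiniteDimensional k (W [⋀^Fin p]→ₗ[k] k) :=
  Module.Finite.of_injective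
    (AlternatingMap.toMultilinearMapLM (R := k) (S := k) (M := W) (N := k) (ι := Fin p))
    AlternatingMap.coe_multilinearMap_injective

/-! ### Tuples -/

section tup

variable {m p : ℕ}

/-- The tuple of a function. -/
def tup (p m : ℕ) (f : ℕ → ℕ) (hf : ∀ i < p, f i < m) : Fin p → Fin m := fun i => ⟨f i, hf i i.2⟩

/-- The number of large entries. -/
def cnt (a : Fin p → Fin m) (t : ℕ) : ℕ := (Finset.univ.filter fun i => t ≤ (a i : ℕ)).card

theorem cnt_ge {a : Fin p → Fin m} (ha : Injective a) (t : ℕ) : p - t ≤ cnt a t := by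
  have h1 : (Finset.univ.filter fun i : Fin p => ¬ t ≤ (a i : ℕ)).card ≤ t := by
    have h2 : (Finset.univ.filter fun i : Fin p => ¬ t ≤ (a i : ℕ)).card ≤
        (Finset.range t).card := by
      refine Finset.card_le_card_of_injOn (fun i => (a i : ℕ)) ?_ ?_
      · intro i hi
        rw [Finset.mem_coe, Finset.mem_filter] at hi
        rw [Finset.mem_coe, Finset.mem_range]
        exact not_le.1 hi.2
      · intro i _ j _ hij
        exact ha (Fin.ext hij)
    rwa [Finset.card_range] at h2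
  have h3 : cnt a t + (Finset.univ.filter fun i : Fin p => ¬ t ≤ (a i : ℕ)).card = p := by
    unfold cnt
    rw [Finset.card_filter_add_card_filter_not, Finset.card_univ, Fintype.card_fin]
  omega

/-- The excess. -/
def exc (a : Fin p → Fin m) (t : ℕ) : ℕ := cnt a t - (p - t)

theorem cnt_eq {a : Fin p → Fin m} (ha : Injective a) (t : ℕ) : cnt a t = exc a t + (p - t) := by
  have := cnt_ge ha t
  unfold exc
  omega

theorem exc_pos {a : Fin p → Fin m} (ha : Injective a) (h : ∃ i, p ≤ (a i : ℕ)) :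
    1 ≤ exc a p := by
  obtain ⟨i, hi⟩ := h
  have h1 : 0 < cnt a p := Finset.card_pos.2 ⟨i, Finset.mem_filter.2 ⟨Finset.mem_univ _, hi⟩⟩
  rw [cnt_eq ha] at h1
  omega

variable {X : Type*} [AddCommGroup X] (χ : ℕ → X)

/-- The differences. -/
def df (t : ℕ) : X := χ t - χ (t - 1)

theorem chi_eq (j : ℕ) : χ j = χ 0 + ∑ t ∈ Finset.Ico 1 (j + 1), df χ t := by
  induction j with
  | zero => simp
  | succ j ih =>
    rw [Finset.sum_Ico_succ_top (by omega), ← add_assoc, ← ih]
    unfold df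
    rw [Nat.add_sub_cancel]
    abel

theorem chi_eq' {j : ℕ} (hj : j < m) :
    χ j = χ 0 + ∑ t ∈ Finset.Ico 1 m, (if t ≤ j then 1 else 0) • df χ t := by
  rw [chi_eq χ j]
  congr 1
  simp only [ite_smul, one_smul, zero_smul]
  rw [← Finset.sum_filter]
  refine Finset.sum_congr ?_ fun _ _ => rfl
  ext t
  rw [Finset.mem_filter, Finset.mem_Ico, Finset.mem_Ico]
  omega

theorem sum_chi {a : Fin p → Fin m} (ha : Injective a) (hpm : p ≤ m) :
    ∑ i, χ (a i) = ∑ i ∈ Finset.range p, χ i + ∑ t ∈ Finset.Ico 1 m, exc a t • df χ t := by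
  have key : ∀ b : Fin p → Fin m, ∑ i, χ (b i) = p • χ 0 +
      ∑ t ∈ Finset.Ico 1 m, cnt b t • df χ t := by
    intro b
    have h1 : ∀ i, χ (b i) = χ 0 + ∑ t ∈ Finset.Ico 1 m,
        (if t ≤ (b i : ℕ) then 1 else 0) • df χ t := fun i => chi_eq' χ (b i).2
    rw [Finset.sum_congr rfl fun i _ => h1 i, Finset.sum_add_distrib, Finset.sum_const,
      Finset.card_univ, Fintype.card_fin, Finset.sum_comm]
    congr 1
    refine Finset.sum_congr rfl fun t _ => ?_
    rw [← Finset.sum_smul]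
    congr 1
    unfold cnt
    rw [Finset.card_filter]
  have h0 : ∑ i ∈ Finset.range p, χ i = ∑ i, χ ((Fin.castLE hpm i : Fin m) : ℕ) := by
    rw [← Fin.sum_univ_eq_sum_range]
    rfl
  have h2 : ∀ t, cnt (Fin.castLE hpm : Fin p → Fin m) t = p - t := by
    intro t
    have h3 := cnt_ge (a := (Fin.castLE hpm : Fin p → Fin m)) (Fin.castLE_injective hpm) t
    refine le_antisymm ?_ h3
    have h4 : (Finset.univ.filter fun i : Fin p => t ≤ ((Fin.castLE hpm i : Fin m) : ℕ)).card ≤
        (Finset.Ico t p).card := by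
      refine Finset.card_le_card_of_injOn (fun i => (i : ℕ)) ?_ ?_
      · intro i hi
        rw [Finset.mem_coe, Finset.mem_filter] at hi
        rw [Finset.mem_coe, Finset.mem_Ico]
        exact ⟨hi.2, i.2⟩
      · intro i _ j _ hij
        exact Fin.ext hij
    rwa [Nat.card_Ico] at h4
  rw [h0, key, key (Fin.castLE hpm), add_assoc, ← Finset.sum_add_distrib]
  congr 1
  refine Finset.sum_congr rfl fun t _ => ?_
  rw [h2, ← add_smul, cnt_eq ha, add_comm]

end tup

section im

variable {m p : ℕ}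

theorem im_zero {a : Fin p → Fin m} (ha : Injective a) (hpm : p ≤ m) (h : ∀ i, (a i : ℕ) < p) :
    im a = im (Fin.castLE hpm : Fin p → Fin m) := by
  refine Finset.eq_of_subset_of_card_le ?_ (by
    rw [card_im ha, card_im (Fin.castLE_injective hpm)])
  intro x hx
  obtain ⟨i, rfl⟩ := mem_im.1 hx
  exact mem_im.2 ⟨⟨a i, h i⟩, Fin.ext rfl⟩

/-- The second tuple. -/
def bb (q m : ℕ) (h : q + 1 < m) : Fin (q + 1) → Fin m :=
  tup (q + 1) m (fun i => if i = q then q + 1 else i) (by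
    intro i hi
    by_cases h1 : i = q
    · simp only [h1, if_true]
      exact h
    · simp only [if_neg h1]
      omega)

theorem bb_inj {q : ℕ} (h : q + 1 < m) : Injective (bb q m h) := by
  intro i j hij
  have h1 := congrArg Fin.val hij
  change (if (i : ℕ) = q then q + 1 else (i : ℕ)) = (if (j : ℕ) = q then q + 1 else (j : ℕ)) at h1
  apply Fin.ext
  have := i.2
  have := j.2
  split_ifs at h1 <;> omega

theorem mem_im_bb {q : ℕ} (h : q + 1 < m) {x : Fin m} :
    x ∈ im (bb q m h) ↔ (x : ℕ) < q ∨ (x : ℕ) = q + 1 := by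
  rw [mem_im]
  constructor
  · rintro ⟨i, rfl⟩
    change (if (i : ℕ) = q then q + 1 else (i : ℕ)) < q ∨
      (if (i : ℕ) = q then q + 1 else (i : ℕ)) = q + 1
    have := i.2
    split_ifs <;> omega
  · rintro (h1 | h1)
    · refine ⟨⟨x, by omega⟩, Fin.ext ?_⟩
      change (if (x : ℕ) = q then q + 1 else (x : ℕ)) = x
      rw [if_neg (by omega)]
    · refine ⟨⟨q, by omega⟩, Fin.ext ?_⟩
      change (if q = q then q + 1 else q) = (x : ℕ)
      rw [if_pos rfl, h1]

theorem im_one {q : ℕ} (h : q + 1 < m) {a : Fin (q + 1) → Fin m} (ha : Injective a)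
    (h1 : exc a (q + 1) = 1) (h2 : ∀ t, 1 ≤ t → t < m → t ≠ q + 1 → exc a t = 0) :
    im a = im (bb q m h) := by
  refine Finset.eq_of_subset_of_card_le ?_ (by rw [card_im ha, card_im (bb_inj h)])
  intro x hx
  obtain ⟨i, rfl⟩ := mem_im.1 hx
  rw [mem_im_bb]
  have h3 : (a i : ℕ) < q + 2 := by
    by_contra hcon
    push Not at hcon
    have h4 : exc a (q + 2) = 0 := h2 (q + 2) (by omega) (by have := (a i).2; omega) (by omega)
    have h5 : 0 < cnt a (q + 2) :=
      Finset.card_pos.2 ⟨i, Finset.mem_filter.2 ⟨Finset.mem_univ _, hcon⟩⟩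
    rw [cnt_eq ha, h4] at h5
    omega
  by_cases h4 : (a i : ℕ) < q + 1
  · left
    by_contra h5
    have h6 : cnt a (q + 1) = 1 := by
      rw [cnt_eq ha, h1]
      omega
    obtain ⟨j, hj⟩ := Finset.card_pos.1 (by
      change 0 < cnt a (q + 1)
      rw [h6]
      exact one_pos)
    rw [Finset.mem_filter] at hj
    have hij : i ≠ j := by
      rintro rfl
      omega
    have hq : 1 ≤ q := by
      by_contra hq
      have h7 : q = 0 := by omega
      subst h7
      exact hij (Subsingleton.elim (α := Fin 1) _ _)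
    have h7 : exc a q = 0 := h2 q hq (by omega) (by omega)
    have h8 : cnt a q = 1 := by
      rw [cnt_eq ha, h7]
      omega
    have h9 : 1 < cnt a q := by
      refine Finset.one_lt_card.2 ⟨i, ?_, j, ?_, hij⟩
      · rw [Finset.mem_filter]
        exact ⟨Finset.mem_univ _, by omega⟩
      · rw [Finset.mem_filter]
        exact ⟨Finset.mem_univ _, by omega⟩
    omega
  · right
    omega

end im

/-! ### The principle of the highest vector -/

variable {k L : Type*} [Field k] [IsAlgClosed k] [CharZero k] [LieRing L] [LieAlgebra k L]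
  [FiniteDimensional k L] [LieAlgebra.IsKilling k L] {H : LieSubalgebra k L}
  [H.IsCartanSubalgebra]
variable {W : Type*} [AddCommGroup W] [Module k W] [LieRingModule L W] [LieModule k L W]
  [FiniteDimensional k W]

/-- Every nonzero submodule of the forms contains the decomposable forms. -/
def DecIn (L W : Type*) [LieRing L] [LieAlgebra k L] [AddCommGroup W] [Module k W]
    [LieRingModule L W] [LieModule k L W] (p : ℕ) : Prop :=
  ∀ U : Submodule k (W [⋀^Fin p]→ₗ[k] k), (∀ x : L, ∀ ω ∈ U, ⁅x, ω⁆ ∈ U) → U ≠ ⊥ →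
    ∀ ξ : Fin p → Dual k W, dec ξ ∈ U

theorem exists_sub {V : Type*} [AddCommGroup V] [Module k V] [LieRingModule L V]
    [LieModule k L V] {φ : (H → k) →ₗ[ℚ] ℚ} (hφ : ∀ β, IsRt H β → φ β ≠ 0) {μ : H → k} {u : V}
    (hu : u ∈ wt H V μ) (hk : ∀ β, 0 < φ β → ∀ x ∈ wt H L β, ⁅x, u⁆ = 0) :
    ∃ U : Submodule k V, (∀ x : L, ∀ v ∈ U, ⁅x, v⁆ ∈ U) ∧ u ∈ U ∧
      U ≤ Submodule.span k {u} ⊔ lv (H := H) (M := V) (fun χ => φ χ < φ μ) := by
  set X : Set (V →ₗ[k] V) := {f | ∃ β, φ β < 0 ∧ ∃ x ∈ wt H L β, f = toEnd k L V x} with hX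
  set Y : Set (V →ₗ[k] V) := Set.range (toEnd k L V) with hY
  have h1 : ∀ y ∈ Y, ∀ v ∈ Submodule.span k {u}, y v ∈ gen X (Submodule.span k {u}) := by
    rintro _ ⟨t, rfl⟩ v hv
    obtain ⟨c, rfl⟩ := Submodule.mem_span_singleton.1 hv
    rw [map_smul]
    refine Submodule.smul_mem _ _ ?_
    refine (diag_L (H := H)).induction (p := fun t => toEnd k L V t u ∈
      gen X (Submodule.span k {u})) t ?_ ?_ ?_
    · intro β x hx
      rcases lt_trichotomy (φ β) 0 with h2 | h2 | h2
      · have h3 : toEnd k L V x ∈ X := ⟨β, h2, x, hx, rfl⟩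
        exact gen_stable h3 (le_gen (Submodule.mem_span_singleton_self u))
      · by_cases hx0 : x = 0
        · rw [hx0, map_zero, LinearMap.zero_apply]
          exact Submodule.zero_mem _
        · have h3 : β = 0 := by
            by_contra h3
            exact hφ β ⟨h3, (Submodule.ne_bot_iff _).2 ⟨x, hx, hx0⟩⟩ h2
          rw [h3] at hx
          have h4 : x ∈ H := wt_zero_L.1 hx
          have h5 := hu ⟨x, h4⟩
          have h6 : toEnd k L V x u = μ ⟨x, h4⟩ • u := h5
          rw [h6]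
          exact Submodule.smul_mem _ _ (le_gen (Submodule.mem_span_singleton_self u))
      · have h3 : toEnd k L V x u = 0 := hk β h2 x hx
        rw [h3]
        exact Submodule.zero_mem _
    · rw [map_zero, LinearMap.zero_apply]
      exact Submodule.zero_mem _
    · intro a b ha hb
      rw [map_add, LinearMap.add_apply]
      exact Submodule.add_mem _ ha hb
  have h2 := gen_transfer h1 (by
    rintro _ ⟨a, rfl⟩ _ ⟨β, hβ, b, hb, rfl⟩ v hv hyv
    have h3 : toEnd k L V a (toEnd k L V b v) = toEnd k L V ⁅a, b⁆ v +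
        toEnd k L V b (toEnd k L V a v) := leibniz_lie a b v
    rw [h3]
    refine Submodule.add_mem _ (hyv _ (Set.mem_range_self _)) ?_
    have h4 : toEnd k L V b ∈ X := ⟨β, hβ, b, hb, rfl⟩
    exact gen_stable h4 (hyv _ (Set.mem_range_self _)))
  refine ⟨gen X (Submodule.span k {u}), fun x v hv => h2 _ (Set.mem_range_self x) v hv,
    le_gen (Submodule.mem_span_singleton_self u), ?_⟩
  refine gen_le le_sup_left ?_
  rintro _ ⟨β, hβ, x, hx, rfl⟩ v hv
  have key : ∀ ψ : H → k, φ ψ ≤ φ μ → ∀ s ∈ wt H V ψ, toEnd k L V x s ∈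
      lv (H := H) (M := V) (fun χ => φ χ < φ μ) := by
    intro ψ hψ s hs
    have h5 : ⁅x, s⁆ ∈ wt H V (ψ + β) := lie_mem_wt hx hs
    refine wt_le_lv (P := fun χ => φ χ < φ μ) ?_ h5
    rw [map_add]
    linarith
  obtain ⟨v1, hv1, v2, hv2, rfl⟩ := Submodule.mem_sup.1 hv
  rw [map_add]
  refine Submodule.mem_sup_right (Submodule.add_mem _ ?_ ?_)
  · obtain ⟨c, rfl⟩ := Submodule.mem_span_singleton.1 hv1
    rw [map_smul]
    exact Submodule.smul_mem _ _ (key μ le_rfl u hu)
  · exact lv_map (f := toEnd k L V x) (fun ψ hψ s hs => key ψ (le_of_lt hψ) s hs) hv2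

theorem killed {p : ℕ} (hD : DecIn (k := k) L W p) {φ : (H → k) →ₗ[ℚ] ℚ}
    (hφ : ∀ β, IsRt H β → φ β ≠ 0) {μ : H → k} {u : W [⋀^Fin p]→ₗ[k] k}
    (hu : u ∈ wt H (W [⋀^Fin p]→ₗ[k] k) μ) (h0 : u ≠ 0)
    (hk : ∀ β, 0 < φ β → ∀ x ∈ wt H L β, ⁅x, u⁆ = 0) {ν : H → k} (hν : φ μ ≤ φ ν)
    {ξ : Fin p → Dual k W} (hξ : dec ξ ∈ wt H (W [⋀^Fin p]→ₗ[k] k) ν) :
    dec ξ ∈ Submodule.span k {u} := by
  obtain ⟨U, hU, huU, h4⟩ := exists_sub hφ hu hk
  have h3 : dec ξ ∈ U := hD U hU ((Submodule.ne_bot_iff _).2 ⟨u, huU, h0⟩) ξ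
  obtain ⟨v1, hv1, v2, hv2, h5⟩ := Submodule.mem_sup.1 (h4 h3)
  have h6 : v2 = 0 := by
    have h7 : v2 = dec ξ - v1 := by rw [← h5, add_sub_cancel_left]
    have h8 : v2 ∈ lv (H := H) (M := W [⋀^Fin p]→ₗ[k] k) (fun χ => φ μ ≤ φ χ) := by
      rw [h7]
      refine Submodule.sub_mem _ (wt_le_lv (P := fun χ => φ μ ≤ φ χ) hν hξ) ?_
      obtain ⟨c, rfl⟩ := Submodule.mem_span_singleton.1 hv1
      exact Submodule.smul_mem _ _ (wt_le_lv (P := fun χ => φ μ ≤ φ χ) le_rfl hu)
    exact eq_zero_of_mem_lv (fun χ h9 h10 => absurd h9 (not_lt.2 h10)) hv2 h8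
  rw [← h5, h6, add_zero]
  exact hv1

end Pool.Agent.TH164.Un
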