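import Pool.Agent.TH164.Un.Un17
import Pool.Agent.TH164.Un.Un19

/-!
# The product of the special linear groups
-/

set_option autoImplicit false
set_option linter.unusedSectionVars false
set_option linter.unusedVariables false

open Module Matrix Function

namespace Pool.Agent.TH164.Un

open Pool.Agent.TH164.Spin Pool.Agent.TH119.MX Pool.Agent.TH119.DR Pool.Agent.TH164.A1

variable {J : Type} [Fintype J] [DecidableEq J] {m : J → ℕ}
variable {H : Set (Matrix (Σ j, Fin (m j)) (Σ j, Fin (m j)) ℂ)}

section data

variable {X X' : MJ m}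

/-- One block in the stabilizer. -/
def Rt2 (H : Set (Matrix (Σ j, Fin (m j)) (Σ j, Fin (m j)) ℂ)) (d : ℕ)
    (j : J) : Submodule ℂ ((Fin (m j) → ℂ) →ₗ[ℂ] (Fin (m j) → ℂ)) where
  carrier := {f | Stab H d (b2 (Pi.single j (LinearMap.toMatrix' f) : MJ m))}
  zero_mem' := by
    change Stab H d (b2 (Pi.single j (LinearMap.toMatrix' 0) : MJ m))
    rw [map_zero, Pi.single_zero, b2_zero]
    exact Stab.zero
  add_mem' := by
    intro f g hf hg
    change Stab H d (b2 (Pi.single j (LinearMap.toMatrix' (f + g)) : MJ m))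
    have h1 := hf.add hg
    rwa [b2_add, ← Pi.single_add, ← map_add] at h1
  smul_mem' := by
    intro a f hf
    change Stab H d (b2 (Pi.single j (LinearMap.toMatrix' (a • f)) : MJ m))
    have h1 := hf.smul a
    rwa [b2_smul, ← Pi.single_smul, ← map_smul] at h1

theorem mem_Rt2 {d : ℕ} {j : J} {f : (Fin (m j) → ℂ) →ₗ[ℂ] (Fin (m j) → ℂ)} : f ∈ Rt2 H d j ↔
    Stab H d (b2 (Pi.single j (LinearMap.toMatrix' f) : MJ m)) := Iff.rfl

theorem Rt2_comm {d : ℕ} {j : J} {f g : (Fin (m j) → ℂ) →ₗ[ℂ] (Fin (m j) → ℂ)}
    (hf : f ∈ Rt2 H d j) (hg : g ∈ Rt2 H d j) : f ∘ₗ g - g ∘ₗ f ∈ Rt2 H d j := by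
  have h1 := Stab.comm (mem_Rt2.1 hf) (mem_Rt2.1 hg)
  rw [b2_mul, b2_mul, b2_sub, sing_mul, sing_mul, ← Pi.single_sub,
    ← LinearMap.toMatrix'_comp, ← LinearMap.toMatrix'_comp, ← map_sub] at h1
  exact mem_Rt2.2 h1

theorem Det.el (T : Det H X X') (d : ℕ) (j : J) {a b : Fin (m j)} (hab : a ≠ b) :
    El (Pi.basisFun ℂ (Fin (m j))) a b ∈ Rt2 H d j := by
  set w := Pi.basisFun ℂ (Fin (m j)) with hw
  set F : ∀ j, End ℂ (Fin (m j) → ℂ) := Pi.single j (El w a a - El w b b) with hF
  set G : ∀ j, End ℂ (Fin (m j) → ℂ) := Pi.single j (El w a b) with hG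
  have hf := T.top d F (by
    intro i
    by_cases hij : i = j
    · subst hij
      rw [hF, Pi.single_eq_same]
      exact trace_El' a b
    · rw [hF, Pi.single_eq_of_ne hij, map_zero])
  have hg := T.top d G (by
    intro i
    by_cases hij : i = j
    · subst hij
      rw [hG, Pi.single_eq_same]
      exact trace_El hab
    · rw [hG, Pi.single_eq_of_ne hij, map_zero])
  have h1 := mem_Re.1 (le_comm' hf hg)
  have h2 : (fun i => LinearMap.toMatrix' ((F * G - G * F) i) : MJ m) =
      (2 : ℂ) • Pi.single j (LinearMap.toMatrix' (El w a b)) := by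
    funext i
    rw [Pi.smul_apply]
    by_cases hij : i = j
    · subst hij
      rw [Pi.sub_apply, Pi.mul_apply, Pi.mul_apply, hF, hG, Pi.single_eq_same, Pi.single_eq_same,
        Pi.single_eq_same, ← map_smul]
      congr 1
      change (El w a a - El w b b) ∘ₗ El w a b - El w a b ∘ₗ (El w a a - El w b b) = _
      rw [LinearMap.sub_comp, LinearMap.comp_sub, El_comp, El_comp, El_comp, El_comp,
        if_pos rfl, if_neg hab.symm, if_neg hab.symm, if_pos rfl, two_smul]
      abel
    · rw [Pi.sub_apply, Pi.mul_apply, Pi.mul_apply, hF, hG, Pi.single_eq_of_ne hij,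
        Pi.single_eq_of_ne hij, Pi.single_eq_of_ne hij, mul_zero, sub_zero, map_zero, smul_zero]
  have h3 : Stab H d (b2 ((2 : ℂ) • Pi.single j (LinearMap.toMatrix' (El w a b)) : MJ m)) := by
    rw [← h2]
    exact h1
  have h6 := h3.smul (2 : ℂ)⁻¹
  rw [b2_smul, smul_smul, inv_mul_cancel₀ two_ne_zero, one_smul] at h6
  exact mem_Rt2.2 h6

/-- One block. -/
theorem Det.single (T : Det H X X') (d : ℕ) (j : J) (y : Matrix (Fin (m j)) (Fin (m j)) ℂ)
    (hy : y.trace = 0) : Stab H d (b2 (Pi.single j y : MJ m)) := by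
  have h1 := gen_sl (Pi.basisFun ℂ (Fin (m j))) (Rt2 H d j) (fun f hf g hg => Rt2_comm hf hg)
    (fun q h => T.el d j (by
      intro h1
      have := congrArg Fin.val h1
      simp only at this
      omega)) (fun q h => T.el d j (by
      intro h1
      have := congrArg Fin.val h1
      simp only at this
      omega)) (f := Matrix.toLin' y) (by
    rw [LinearMap.trace_eq_matrix_trace ℂ (Pi.basisFun ℂ (Fin (m j)))]
    rw [← hy]
    congr 1
    exact LinearMap.toMatrix'_toLin' y)
  have h2 := mem_Rt2.1 h1
  rwa [LinearMap.toMatrix'_toLin'] at h2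

end data

/-! ### The special linear group -/

/-- Matrices of size two inside of matrices of size `n`. -/
def M2 {n : ℕ} (a b : Fin n) (p q r s : ℂ) : Matrix (Fin n) (Fin n) ℂ :=
  1 + ((p - 1) • Matrix.single a a (1 : ℂ) + q • Matrix.single a b (1 : ℂ) +
    r • Matrix.single b a (1 : ℂ) + (s - 1) • Matrix.single b b (1 : ℂ))

theorem M2_mul {n : ℕ} {a b : Fin n} (hab : a ≠ b) (p q r s p' q' r' s' : ℂ) :
    M2 a b p q r s * M2 a b p' q' r' s' =
      M2 a b (p * p' + q * r') (p * q' + q * s') (r * p' + s * r') (r * q' + s * s') := by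
  unfold M2
  set A := Matrix.single a a (1 : ℂ) with hA
  set B := Matrix.single a b (1 : ℂ) with hB
  set C := Matrix.single b a (1 : ℂ) with hC
  set E := Matrix.single b b (1 : ℂ) with hE
  have e1 : A * A = A := by rw [hA, Matrix.single_mul_single_same, mul_one]
  have e2 : A * B = B := by rw [hA, hB, Matrix.single_mul_single_same, mul_one]
  have e3 : A * C = 0 := by rw [hA, hC, Matrix.single_mul_single_of_ne _ _ _ _ hab]
  have e4 : A * E = 0 := by rw [hA, hE, Matrix.single_mul_single_of_ne _ _ _ _ hab]
  have e5 : B * A = 0 := by rw [hA, hB, Matrix.single_mul_single_of_ne _ _ _ _ hab.symm]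
  have e6 : B * B = 0 := by rw [hB, Matrix.single_mul_single_of_ne _ _ _ _ hab.symm]
  have e7 : B * C = A := by rw [hA, hB, hC, Matrix.single_mul_single_same, mul_one]
  have e8 : B * E = B := by rw [hB, hE, Matrix.single_mul_single_same, mul_one]
  have e9 : C * A = C := by rw [hA, hC, Matrix.single_mul_single_same, mul_one]
  have e10 : C * B = E := by rw [hB, hC, hE, Matrix.single_mul_single_same, mul_one]
  have e11 : C * C = 0 := by rw [hC, Matrix.single_mul_single_of_ne _ _ _ _ hab]
  have e12 : C * E = 0 := by rw [hC, hE, Matrix.single_mul_single_of_ne _ _ _ _ hab]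
  have e13 : E * A = 0 := by rw [hA, hE, Matrix.single_mul_single_of_ne _ _ _ _ hab.symm]
  have e14 : E * B = 0 := by rw [hB, hE, Matrix.single_mul_single_of_ne _ _ _ _ hab.symm]
  have e15 : E * C = C := by rw [hC, hE, Matrix.single_mul_single_same, mul_one]
  have e16 : E * E = E := by rw [hE, Matrix.single_mul_single_same, mul_one]
  clear_value A B C E
  simp only [Matrix.add_mul, Matrix.mul_add, Matrix.smul_mul, Matrix.mul_smul, Matrix.one_mul,
    Matrix.mul_one, e1, e2, e3, e4, e5, e6, e7, e8, e9, e10, e11, e12, e13, e14, e15, e16,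
    smul_zero, add_zero, zero_add]
  module

theorem M2_diag {n : ℕ} {a b : Fin n} (hab : a ≠ b) (u v : ℂ) :
    M2 a b u 0 0 v = Matrix.diagonal fun x => if x = a then u else if x = b then v else 1 := by
  ext i j
  unfold M2
  simp only [Matrix.add_apply, Matrix.smul_apply, Matrix.one_apply, Matrix.diagonal_apply,
    Matrix.single_apply, zero_smul, Matrix.zero_apply, smul_eq_mul]
  by_cases hij : i = j
  · subst hij
    by_cases hia : a = i
    · subst hia
      have hba : ¬ b = a := fun h => hab h.symm
      simp [hba]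
    · by_cases hib : b = i
      · subst hib
        have hba : ¬ b = a := fun h => hab h.symm
        simp [hia, hba]
      · have h1 : ¬ i = a := fun h => hia h.symm
        have h2 : ¬ i = b := fun h => hib h.symm
        simp [hia, hib, h1, h2]
  · have h1 : ¬ (a = i ∧ a = j) := fun h => hij (h.1.symm.trans h.2)
    have h2 : ¬ (b = i ∧ b = j) := fun h => hij (h.1.symm.trans h.2)
    simp [hij, h1, h2]

section pres

variable (hS : ∀ d (j : J) (y : Matrix (Fin (m j)) (Fin (m j)) ℂ), y.trace = 0 →
  Stab H d (b2 (Pi.single j y : MJ m)))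

include hS

theorem pre_id : Pres H (b2 (1 : MJ m)) := by
  have h4 := pres_of_stab (X := (0 : Matrix (Σ j, Fin (m j)) (Σ j, Fin (m j)) ℂ)) (ε := 1)
    (H := H) (by rw [Matrix.mul_zero, smul_zero]) (fun d => Stab.zero) 0
  rw [smul_zero, add_zero] at h4
  rw [b2_one]
  exact h4

theorem pre_nil (j : J) {a b : Fin (m j)} (hab : a ≠ b) (c : ℂ) :
    Pres H (b2 (Function.update (1 : MJ m) j (1 + c • Matrix.single a b (1 : ℂ)))) := by
  have h4 := pres_of_stab (X := b2 (Pi.single j (Matrix.single a b (1 : ℂ)) : MJ m))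
    (ε := 0) (H := H) (by
      rw [b2_mul, sing_mul, Matrix.single_mul_single_of_ne _ _ _ _ hab.symm,
        Pi.single_zero, b2_zero, zero_smul])
    (fun d => hS d j _ (Matrix.trace_single_eq_of_ne _ _ _ hab)) c
  rw [b2_smul, ← b2_one, b2_add] at h4
  have h2 : (1 : MJ m) + c • (Pi.single j (Matrix.single a b (1 : ℂ)) : MJ m) =
      Function.update (1 : MJ m) j (1 + c • Matrix.single a b (1 : ℂ)) := by
    funext i
    by_cases hij : i = j
    · subst hij
      rw [update_self, Pi.add_apply, Pi.smul_apply, Pi.single_eq_same, Pi.one_apply]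
    · rw [update_of_ne hij, Pi.add_apply, Pi.smul_apply, Pi.single_eq_of_ne hij, smul_zero,
        add_zero]
  rw [h2] at h4
  exact h4

theorem pre_el (j : J) {a b : Fin (m j)} (hab : a ≠ b) {u : ℂ} (hu : u ≠ 0) :
    Pres H (b2 (Function.update (1 : MJ m) j
      (Matrix.diagonal fun x => if x = a then u else if x = b then u⁻¹ else 1))) := by
  have hup : ∀ c, Pres H (b2 (Function.update (1 : MJ m) j (M2 a b 1 c 0 1))) := by
    intro c
    have h1 := pre_nil hS j hab c
    have h2 : M2 a b 1 c 0 1 = 1 + c • Matrix.single a b (1 : ℂ) := by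
      unfold M2
      simp
    rwa [← h2] at h1
  have hlo : ∀ c, Pres H (b2 (Function.update (1 : MJ m) j (M2 a b 1 0 c 1))) := by
    intro c
    have h1 := pre_nil hS j hab.symm c
    have h2 : M2 a b 1 0 c 1 = 1 + c • Matrix.single b a (1 : ℂ) := by
      unfold M2
      simp
    rwa [← h2] at h1
  have h1 := ((((hup u).mul (hlo (-u⁻¹))).mul (hup (u - 1))).mul (hlo 1)).mul (hup (-1))
  rw [b2_mul, b2_mul, b2_mul, b2_mul, upd_mul, upd_mul, upd_mul, upd_mul, M2_mul hab, M2_mul hab,
    M2_mul hab, M2_mul hab] at h1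
  have h2 : M2 a b u 0 0 u⁻¹ = Matrix.diagonal fun x =>
    if x = a then u else if x = b then u⁻¹ else 1 := M2_diag hab u u⁻¹
  rw [← h2]
  convert h1 using 4
  congr 1
  all_goals
    field_simp
    try ring

theorem pre_diag (j : J) (o : Fin (m j)) (E : Fin (m j) → ℂ) (hE : ∏ a, E a = 1) :
    Pres H (b2 (Function.update (1 : MJ m) j (Matrix.diagonal E))) := by
  have hE0 : ∀ a, E a ≠ 0 := fun a h => by
    rw [Finset.prod_eq_zero (Finset.mem_univ a) h] at hE
    exact zero_ne_one hE
  have key : ∀ s : Finset (Fin (m j)), o ∉ s → Pres H (b2 (Function.update (1 : MJ m) j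
      (Matrix.diagonal fun x => if x = o then ∏ a ∈ s, (E a)⁻¹ else
        if x ∈ s then E x else 1))) := by
    intro s
    induction s using Finset.induction_on with
    | empty =>
      intro _
      have h1 : (Matrix.diagonal fun x : Fin (m j) => if x = o then
          ∏ a ∈ (∅ : Finset (Fin (m j))), (E a)⁻¹ else if x ∈ (∅ : Finset (Fin (m j))) then E x
          else 1) = 1 := by
        rw [← Matrix.diagonal_one]
        congr 1
        funext x
        rw [Finset.prod_empty, if_neg (Finset.notMem_empty x), ite_self]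
      rw [h1, show Function.update (1 : MJ m) j 1 = 1 from Function.update_eq_self j 1]
      exact pre_id hS
    | insert b s hb ih =>
      intro h
      rw [Finset.mem_insert, not_or] at h
      have h1 := (pre_el hS j (a := b) (b := o) (Ne.symm h.1) (hE0 b)).mul (ih h.2)
      rw [b2_mul, upd_mul, Matrix.diagonal_mul_diagonal] at h1
      have h2 : (fun x => (if x = b then E b else if x = o then (E b)⁻¹ else 1) *
          (if x = o then ∏ a ∈ s, (E a)⁻¹ else if x ∈ s then E x else 1)) =
          fun x => if x = o then ∏ a ∈ insert b s, (E a)⁻¹ else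
            if x ∈ insert b s then E x else 1 := by
        funext x
        by_cases h3 : x = o
        · have h4 : x ≠ b := fun h5 => h.1 (h3.symm.trans h5)
          rw [if_neg h4, if_pos h3, if_pos h3, if_pos h3, Finset.prod_insert hb]
        · rw [if_neg h3, if_neg h3, if_neg h3]
          by_cases h4 : x = b
          · rw [if_pos h4, if_neg (by rw [h4]; exact hb), if_pos (by
              rw [h4]
              exact Finset.mem_insert_self b s), mul_one, h4]
          · rw [if_neg h4, one_mul]
            by_cases h5 : x ∈ s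
            · rw [if_pos h5, if_pos (Finset.mem_insert_of_mem h5)]
            · rw [if_neg h5, if_neg (by
                rw [Finset.mem_insert, not_or]
                exact ⟨h4, h5⟩)]
      rw [h2] at h1
      exact h1
  have h1 := key (Finset.univ.erase o) (Finset.notMem_erase _ _)
  have h2 : (fun x => if x = o then ∏ a ∈ Finset.univ.erase o, (E a)⁻¹ else
      if x ∈ Finset.univ.erase o then E x else 1) = E := by
    funext x
    by_cases h3 : x = o
    · rw [if_pos h3, h3]
      have h4 := Finset.mul_prod_erase Finset.univ E (Finset.mem_univ o)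
      rw [hE] at h4
      rw [Finset.prod_inv_distrib]
      exact (eq_inv_of_mul_eq_one_left h4).symm
    · rw [if_neg h3, if_pos (Finset.mem_erase.2 ⟨h3, Finset.mem_univ _⟩)]
  rw [h2] at h1
  exact h1

theorem pre_sl (j : J) (o : Fin (m j)) (M : Matrix (Fin (m j)) (Fin (m j)) ℂ)
    (hM : M.det = 1) : Pres H (b2 (Function.update (1 : MJ m) j M)) := by
  refine Matrix.diagonal_transvection_induction
    (fun M => Pres H (b2 (Function.update (1 : MJ m) j M))) M ?_ ?_ ?_
  · intro E hE
    rw [hM, Matrix.det_diagonal] at hE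
    exact pre_diag hS j o E hE
  · intro t
    have h1 := pre_nil hS j t.hij t.c
    have h2 : t.toMatrix = 1 + t.c • Matrix.single t.i t.j (1 : ℂ) := by
      unfold TransvectionStruct.toMatrix Matrix.transvection
      rw [Matrix.smul_single, smul_eq_mul, mul_one]
    rw [h2]
    exact h1
  · intro A B hA hB
    have h1 := hA.mul hB
    rwa [b2_mul, upd_mul] at h1

theorem pre_sls (hm0 : ∀ j, 0 < m j) (g : MJ m) (hg : ∀ j, (g j).det = 1) :
    Pres H (b2 g) := by
  have key : ∀ s : Finset J, Pres H (b2 (fun j => if j ∈ s then g j else 1 : MJ m)) := by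
    intro s
    induction s using Finset.induction_on with
    | empty =>
      have h1 : (fun j => if j ∈ (∅ : Finset J) then g j else 1 : MJ m) = 1 := by
        funext j
        rw [if_neg (Finset.notMem_empty j)]
        rfl
      rw [h1]
      exact pre_id hS
    | insert a s ha ih =>
      have h1 := (pre_sl hS a ⟨0, hm0 a⟩ (g a) (hg a)).mul ih
      rw [b2_mul] at h1
      have h2 : (Function.update (1 : MJ m) a (g a)) * (fun j => if j ∈ s then g j else 1) =
          fun j => if j ∈ insert a s then g j else 1 := by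
        funext j
        rw [Pi.mul_apply]
        by_cases hja : j = a
        · subst hja
          rw [update_self, if_neg ha, if_pos (Finset.mem_insert_self j s), mul_one]
        · rw [update_of_ne hja, Pi.one_apply, one_mul]
          by_cases h5 : j ∈ s
          · rw [if_pos h5, if_pos (Finset.mem_insert_of_mem h5)]
          · rw [if_neg h5, if_neg (by
              rw [Finset.mem_insert, not_or]
              exact ⟨hja, h5⟩)]
      rw [h2] at h1
      exact h1
  have h1 := key Finset.univ
  have h2 : (fun j => if j ∈ (Finset.univ : Finset J) then g j else 1 : MJ m) = g := by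
    funext j
    rw [if_pos (Finset.mem_univ j)]
  rwa [h2] at h1

end pres

end Pool.Agent.TH164.Un
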