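import Pool.Agent.TH164.Un.Un2

/-!
# Roots from the second level
-/

set_option autoImplicit false
set_option linter.unusedSectionVars false
set_option linter.unusedVariables false

open Module LieModule LieAlgebra LieAlgebra.IsKilling Function

namespace Pool.Agent.TH164.Un

open Pool.Agent.TH164.Spin

variable {k L : Type*} [Field k] [IsAlgClosed k] [CharZero k] [LieRing L] [LieAlgebra k L]
  [FiniteDimensional k L] [LieAlgebra.IsKilling k L] {H : LieSubalgebra k L}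
  [H.IsCartanSubalgebra]
variable {W : Type*} [AddCommGroup W] [Module k W] [LieRingModule L W] [LieModule k L W]
  [FiniteDimensional k W]

theorem wt_lin {M : Type*} [AddCommGroup M] [Module k M] [LieRingModule L M] [LieModule k L M]
    {χ : H → k} (h : wt H M χ ≠ ⊥) : ∃ Λ : Dual k H, ∀ x, Λ x = χ x := by
  obtain ⟨m, hm, h0⟩ := Submodule.exists_mem_ne_zero_of_ne_bot h
  refine ⟨{ toFun := χ, map_add' := ?_, map_smul' := ?_ }, fun x => rfl⟩
  · intro x y
    have h1 := hm (x + y)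
    have h2 : ((x + y : H) : L) = (x : L) + (y : L) := rfl
    rw [h2, add_lie, hm x, hm y, ← add_smul] at h1
    exact (smul_left_injective k h0 h1).symm
  · intro c x
    have h1 := hm (c • x)
    have h2 : ((c • x : H) : L) = c • (x : L) := rfl
    rw [h2, smul_lie, hm x, smul_smul] at h1
    exact (smul_left_injective k h0 h1).symm

/-- The element of the Cartan subalgebra dual to a weight. -/
theorem exists_dual {M : Type*} [AddCommGroup M] [Module k M] [LieRingModule L M]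
    [LieModule k L M] {χ : H → k} (h : wt H M χ ≠ ⊥) :
    ∃ x : H, ∀ β, IsRt H β → (β x = 0 ↔ χ (cv β) = 0) := by
  obtain ⟨Λ, hΛ⟩ := wt_lin h
  refine ⟨(cartanEquivDual H).symm Λ, fun β hβ => ?_⟩
  have h1 := traceForm_coroot (wgt hβ) ((cartanEquivDual H).symm Λ)
  have h2 : traceForm k H L (coroot (wgt hβ)) ((cartanEquivDual H).symm Λ) =
      Λ (coroot (wgt hβ)) := by
    rw [traceForm_comm]
    have h3 : cartanEquivDual H ((cartanEquivDual H).symm Λ) (coroot (wgt hβ)) =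
        Λ (coroot (wgt hβ)) := by
      rw [LinearEquiv.apply_symm_apply]
    rw [← h3]
    rfl
  rw [h2, hΛ, ← cv_eq hβ] at h1
  rw [h1]
  have h4 := root_apply_cartanEquivDual_symm_ne_zero (wgt_ne hβ)
  simp only [smul_eq_mul, nsmul_eq_mul, Nat.cast_ofNat, mul_eq_zero, OfNat.ofNat_ne_zero,
    inv_eq_zero, false_or]
  constructor
  · exact fun h5 => Or.inr h5
  · rintro (h5 | h5)
    · exact absurd h5 h4
    · exact h5

variable {m : ℕ} {w : Basis (Fin m) k W} {χ : ℕ → H → k} {φ : (H → k) →ₗ[ℚ] ℚ}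

/-- A basis of weight vectors in the order given by the functional. -/
structure Sys (w : Basis (Fin m) k W) (χ : ℕ → H → k) (φ : (H → k) →ₗ[ℚ] ℚ) : Prop where
  hw : ∀ j : Fin m, w j ∈ wt H W (χ j)
  pos : ∀ t, 1 ≤ t → t < m → 0 < φ (df χ t)
  gen : ∀ β, IsRt H β → φ β ≠ 0
  din : ∀ p, 1 ≤ p → p < m → DecIn (k := k) L W p
  fai : ∀ x : L, (∀ v : W, ⁅x, v⁆ = 0) → x = 0
  tr : ∑ i ∈ Finset.range m, χ i = 0

/-- The top weight. -/
def lam (χ : ℕ → H → k) (p : ℕ) : H → k := -∑ i ∈ Finset.range p, χ i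

theorem lam_succ (χ : ℕ → H → k) (p : ℕ) : lam χ (p + 1) = lam χ p - χ p := by
  unfold lam
  rw [Finset.sum_range_succ]
  abel

theorem df_eq (χ : ℕ → H → k) (q : ℕ) :
    df χ (q + 1) = 2 • lam χ (q + 1) - lam χ q - lam χ (q + 2) := by
  unfold df
  rw [Nat.add_sub_cancel, lam_succ χ (q + 1), lam_succ χ q]
  abel

/-- The drop. -/
def drop (χ : ℕ → H → k) {p : ℕ} (a : Fin p → Fin m) : H → k :=
  ∑ t ∈ Finset.Ico 1 m, exc a t • df χ t

namespace Sys

theorem wt_drop (S : Sys w χ φ) {p : ℕ} (hpm : p ≤ m) {μ : H → k}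
    {ω : W [⋀^Fin p]→ₗ[k] k} (hω : ω ∈ wt H (W [⋀^Fin p]→ₗ[k] k) μ) {a : Fin p → Fin m}
    (ha : Injective a) (h : ω (fun i => w (a i)) ≠ 0) : μ = lam χ p - drop χ a := by
  rw [wt_form w S.hw hω h, sum_chi χ ha hpm]
  unfold lam drop
  abel

theorem exists_drop (S : Sys w χ φ) {p : ℕ} (hpm : p ≤ m) {μ : H → k}
    (h : wt H (W [⋀^Fin p]→ₗ[k] k) μ ≠ ⊥) :
    ∃ a : Fin p → Fin m, Injective a ∧ μ = lam χ p - drop χ a := by
  obtain ⟨ω, hω, h0⟩ := Submodule.exists_mem_ne_zero_of_ne_bot h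
  obtain ⟨a, ha, h1⟩ := exists_val w ω h0
  exact ⟨a, ha, S.wt_drop hpm hω ha h1⟩

theorem phi_sum (S : Sys w χ φ) (n : ℕ → ℕ) :
    φ (∑ t ∈ Finset.Ico 1 m, n t • df χ t) = ∑ t ∈ Finset.Ico 1 m, n t * φ (df χ t) := by
  rw [map_sum]
  refine Finset.sum_congr rfl fun t _ => ?_
  rw [map_nsmul, nsmul_eq_mul]

theorem phi_sum_nonneg (S : Sys w χ φ) (n : ℕ → ℕ) :
    0 ≤ φ (∑ t ∈ Finset.Ico 1 m, n t • df χ t) := by
  rw [S.phi_sum]
  refine Finset.sum_nonneg fun t ht => ?_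
  rw [Finset.mem_Ico] at ht
  exact mul_nonneg (Nat.cast_nonneg _) (le_of_lt (S.pos t ht.1 ht.2))

theorem phi_sum_ge (S : Sys w χ φ) (n : ℕ → ℕ) {s : ℕ} (h1 : 1 ≤ s) (h2 : s < m) (hn : 1 ≤ n s) :
    φ (df χ s) ≤ φ (∑ t ∈ Finset.Ico 1 m, n t • df χ t) := by
  rw [S.phi_sum]
  have h3 : (n s : ℚ) * φ (df χ s) ≤ ∑ t ∈ Finset.Ico 1 m, n t * φ (df χ t) := by
    refine Finset.single_le_sum (f := fun t => (n t : ℚ) * φ (df χ t)) (fun t ht => ?_)
      (Finset.mem_Ico.2 ⟨h1, h2⟩)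
    rw [Finset.mem_Ico] at ht
    exact mul_nonneg (Nat.cast_nonneg _) (le_of_lt (S.pos t ht.1 ht.2))
  refine le_trans ?_ h3
  have h4 : (1 : ℚ) ≤ n s := by exact_mod_cast hn
  have h5 := S.pos s h1 h2
  nlinarith

theorem df_ne (S : Sys w χ φ) {s : ℕ} (h1 : 1 ≤ s) (h2 : s < m) : df χ s ≠ 0 := by
  intro h
  have := S.pos s h1 h2
  rw [h, map_zero] at this
  exact lt_irrefl _ this

/-- A tuple with small drop is the first one. -/
theorem drop_small (S : Sys w χ φ) {p : ℕ} (hp : 1 ≤ p) (hpm : p < m) {a : Fin p → Fin m}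
    (ha : Injective a) (h : φ (drop χ a) < φ (df χ p)) : drop χ a = 0 ∧
      im a = im (Fin.castLE hpm.le : Fin p → Fin m) := by
  have h1 : ∀ i, (a i : ℕ) < p := by
    by_contra hcon
    push Not at hcon
    have h2 := exc_pos ha hcon
    exact absurd (S.phi_sum_ge (exc a) hp hpm h2) (not_le.2 h)
  have h2 := im_zero ha hpm.le h1
  refine ⟨?_, h2⟩
  have h3 := sum_chi χ ha hpm.le
  have h4 : ∑ i, χ (a i) = ∑ i ∈ Finset.range p, χ i := by
    rw [sum_im ha (fun s : Fin m => χ s), h2,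
      ← sum_im (Fin.castLE_injective hpm.le) (fun s : Fin m => χ s), ← Fin.sum_univ_eq_sum_range]
    rfl
  rw [h4] at h3
  have h5 : drop χ a = 0 := by
    unfold drop
    exact (add_eq_left.1 h3.symm)
  exact h5

theorem fo_top (S : Sys w χ φ) {p : ℕ} (hpm : p ≤ m) :
    fo w (Fin.castLE hpm : Fin p → Fin m) ∈ wt H (W [⋀^Fin p]→ₗ[k] k) (lam χ p) := by
  have h1 := fo_wt w S.hw (Fin.castLE_injective hpm)
  have h2 : -∑ i, χ ((Fin.castLE hpm i : Fin m) : ℕ) = lam χ p := by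
    unfold lam
    rw [← Fin.sum_univ_eq_sum_range]
    rfl
  rwa [h2] at h1

theorem fo_bb (S : Sys w χ φ) {q : ℕ} (h : q + 1 < m) :
    fo w (bb q m h) ∈ wt H (W [⋀^Fin (q + 1)]→ₗ[k] k) (lam χ (q + 1) - df χ (q + 1)) := by
  have h1 := fo_wt w S.hw (bb_inj h)
  have h2 : -∑ i, χ (bb q m h i : ℕ) = lam χ (q + 1) - df χ (q + 1) := by
    have h3 : ∑ i : Fin (q + 1), χ (bb q m h i : ℕ) =
        ∑ i ∈ Finset.range (q + 1), χ (if i = q then q + 1 else i) := by
      rw [← Fin.sum_univ_eq_sum_range (fun i => χ (if i = q then q + 1 else i))]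
      rfl
    rw [h3, Finset.sum_range_succ, if_pos rfl, Finset.sum_congr rfl (g := fun i => χ i) (by
      intro i hi
      rw [Finset.mem_range] at hi
      rw [if_neg (by omega)])]
    unfold lam df
    rw [Finset.sum_range_succ, Nat.add_sub_cancel]
    abel
  rwa [h2] at h1

theorem ne_of_val {p : ℕ} {b : Fin p → Fin m} (hb : Injective b) : fo w b ≠ 0 := by
  intro h
  have h1 := fo_self w hb
  rw [h, AlternatingMap.zero_apply] at h1
  exact zero_ne_one h1

theorem top_ne (S : Sys w χ φ) {p : ℕ} (hpm : p ≤ m) :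
    wt H (W [⋀^Fin p]→ₗ[k] k) (lam χ p) ≠ ⊥ :=
  (Submodule.ne_bot_iff _).2 ⟨_, S.fo_top hpm, ne_of_val (Fin.castLE_injective hpm)⟩

theorem bb_ne (S : Sys w χ φ) {q : ℕ} (h : q + 1 < m) :
    wt H (W [⋀^Fin (q + 1)]→ₗ[k] k) (lam χ (q + 1) - df χ (q + 1)) ≠ ⊥ :=
  (Submodule.ne_bot_iff _).2 ⟨_, S.fo_bb h, ne_of_val (bb_inj h)⟩

/-- There are no weights above the top. -/
theorem top_le (S : Sys w χ φ) {p : ℕ} (hpm : p ≤ m) {μ : H → k}
    (h : wt H (W [⋀^Fin p]→ₗ[k] k) μ ≠ ⊥) : φ μ ≤ φ (lam χ p) := by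
  obtain ⟨a, ha, rfl⟩ := S.exists_drop hpm h
  rw [map_sub]
  have := S.phi_sum_nonneg (exc a)
  unfold drop
  linarith

theorem top_kill (S : Sys w χ φ) {p : ℕ} (hpm : p ≤ m) {β : H → k} (hβ : 0 < φ β) {x : L}
    (hx : x ∈ wt H L β) {ω : W [⋀^Fin p]→ₗ[k] k}
    (hω : ω ∈ wt H (W [⋀^Fin p]→ₗ[k] k) (lam χ p)) : ⁅x, ω⁆ = 0 := by
  by_contra h0
  have h1 := S.top_le hpm ((Submodule.ne_bot_iff _).2 ⟨_, lie_mem_wt hx hω, h0⟩)
  rw [map_add] at h1
  linarith

/-- **The differences of consecutive weights are roots.** -/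
theorem root_df (S : Sys w χ φ) {q : ℕ} (h : q + 1 < m) : ∃ x ∈ wt H L (df χ (q + 1)),
    w.coord ⟨q + 1, h⟩ ⁅x, w ⟨q, by omega⟩⁆ ≠ 0 := by
  have hpm : q + 1 ≤ m := h.le
  have h1 : ∃ β, 0 < φ β ∧ ∃ x ∈ wt H L β, ⁅x, fo w (bb q m h)⁆ ≠ 0 := by
    by_contra hcon
    push Not at hcon
    have h2 := killed (S.din (q + 1) (by omega) h) S.gen (S.fo_bb h) (ne_of_val (bb_inj h))
      hcon (ν := lam χ (q + 1)) (by
        rw [map_sub]
        have := S.pos (q + 1) (by omega) h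
        linarith) (ξ := fun j => w.coord (Fin.castLE hpm j)) (S.fo_top hpm)
    obtain ⟨c, hc⟩ := Submodule.mem_span_singleton.1 h2
    have h3 := fo_self w (Fin.castLE_injective hpm)
    have h4 : fo w (bb q m h) (fun i => w (Fin.castLE hpm i)) = 0 := by
      by_contra h5
      have h6 := fo_im w (Fin.castLE_injective hpm) (bb_inj h) h5
      have h7 : (⟨q, by omega⟩ : Fin m) ∈ im (bb q m h) := by
        rw [← h6]
        exact mem_im.2 ⟨⟨q, by omega⟩, rfl⟩
      rw [mem_im_bb] at h7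
      simp only at h7
      omega
    have h5 := congrArg (fun ψ : W [⋀^Fin (q + 1)]→ₗ[k] k => ψ (fun i => w (Fin.castLE hpm i))) hc
    simp only [AlternatingMap.smul_apply] at h5
    rw [h4, smul_zero] at h5
    have h6 : (dec fun j => w.coord (Fin.castLE hpm j)) (fun i => w (Fin.castLE hpm i)) = 1 := h3
    rw [h6] at h5
    exact zero_ne_one h5
  obtain ⟨β, hβ, x, hx, h0⟩ := h1
  obtain ⟨a, ha, h2⟩ := exists_val w _ h0
  have h3 := S.wt_drop hpm (lie_mem_wt hx (S.fo_bb h)) ha h2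
  have h4 : β = df χ (q + 1) - drop χ a := by
    have : lam χ (q + 1) - df χ (q + 1) + β - lam χ (q + 1) = -drop χ a := by
      rw [h3]
      abel
    rw [sub_eq_add_neg (df χ (q + 1)), ← this]
    abel
  obtain ⟨h5, h6⟩ := S.drop_small (by omega) h ha (by
    rw [h4, map_sub] at hβ
    linarith)
  rw [h5, sub_zero] at h4
  rw [h4] at hx
  refine ⟨x, hx, ?_⟩
  have h7 : ⁅x, fo w (bb q m h)⁆ (fun i => w (Fin.castLE hpm i)) ≠ 0 := by
    intro h7
    exact h2 (val_im w ha (Fin.castLE_injective hpm) h6 h7)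
  rw [lie_app] at h7
  obtain ⟨i, -, hi⟩ := Finset.exists_ne_zero_of_sum_ne_zero (neg_ne_zero.1 h7)
  intro h8
  apply hi
  unfold fo
  rw [dec_apply]
  by_cases hiq : (i : ℕ) = q
  · refine Matrix.det_eq_zero_of_column_eq_zero ⟨q, by omega⟩ fun r => ?_
    have h9 : (bb q m h ⟨q, by omega⟩) = ⟨q + 1, h⟩ := Fin.ext (if_pos rfl)
    rw [Matrix.of_apply, h9]
    by_cases hr : r = i
    · rw [hr, update_self]
      have h10 : (Fin.castLE hpm i : Fin m) = ⟨q, by omega⟩ := Fin.ext hiq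
      rw [h10]
      exact h8
    · rw [update_of_ne hr, Basis.coord_apply, Basis.repr_self, Finsupp.single_apply, if_neg]
      intro h10
      have h11 := congrArg Fin.val h10
      have h12 : (r : ℕ) = q + 1 := h11
      have := r.2
      omega
  · refine Matrix.det_eq_zero_of_row_eq_zero ⟨q, by omega⟩ fun c => ?_
    rw [Matrix.of_apply, update_of_ne (by
      intro h10
      apply hiq
      rw [← h10]), Basis.coord_apply, Basis.repr_self, Finsupp.single_apply, if_neg]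
    intro h10
    have h11 : (bb q m h c) ∈ im (bb q m h) := mem_im.2 ⟨c, rfl⟩
    rw [← h10, mem_im_bb] at h11
    have h12 : ((Fin.castLE hpm (⟨q, by omega⟩ : Fin (q + 1)) : Fin m) : ℕ) = q := rfl
    omega

theorem isRt_df (S : Sys w χ φ) {p : ℕ} (hp : 1 ≤ p) (hpm : p < m) : IsRt H (df χ p) := by
  obtain ⟨q, rfl⟩ : ∃ q, p = q + 1 := ⟨p - 1, by omega⟩
  obtain ⟨x, hx, h1⟩ := S.root_df hpm
  refine ⟨S.df_ne hp hpm, (Submodule.ne_bot_iff _).2 ⟨x, hx, ?_⟩⟩
  rintro rfl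
  rw [zero_lie, map_zero] at h1
  exact h1 rfl

theorem val_int (S : Sys w χ φ) {p : ℕ} (hpm : p ≤ m) {β : H → k} (hβ : IsRt H β)
    (hβ0 : 0 < φ β) : ∃ z : ℤ, lam χ p (cv β) = z ∧ 0 ≤ z := by
  obtain ⟨e, f, t⟩ := exists_tri hβ
  obtain ⟨z, hz⟩ := t.int (S.top_ne hpm)
  refine ⟨z, hz, ?_⟩
  by_contra hcon
  push Not at hcon
  exact t.inj' (S.fo_top hpm) (ne_of_val (Fin.castLE_injective hpm)) hz hcon
    (S.top_kill hpm hβ0 t.he (S.fo_top hpm))

/-- The value on the own coroot is positive. -/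
theorem val_pos (S : Sys w χ φ) {p : ℕ} (hp : 1 ≤ p) (hpm : p < m) :
    ∃ z : ℤ, lam χ p (cv (df χ p)) = z ∧ 0 < z := by
  obtain ⟨q, rfl⟩ : ∃ q, p = q + 1 := ⟨p - 1, by omega⟩
  have hr := S.isRt_df hp hpm
  obtain ⟨z, hz, h0⟩ := S.val_int hpm.le hr (S.pos _ hp hpm)
  refine ⟨z, hz, lt_of_le_of_ne h0 ?_⟩
  intro h1
  obtain ⟨e, f, t⟩ := exists_tri hr
  have h2 : (lam χ (q + 1) - df χ (q + 1)) (cv (df χ (q + 1))) = ((-2 : ℤ) : k) := by
    rw [Pi.sub_apply, rt_two hr, hz, ← h1]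
    push_cast
    ring
  have h3 := t.str' (S.bb_ne hpm) h2 (i := 2) (by norm_num)
  have h4 := S.top_le hpm.le h3
  rw [map_add, map_sub, map_nsmul] at h4
  have h5 := S.pos _ hp hpm
  rw [nsmul_eq_mul] at h4
  push_cast at h4
  linarith

/-- The values on coroots. -/
theorem val_zero (S : Sys w χ φ) {p : ℕ} (hp : 1 ≤ p) (hpm : p < m) {β : H → k} (hβ : IsRt H β)
    (hβ0 : 0 < φ β) (h : ∀ a : Fin p → Fin m, Injective a → β ≠ drop χ a) :
    lam χ p (cv β) = 0 := by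
  obtain ⟨z, hz, h0⟩ := S.val_int hpm.le hβ hβ0
  obtain ⟨e, f, t⟩ := exists_tri hβ
  rcases eq_or_lt_of_le h0 with h1 | h1
  · rw [hz, ← h1, Int.cast_zero]
  · exfalso
    have h2 := t.inj (S.fo_top hpm.le) (ne_of_val (Fin.castLE_injective hpm.le)) hz h1
    have h3 := t.lie_f (S.fo_top hpm.le)
    obtain ⟨a, ha, h4⟩ := S.exists_drop hpm.le ((Submodule.ne_bot_iff _).2 ⟨_, h3, h2⟩)
    exact h a ha (sub_right_injective h4)

theorem val_small (S : Sys w χ φ) {p : ℕ} (hp : 1 ≤ p) (hpm : p < m) {β : H → k} (hβ : IsRt H β)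
    (hβ0 : 0 < φ β) (h : φ β < φ (df χ p)) : lam χ p (cv β) = 0 := by
  refine S.val_zero hp hpm hβ hβ0 fun a ha h1 => hβ.1 ?_
  rw [h1] at h ⊢
  exact (S.drop_small hp hpm ha h).1

/-- **The roots are indecomposable.** -/
theorem indec (S : Sys w χ φ) {j : ℕ} (hj : 1 ≤ j) (hjm : j < m) {n : ℕ → ℕ}
    (h : df χ j = ∑ t ∈ Finset.Ico 1 m, n t • df χ t) :
    ∃ s, 1 ≤ s ∧ s < m ∧ n s = 1 ∧ (∀ t, 1 ≤ t → t < m → t ≠ s → n t = 0) ∧ df χ j = df χ s := by
  -- some coefficient is positive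
  have h1 : ∃ s, 1 ≤ s ∧ s < m ∧ 1 ≤ n s := by
    by_contra hcon
    push Not at hcon
    refine S.df_ne hj hjm ?_
    rw [h]
    refine Finset.sum_eq_zero fun t ht => ?_
    rw [Finset.mem_Ico] at ht
    have := hcon t ht.1 ht.2
    have h2 : n t = 0 := by omega
    rw [h2, zero_smul]
  obtain ⟨s, hs1, hs2, hs3⟩ := h1
  by_cases h2 : n s = 1 ∧ ∀ t, 1 ≤ t → t < m → t ≠ s → n t = 0
  · refine ⟨s, hs1, hs2, h2.1, h2.2, ?_⟩
    rw [h, Finset.sum_eq_single s]
    · rw [h2.1, one_smul]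
    · intro t ht hts
      rw [Finset.mem_Ico] at ht
      rw [h2.2 t ht.1 ht.2 hts, zero_smul]
    · intro h3
      exact absurd (Finset.mem_Ico.2 ⟨hs1, hs2⟩) h3
  · exfalso
    -- all summands are smaller
    have key : ∀ t, 1 ≤ t → t < m → 1 ≤ n t → φ (df χ t) < φ (df χ j) := by
      intro t ht1 ht2 ht3
      set n' : ℕ → ℕ := fun r => if r = t then n r - 1 else n r with hn'
      have h3 : ∑ r ∈ Finset.Ico 1 m, n r • df χ r = df χ t +
          ∑ r ∈ Finset.Ico 1 m, n' r • df χ r := by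
        have h4 : ∀ r ∈ Finset.Ico 1 m, n r • df χ r = (if r = t then df χ t else 0) +
            n' r • df χ r := by
          intro r _
          by_cases hr : r = t
          · simp only [hn', hr, if_true]
            obtain ⟨c, hc⟩ : ∃ c, n t = c + 1 := ⟨n t - 1, by omega⟩
            rw [hc, Nat.add_sub_cancel, succ_nsmul, add_comm]
          · simp only [hn', if_neg hr, zero_add]
        rw [Finset.sum_congr rfl h4, Finset.sum_add_distrib, Finset.sum_ite_eq',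
          if_pos (Finset.mem_Ico.2 ⟨ht1, ht2⟩)]
      have h4 : ∃ r, 1 ≤ r ∧ r < m ∧ 1 ≤ n' r := by
        by_contra hcon
        push Not at hcon
        have h5 : ∀ r, 1 ≤ r → r < m → n' r = 0 := fun r hr1 hr2 => by
          have := hcon r hr1 hr2
          omega
        have h6 : n t = 1 := by
          have := h5 t ht1 ht2
          simp only [hn', if_true] at this
          omega
        have h7 : ∀ r, 1 ≤ r → r < m → r ≠ t → n r = 0 := by
          intro r hr1 hr2 hr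
          have := h5 r hr1 hr2
          simp only [hn', if_neg hr] at this
          exact this
        have h8 : s = t := by
          by_contra h8
          have := h7 s hs1 hs2 h8
          omega
        subst h8
        exact h2 ⟨h6, h7⟩
      obtain ⟨r, hr1, hr2, hr3⟩ := h4
      have h5 := S.phi_sum_ge n' hr1 hr2 hr3
      have h6 := S.pos r hr1 hr2
      rw [h, h3, map_add]
      linarith
    obtain ⟨x, hx⟩ := exists_dual (S.top_ne hjm.le)
    obtain ⟨z, hz, hz0⟩ := S.val_pos hj hjm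
    have h3 : df χ j x = 0 := by
      rw [h, Finset.sum_apply]
      refine Finset.sum_eq_zero fun t ht => ?_
      rw [Finset.mem_Ico] at ht
      by_cases h4 : n t = 0
      · rw [h4, zero_smul, Pi.zero_apply]
      · rw [Pi.smul_apply, (hx _ (S.isRt_df ht.1 ht.2)).2 (S.val_small hj hjm
          (S.isRt_df ht.1 ht.2) (S.pos t ht.1 ht.2) (key t ht.1 ht.2 (by omega))), smul_zero]
    rw [hx _ (S.isRt_df hj hjm), hz] at h3
    have h4 : z = 0 := by exact_mod_cast h3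
    omega

/-- The values of the top weights on the coroots of the other roots. -/
theorem val_other (S : Sys w χ φ) {p j : ℕ} (hp : 1 ≤ p) (hpm : p < m) (hj : 1 ≤ j) (hjm : j < m)
    (h : df χ j ≠ df χ p) : lam χ p (cv (df χ j)) = 0 := by
  refine S.val_zero hp hpm (S.isRt_df hj hjm) (S.pos j hj hjm) fun a ha h1 => ?_
  obtain ⟨s, hs1, hs2, hs3, hs4, hs5⟩ := S.indec hj hjm (n := exc a) h1
  have h2 : ¬ ∀ i, (a i : ℕ) < p := by
    intro h2
    have h4 := im_zero ha hpm.le h2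
    have h5 : drop χ a = 0 := by
      have h6 := sum_chi χ ha hpm.le
      have h7 : ∑ i, χ (a i) = ∑ i ∈ Finset.range p, χ i := by
        rw [sum_im ha (fun s : Fin m => χ s), h4,
          ← sum_im (Fin.castLE_injective hpm.le) (fun s : Fin m => χ s),
          ← Fin.sum_univ_eq_sum_range]
        rfl
      rw [h7] at h6
      exact add_eq_left.1 h6.symm
    rw [h5] at h1
    exact S.df_ne hj hjm h1
  push Not at h2
  have h3 := exc_pos ha h2
  have h4 : p = s := by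
    by_contra h4
    have := hs4 p hp hpm h4
    omega
  rw [← h4] at hs5
  exact h hs5

end Sys

end Pool.Agent.TH164.Un
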