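import Pool.Agent.TH164.Un.Un3

/-!
# The roots are pairwise different
-/

set_option autoImplicit false
set_option linter.unusedSectionVars false
set_option linter.unusedVariables false

open Module LieModule LieAlgebra LieAlgebra.IsKilling Function

namespace Pool.Agent.TH164.Un

open Pool.Agent.TH164.Spin

variable {k L : Type*} [Field k] [IsAlgClosed k] [CharZero k] [LieRing L] [LieAlgebra k L]
  [FiniteDimensional k L] [LieAlgebra.IsKilling k L] {H : LieSubalgebra k L}
  [H.IsCartanSubalgebra]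
variable {W : Type*} [AddCommGroup W] [Module k W] [LieRingModule L W] [LieModule k L W]
  [FiniteDimensional k W]
variable {m : ℕ} {w : Basis (Fin m) k W} {χ : ℕ → H → k} {φ : (H → k) →ₗ[ℚ] ℚ}

theorem coord_wt (hw : ∀ j : Fin m, w j ∈ wt H W (χ j)) {ν : H → k} {v : W}
    (hv : v ∈ wt H W ν) {l : Fin m} (h : w.coord l v ≠ 0) : ν = χ l := by
  funext x
  have h1 : w.coord l ⁅(x : L), v⁆ = χ l x * w.coord l v := by
    have h2 : ⁅(x : L), v⁆ = ∑ j, w.coord j v • ⁅(x : L), w j⁆ := by
      conv_lhs => rw [← w.sum_repr v]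
      rw [lie_sum]
      refine Finset.sum_congr rfl fun j _ => ?_
      rw [lie_smul]
      rfl
    have h4 : ∀ j, w.coord l (w j) = if j = l then 1 else 0 := by
      intro j
      rw [Basis.coord_apply, Basis.repr_self, Finsupp.single_apply]
    rw [h2, map_sum, Finset.sum_eq_single l]
    · rw [hw l x, map_smul, map_smul, h4, if_pos rfl, smul_eq_mul, smul_eq_mul, mul_one, mul_comm]
    · intro j _ hj
      rw [hw j x, map_smul, map_smul, h4, if_neg hj, smul_zero, smul_zero]
    · intro h3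
      exact absurd (Finset.mem_univ _) h3
  rw [hv x, map_smul, smul_eq_mul] at h1
  exact mul_right_cancel₀ h h1

theorem exists_coord_wt (hw : ∀ j : Fin m, w j ∈ wt H W (χ j)) {ν : H → k} {v : W}
    (hv : v ∈ wt H W ν) (h : v ≠ 0) : ∃ l : Fin m, ν = χ l ∧ w.coord l v ≠ 0 := by
  have h1 : ∃ l, w.coord l v ≠ 0 := by
    by_contra hcon
    push Not at hcon
    exact h (w.forall_coord_eq_zero_iff.1 hcon)
  obtain ⟨l, hl⟩ := h1
  exact ⟨l, coord_wt hw hv hl, hl⟩

/-- Differences as sums. -/
theorem chi_sub (χ : ℕ → H → k) {i j : ℕ} (hij : i ≤ j) (hj : j < m) :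
    χ j - χ i = ∑ t ∈ Finset.Ico 1 m, (if i < t ∧ t ≤ j then 1 else 0) • df χ t := by
  rw [chi_eq' χ hj, chi_eq' χ (show i < m by omega), add_sub_add_left_eq_sub,
    ← Finset.sum_sub_distrib]
  refine Finset.sum_congr rfl fun t _ => ?_
  by_cases h1 : t ≤ i
  · rw [if_pos (h1.trans hij), if_pos h1, if_neg (by omega), sub_self, zero_smul]
  · by_cases h2 : t ≤ j
    · rw [if_pos h2, if_neg h1, if_pos ⟨by omega, h2⟩, zero_smul, sub_zero]
    · rw [if_neg h2, if_neg h1, if_neg (by omega), sub_self, zero_smul]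

namespace Sys

theorem phi_lt (S : Sys w χ φ) {i j : ℕ} (hij : i < j) (hj : j < m) : φ (χ i) < φ (χ j) := by
  have h1 := chi_sub (m := m) χ hij.le hj
  have h2 := S.phi_sum_ge (fun t => if i < t ∧ t ≤ j then 1 else 0) (s := j) (by omega) hj (by
    simp only [hij, le_refl, and_self, if_true])
  rw [← h1, map_sub] at h2
  have h3 := S.pos j (by omega) hj
  linarith

theorem chi_inj (S : Sys w χ φ) {i j : ℕ} (hi : i < m) (hj : j < m) (h : χ i = χ j) : i = j := by
  rcases lt_trichotomy i j with h1 | h1 | h1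
  · have := S.phi_lt h1 hj
    rw [h] at this
    exact absurd this (lt_irrefl _)
  · exact h1
  · have := S.phi_lt h1 hi
    rw [h] at this
    exact absurd this (lt_irrefl _)

theorem wt_line (S : Sys w χ φ) {j : Fin m} {v : W} (hv : v ∈ wt H W (χ j)) :
    v = w.coord j v • w j := by
  refine w.ext_elem fun l => ?_
  rw [map_smul, Basis.repr_self]
  by_cases hl : l = j
  · rw [hl, Finsupp.smul_apply, Finsupp.single_eq_same, smul_eq_mul, mul_one, Basis.coord_apply]
  · rw [Finsupp.smul_apply, Finsupp.single_eq_of_ne hl, smul_zero]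
    by_contra h1
    have h2 := coord_wt S.hw hv (l := l) h1
    exact hl (Fin.ext (S.chi_inj l.2 j.2 h2.symm))

/-- A positive root vector raises the index. -/
theorem raise (S : Sys w χ φ) {β : H → k} (hβ : 0 < φ β) {x : L} (hx : x ∈ wt H L β)
    {j : Fin m} (h : ⁅x, w j⁆ ≠ 0) : ∃ l : Fin m, j < l ∧ β = χ l - χ j ∧
      w.coord l ⁅x, w j⁆ ≠ 0 := by
  obtain ⟨l, h1, h2⟩ := exists_coord_wt S.hw (lie_mem_wt hx (S.hw j)) h
  have h3 : β = χ l - χ j := by
    rw [← h1]
    abel
  refine ⟨l, ?_, h3, h2⟩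
  by_contra h4
  rw [not_lt] at h4
  rw [h3, map_sub] at hβ
  rcases eq_or_lt_of_le h4 with h5 | h5
  · rw [h5] at hβ
    linarith
  · have := S.phi_lt (i := (l : ℕ)) (j := (j : ℕ)) h5 j.2
    linarith

/-- A root of the form `df s` raises by one. -/
theorem raise_df (S : Sys w χ φ) {s : ℕ} (hs : 1 ≤ s) (hsm : s < m) {x : L}
    (hx : x ∈ wt H L (df χ s)) {j : Fin m} (h : ⁅x, w j⁆ ≠ 0) :
    ∃ l : Fin m, (l : ℕ) = j + 1 ∧ df χ l = df χ s ∧ w.coord l ⁅x, w j⁆ ≠ 0 := by
  obtain ⟨l, h1, h2, h3⟩ := S.raise (S.pos s hs hsm) hx h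
  have h1' : (j : ℕ) < l := h1
  rw [chi_sub (m := m) χ h1'.le l.2] at h2
  obtain ⟨r, hr1, hr2, hr3, hr4, hr5⟩ := S.indec hs hsm h2
  have h4 : (l : ℕ) = r := by
    by_contra h4
    have := hr4 l (by omega) l.2 h4
    rw [if_pos ⟨h1', le_rfl⟩] at this
    exact one_ne_zero this
  have h5 : (j : ℕ) + 1 = r := by
    by_contra h5
    have := hr4 (j + 1) (by omega) (by have := l.2; omega) h5
    rw [if_pos ⟨by omega, by omega⟩] at this
    exact one_ne_zero this
  refine ⟨l, by omega, ?_, h3⟩
  rw [hr5, h4]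

/-- A weight of the form `lam - df j` . -/
theorem wt_sub_df (S : Sys w χ φ) {p j : ℕ} (hp : 1 ≤ p) (hpm : p < m) (hj : 1 ≤ j) (hjm : j < m)
    {a : Fin p → Fin m} (ha : Injective a) (h : df χ j = drop χ a) : df χ j = df χ p ∧
      exc a p = 1 ∧ ∀ t, 1 ≤ t → t < m → t ≠ p → exc a t = 0 := by
  obtain ⟨s, hs1, hs2, hs3, hs4, hs5⟩ := S.indec hj hjm (n := exc a) h
  have h2 : ¬ ∀ i, (a i : ℕ) < p := by
    intro h2
    have h4 := im_zero ha hpm.le h2
    have h5 : drop χ a = 0 := by
      have h6 := sum_chi χ ha hpm.le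
      have h7 : ∑ i, χ (a i) = ∑ i ∈ Finset.range p, χ i := by
        rw [sum_im ha (fun s : Fin m => χ s), h4,
          ← sum_im (Fin.castLE_injective hpm.le) (fun s : Fin m => χ s),
          ← Fin.sum_univ_eq_sum_range]
        rfl
      rw [h7] at h6
      exact add_eq_left.1 h6.symm
    rw [h5] at h
    exact S.df_ne hj hjm h
  push Not at h2
  have h3 := exc_pos ha h2
  have h4 : p = s := by
    by_contra h4
    have := hs4 p hp hpm h4
    omega
  subst h4
  exact ⟨hs5, hs3, hs4⟩

theorem exc_of_drop (S : Sys w χ φ) {p : ℕ} (hpm : p < m) {a : Fin p → Fin m} (ha : Injective a)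
    (h : drop χ a ≠ 0) : 1 ≤ exc a p := by
  have h2 : ¬ ∀ i, (a i : ℕ) < p := by
    intro h2
    have h4 := im_zero ha hpm.le h2
    refine h ?_
    have h6 := sum_chi χ ha hpm.le
    have h7 : ∑ i, χ (a i) = ∑ i ∈ Finset.range p, χ i := by
      rw [sum_im ha (fun s : Fin m => χ s), h4,
        ← sum_im (Fin.castLE_injective hpm.le) (fun s : Fin m => χ s),
        ← Fin.sum_univ_eq_sum_range]
      rfl
    rw [h7] at h6
    exact add_eq_left.1 h6.symm
  push Not at h2
  exact exc_pos ha h2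

end Sys

/-- The tuple `0, …, q - 1, q + 1, q + 2`. -/
def t1 (q m : ℕ) (h : q + 3 < m) : Fin (q + 2) → Fin m :=
  tup (q + 2) m (fun i => if i < q then i else i + 1) (by
    intro i hi
    show (if i < q then i else i + 1) < m
    split_ifs <;> omega)

/-- The tuple `0, …, q, q + 3`. -/
def t2 (q m : ℕ) (h : q + 3 < m) : Fin (q + 2) → Fin m :=
  tup (q + 2) m (fun i => if i < q + 1 then i else q + 3) (by
    intro i hi
    show (if i < q + 1 then i else q + 3) < m
    split_ifs <;> omega)

theorem t1_inj {q : ℕ} (h : q + 3 < m) : Injective (t1 q m h) := by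
  intro i j hij
  have h1 := congrArg Fin.val hij
  change (if (i : ℕ) < q then (i : ℕ) else i + 1) = (if (j : ℕ) < q then (j : ℕ) else j + 1) at h1
  apply Fin.ext
  split_ifs at h1 <;> omega

theorem t2_inj {q : ℕ} (h : q + 3 < m) : Injective (t2 q m h) := by
  intro i j hij
  have h1 := congrArg Fin.val hij
  change (if (i : ℕ) < q + 1 then (i : ℕ) else q + 3) =
    (if (j : ℕ) < q + 1 then (j : ℕ) else q + 3) at h1
  apply Fin.ext
  have := i.2
  have := j.2
  split_ifs at h1 <;> omega

theorem mem_t1 {q : ℕ} (h : q + 3 < m) {x : Fin m} (hx : x ∈ im (t1 q m h)) : (x : ℕ) ≠ q ∧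
    (x : ℕ) < q + 3 := by
  obtain ⟨i, rfl⟩ := mem_im.1 hx
  change (if (i : ℕ) < q then (i : ℕ) else i + 1) ≠ q ∧
    (if (i : ℕ) < q then (i : ℕ) else i + 1) < q + 3
  have := i.2
  split_ifs <;> omega

theorem mem_t2 {q : ℕ} (h : q + 3 < m) : (⟨q, by omega⟩ : Fin m) ∈ im (t2 q m h) ∧
    (⟨q + 3, h⟩ : Fin m) ∈ im (t2 q m h) := by
  refine ⟨mem_im.2 ⟨⟨q, by omega⟩, Fin.ext ?_⟩, mem_im.2 ⟨⟨q + 1, by omega⟩, Fin.ext ?_⟩⟩
  · change (if q < q + 1 then q else q + 3) = q
    rw [if_pos (by omega)]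
  · change (if q + 1 < q + 1 then q + 1 else q + 3) = q + 3
    rw [if_neg (by omega)]

namespace Sys

theorem t1_wt (S : Sys w χ φ) {q : ℕ} (h : q + 3 < m) : fo w (t1 q m h) ∈
    wt H (W [⋀^Fin (q + 2)]→ₗ[k] k) (lam χ (q + 2) - df χ (q + 2) - df χ (q + 1)) := by
  have h1 := fo_wt w S.hw (t1_inj h)
  have h2 : -∑ i, χ (t1 q m h i : ℕ) = lam χ (q + 2) - df χ (q + 2) - df χ (q + 1) := by
    have h3 : ∑ i : Fin (q + 2), χ (t1 q m h i : ℕ) =
        ∑ i ∈ Finset.range (q + 2), χ (if i < q then i else i + 1) := by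
      rw [← Fin.sum_univ_eq_sum_range (fun i => χ (if i < q then i else i + 1))]
      rfl
    rw [h3, Finset.sum_range_succ, Finset.sum_range_succ, if_neg (by omega), if_neg (by omega),
      Finset.sum_congr rfl (g := fun i => χ i) (by
      intro i hi
      rw [Finset.mem_range] at hi
      rw [if_pos (by omega)])]
    unfold lam df
    rw [Finset.sum_range_succ, Finset.sum_range_succ, Nat.add_sub_cancel]
    have h4 : q + 2 - 1 = q + 1 := rfl
    rw [h4]
    have h5 : q + 1 + 1 = q + 2 := rfl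
    rw [h5]
    abel
  rwa [h2] at h1

theorem t2_wt (S : Sys w χ φ) {q : ℕ} (h : q + 3 < m) : fo w (t2 q m h) ∈
    wt H (W [⋀^Fin (q + 2)]→ₗ[k] k) (lam χ (q + 2) - df χ (q + 2) - df χ (q + 3)) := by
  have h1 := fo_wt w S.hw (t2_inj h)
  have h2 : -∑ i, χ (t2 q m h i : ℕ) = lam χ (q + 2) - df χ (q + 2) - df χ (q + 3) := by
    have h3 : ∑ i : Fin (q + 2), χ (t2 q m h i : ℕ) =
        ∑ i ∈ Finset.range (q + 2), χ (if i < q + 1 then i else q + 3) := by
      rw [← Fin.sum_univ_eq_sum_range (fun i => χ (if i < q + 1 then i else q + 3))]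
      rfl
    rw [h3, Finset.sum_range_succ, Finset.sum_range_succ, if_pos (by omega), if_neg (by omega),
      Finset.sum_congr rfl (g := fun i => χ i) (by
      intro i hi
      rw [Finset.mem_range] at hi
      rw [if_pos (by omega)])]
    unfold lam df
    rw [Finset.sum_range_succ, Finset.sum_range_succ]
    have h4 : q + 2 - 1 = q + 1 := rfl
    have h5 : q + 3 - 1 = q + 2 := rfl
    rw [h4, h5]
    abel
  rwa [h2] at h1

/-- **No backtracking.** -/
theorem no_back (S : Sys w χ φ) {q : ℕ} (h : q + 3 < m) : df χ (q + 1) ≠ df χ (q + 3) := by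
  intro hb
  have hpm : q + 2 < m := by omega
  have hpm' : q + 1 + 1 < m := by omega
  obtain ⟨xa, hxa, ha0⟩ := S.root_df (q := q + 1) hpm'
  obtain ⟨xb, hxb, hb0⟩ := S.root_df (q := q + 2) h
  have hu1 := S.t1_wt h
  have hu2 := S.t2_wt h
  rw [hb] at hu1
  set μ := lam χ (q + 2) - df χ (q + 2) - df χ (q + 3) with hμ
  have hv1 : fo w (t2 q m h) (fun i => w (t1 q m h i)) = 0 := by
    by_contra h1
    have h2 := fo_im w (t1_inj h) (t2_inj h) h1
    have h3 := (mem_t2 h).1
    rw [← h2] at h3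
    exact (mem_t1 h h3).1 rfl
  have hv2 : fo w (t1 q m h) (fun i => w (t2 q m h i)) = 0 := by
    by_contra h1
    have h2 := fo_im w (t2_inj h) (t1_inj h) h1
    have h3 := (mem_t2 h).1
    rw [h2] at h3
    exact (mem_t1 h h3).1 rfl
  -- the combination
  have hxy : ∃ x y : k, (x ≠ 0 ∨ y ≠ 0) ∧
      x * ⁅xb, fo w (t1 q m h)⁆ (fun i => w (bb (q + 1) m hpm' i)) +
      y * ⁅xb, fo w (t2 q m h)⁆ (fun i => w (bb (q + 1) m hpm' i)) = 0 := by
    by_cases h1 : ⁅xb, fo w (t1 q m h)⁆ (fun i => w (bb (q + 1) m hpm' i)) = 0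
    · exact ⟨1, 0, Or.inl one_ne_zero, by rw [h1, mul_zero, zero_mul, add_zero]⟩
    · refine ⟨⁅xb, fo w (t2 q m h)⁆ (fun i => w (bb (q + 1) m hpm' i)),
        -⁅xb, fo w (t1 q m h)⁆ (fun i => w (bb (q + 1) m hpm' i)), Or.inr (neg_ne_zero.2 h1), ?_⟩
      ring
  obtain ⟨x, y, hne, hxy⟩ := hxy
  set u : W [⋀^Fin (q + 2)]→ₗ[k] k := x • fo w (t1 q m h) + y • fo w (t2 q m h) with hu
  have huw : u ∈ wt H (W [⋀^Fin (q + 2)]→ₗ[k] k) μ :=
    Submodule.add_mem _ (Submodule.smul_mem _ _ hu1) (Submodule.smul_mem _ _ hu2)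
  have hu0 : u ≠ 0 := by
    intro h1
    have h2 : u (fun i => w (t1 q m h i)) = x := by
      rw [hu, AlternatingMap.add_apply, AlternatingMap.smul_apply, AlternatingMap.smul_apply,
        fo_self w (t1_inj h), hv1, smul_zero, add_zero, smul_eq_mul, mul_one]
    have h3 : u (fun i => w (t2 q m h i)) = y := by
      rw [hu, AlternatingMap.add_apply, AlternatingMap.smul_apply, AlternatingMap.smul_apply,
        fo_self w (t2_inj h), hv2, smul_zero, zero_add, smul_eq_mul, mul_one]
    rw [h1, AlternatingMap.zero_apply] at h2 h3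
    rcases hne with h4 | h4
    · exact h4 h2.symm
    · exact h4 h3.symm
  -- the action of `xb`
  have hbu : ⁅xb, u⁆ = 0 := by
    refine form_zero w fun a ha => ?_
    by_contra h1
    have h2 := S.wt_drop hpm.le (lie_mem_wt hxb huw) ha h1
    have h3 : df χ (q + 2) = drop χ a := by
      have h4 : μ + df χ (q + 2 + 1) = lam χ (q + 2) - df χ (q + 2) := by
        rw [hμ]
        have : q + 2 + 1 = q + 3 := rfl
        rw [this]
        abel
      rw [h4] at h2
      exact sub_right_injective h2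
    obtain ⟨-, h4, h5⟩ := S.wt_sub_df (p := q + 2) (j := q + 2) (by omega) hpm (by omega) hpm ha h3
    have h6 := im_one (q := q + 1) hpm' ha h4 h5
    refine h1 (val_im w ha (bb_inj hpm') h6 ?_)
    have hs : ∀ (c : k) (ω : W [⋀^Fin (q + 2)]→ₗ[k] k), ⁅xb, c • ω⁆ = c • ⁅xb, ω⁆ :=
      fun c ω => lie_smul c xb ω
    rw [hu, lie_add, hs, hs, AlternatingMap.add_apply, AlternatingMap.smul_apply,
      AlternatingMap.smul_apply, smul_eq_mul, smul_eq_mul]
    exact hxy
  have hφa := S.pos (q + 2) (by omega) hpm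
  have hφb := S.pos (q + 3) (by omega) h
  have hra := S.isRt_df (p := q + 2) (by omega) hpm
  have hrb := S.isRt_df (p := q + 3) (by omega) h
  have hxb0 : xb ≠ 0 := by
    rintro rfl
    rw [zero_lie, map_zero] at hb0
    exact hb0 rfl
  have hk : ∀ β, 0 < φ β → ∀ z ∈ wt H L β, ⁅z, u⁆ = 0 := by
    intro β hβ z hz
    by_contra h1
    have hz0 : z ≠ 0 := by
      rintro rfl
      exact h1 (zero_lie _)
    have hrβ : IsRt H β := by
      refine ⟨?_, (Submodule.ne_bot_iff _).2 ⟨z, hz, hz0⟩⟩
      rintro rfl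
      rw [map_zero] at hβ
      exact lt_irrefl _ hβ
    obtain ⟨a, ha, h2⟩ := S.exists_drop hpm.le
      ((Submodule.ne_bot_iff _).2 ⟨_, lie_mem_wt hz huw, h1⟩)
    have h3 : df χ (q + 2) + df χ (q + 3) = β + drop χ a := by
      have h4 : drop χ a = lam χ (q + 2) - (μ + β) := by
        rw [h2]
        abel
      rw [h4, hμ]
      abel
    by_cases h4 : drop χ a = 0
    · rw [h4, add_zero] at h3
      by_cases hab : df χ (q + 2) = df χ (q + 3)
      · have h5 : β = (2 : k) • df χ (q + 3) := by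
          rw [← h3, hab, two_smul]
        rcases rt_smul hrb hrβ h5 with h6 | h6
        · rw [h6, hab] at h3
          have h7 := congrArg φ h3
          rw [map_add] at h7
          linarith
        · have h7 := congrArg φ h6
          rw [map_neg] at h7
          linarith
      · -- the commutator
        have h5 : ⁅xb, w ⟨q + 1, by omega⟩⁆ = 0 := by
          by_contra h5
          obtain ⟨l, h6, h7, -⟩ := S.raise_df (s := q + 3) (by omega) h hxb h5
          have h8 : (l : ℕ) = q + 2 := h6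
          rw [h8] at h7
          exact hab h7
        have h6 : ⁅xa, w ⟨q + 1, by omega⟩⁆ = w.coord ⟨q + 2, hpm⟩ ⁅xa, w ⟨q + 1, by omega⟩⁆ •
            w ⟨q + 2, hpm⟩ := by
          refine S.wt_line (j := ⟨q + 2, hpm⟩) ?_
          refine lie_mem_wt' hxa (S.hw ⟨q + 1, by omega⟩) ?_
          unfold df
          have h7 : q + 1 + 1 - 1 = q + 1 := rfl
          rw [h7]
          change χ (q + 1) + (χ (q + 1 + 1) - χ (q + 1)) = χ (q + 2)
          have h8 : q + 1 + 1 = q + 2 := rfl
          rw [h8]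
          abel
        have h7 : ⁅⁅xb, xa⁆, w ⟨q + 1, by omega⟩⁆ ≠ 0 := by
          rw [lie_lie, h5, lie_zero, sub_zero, h6, lie_smul]
          refine smul_ne_zero ha0 ?_
          intro h8
          apply hb0
          rw [h8, map_zero]
        have h8 : ⁅xb, xa⁆ ∈ wt H L β := by
          refine lie_mem_wt' hxb hxa ?_
          rw [← h3]
        have h9 : ⁅xb, xa⁆ ≠ 0 := by
          intro h9
          rw [h9, zero_lie] at h7
          exact h7 rfl
        obtain ⟨c, hc⟩ := rt_one hrβ h8 hz h9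
        apply h1
        rw [hc, smul_lie, lie_lie, hbu, lie_zero, sub_zero]
        -- `⁅xa, u⁆` vanishes
        have h10 : ⁅xa, u⁆ = 0 := by
          refine form_zero w fun a' ha' => ?_
          by_contra h11
          have h12 := S.wt_drop hpm.le (lie_mem_wt hxa huw) ha' h11
          have h13 : df χ (q + 3) = drop χ a' := by
            have h14 : μ + df χ (q + 1 + 1) = lam χ (q + 2) - df χ (q + 3) := by
              rw [hμ]
              have : q + 1 + 1 = q + 2 := rfl
              rw [this]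
              abel
            rw [h14] at h12
            exact sub_right_injective h12
          obtain ⟨h14, -⟩ := S.wt_sub_df (p := q + 2) (j := q + 3) (by omega) hpm (by omega) h
            ha' h13
          exact hab h14.symm
        rw [h10, lie_zero, smul_zero]
    · -- the excess contains the root
      have h5 := S.exc_of_drop hpm ha h4
      have h6 : ∃ j, ⁅z, w j⁆ ≠ 0 := by
        by_contra hcon
        push Not at hcon
        refine hz0 (S.fai z fun v => ?_)
        rw [← w.sum_repr v, lie_sum]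
        refine Finset.sum_eq_zero fun i _ => ?_
        rw [lie_smul, hcon, smul_zero]
      obtain ⟨j, hj⟩ := h6
      obtain ⟨l, h7, h8, -⟩ := S.raise hβ hz hj
      have h7' : (j : ℕ) < l := h7
      rw [chi_sub (m := m) χ h7'.le l.2] at h8
      have h9 : drop χ a = df χ (q + 2) + ∑ t ∈ Finset.Ico 1 m,
          (if t = q + 2 then exc a t - 1 else exc a t) • df χ t := by
        have h10 : ∀ t ∈ Finset.Ico 1 m, exc a t • df χ t =
            (if t = q + 2 then df χ t else 0) +
              (if t = q + 2 then exc a t - 1 else exc a t) • df χ t := by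
          intro t _
          by_cases ht : t = q + 2
          · rw [if_pos ht, if_pos ht]
            obtain ⟨c, hc⟩ : ∃ c, exc a t = c + 1 := ⟨exc a t - 1, by
              rw [ht]
              omega⟩
            rw [hc, Nat.add_sub_cancel, succ_nsmul, add_comm]
          · rw [if_neg ht, if_neg ht, zero_add]
        unfold drop
        rw [Finset.sum_congr rfl h10, Finset.sum_add_distrib, Finset.sum_ite_eq',
          if_pos (Finset.mem_Ico.2 ⟨by omega, hpm⟩)]
      have h10 : df χ (q + 3) = ∑ t ∈ Finset.Ico 1 m, ((if (j : ℕ) < t ∧ t ≤ l then 1 else 0) +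
          (if t = q + 2 then exc a t - 1 else exc a t)) • df χ t := by
        simp only [add_smul]
        rw [Finset.sum_add_distrib, ← h8]
        rw [h9] at h3
        have h11 : β + (df χ (q + 2) + ∑ t ∈ Finset.Ico 1 m,
          (if t = q + 2 then exc a t - 1 else exc a t) • df χ t) = df χ (q + 2) + (β +
          ∑ t ∈ Finset.Ico 1 m, (if t = q + 2 then exc a t - 1 else exc a t) • df χ t) := by
          abel
        rw [h11] at h3
        exact add_left_cancel h3
      obtain ⟨s, hs1, hs2, hs3, hs4, hs5⟩ := S.indec (j := q + 3) (by omega) h h10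
      have h11 : (l : ℕ) = s := by
        by_contra h11
        have := hs4 l (by omega) l.2 h11
        rw [if_pos ⟨h7', le_rfl⟩] at this
        omega
      have h12 : (j : ℕ) + 1 = s := by
        by_contra h12
        have := hs4 (j + 1) (by omega) (by have := l.2; omega) h12
        rw [if_pos ⟨by omega, by omega⟩] at this
        omega
      have h13 : β = df χ (q + 3) := by
        rw [h8, hs5, Finset.sum_eq_single s]
        · rw [if_pos ⟨by omega, by omega⟩, one_smul]
        · intro t ht hts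
          rw [if_neg (by omega), zero_smul]
        · intro h14
          exact absurd (Finset.mem_Ico.2 ⟨hs1, hs2⟩) h14
      rw [h13] at hz
      obtain ⟨c, hc⟩ := rt_one hrb hxb hz hxb0
      apply h1
      rw [hc, smul_lie, hbu, smul_zero]
  have h2 := killed (S.din (q + 2) (by omega) hpm) S.gen huw hu0 hk (ν := lam χ (q + 2)) (by
      rw [hμ, map_sub, map_sub]
      linarith) (ξ := fun j => w.coord (Fin.castLE hpm.le j)) (S.fo_top hpm.le)
  obtain ⟨c, hc⟩ := Submodule.mem_span_singleton.1 h2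
  have h3 : (dec fun j => w.coord (Fin.castLE hpm.le j)) (fun i => w (Fin.castLE hpm.le i)) = 1 :=
    fo_self w (Fin.castLE_injective hpm.le)
  have h4 : ∀ b : Fin (q + 2) → Fin m, Injective b → (⟨q, by omega⟩ : Fin m) ∉ im b ∨
      (⟨q + 3, h⟩ : Fin m) ∈ im b → fo w b (fun i => w (Fin.castLE hpm.le i)) = 0 := by
    intro b hb' h5
    by_contra h6
    have h7 := fo_im w (Fin.castLE_injective hpm.le) hb' h6
    rw [← h7] at h5
    rcases h5 with h8 | h8
    · exact h8 (mem_im.2 ⟨⟨q, by omega⟩, rfl⟩)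
    · obtain ⟨i, hi⟩ := mem_im.1 h8
      have h9 := congrArg Fin.val hi
      have h10 : (i : ℕ) = q + 3 := h9
      have := i.2
      omega
  rw [← hc, AlternatingMap.smul_apply, hu, AlternatingMap.add_apply, AlternatingMap.smul_apply,
    AlternatingMap.smul_apply, h4 _ (t1_inj h) (Or.inl fun h5 => (mem_t1 h h5).1 rfl),
    h4 _ (t2_inj h) (Or.inr (mem_t2 h).2), smul_zero, smul_zero, add_zero, smul_zero] at h3
  exact zero_ne_one h3

end Sys

end Pool.Agent.TH164.Un
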