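import Pool.Agent.TH164.Un.Un4

/-!
# Generation of the special linear Lie algebra
-/

set_option autoImplicit false
set_option linter.unusedSectionVars false
set_option linter.unusedVariables false

open Module LieModule LieAlgebra LieAlgebra.IsKilling Function

namespace Pool.Agent.TH164.Un

open Pool.Agent.TH164.Spin

variable {k L : Type*} [Field k] [IsAlgClosed k] [CharZero k] [LieRing L] [LieAlgebra k L]
  [FiniteDimensional k L] [LieAlgebra.IsKilling k L] {H : LieSubalgebra k L}
  [H.IsCartanSubalgebra]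
variable {W : Type*} [AddCommGroup W] [Module k W] [LieRingModule L W] [LieModule k L W]
  [FiniteDimensional k W]
variable {m : ℕ} {w : Basis (Fin m) k W} {χ : ℕ → H → k} {φ : (H → k) →ₗ[ℚ] ℚ}

theorem lam_zero (χ : ℕ → H → k) : lam χ 0 = 0 := by
  unfold lam
  rw [Finset.sum_range_zero, neg_zero]

theorem rcr (χ : ℕ → H → k) (q : ℕ) (x : H) : df χ (q + 1) x =
    2 * lam χ (q + 1) x - lam χ q x - lam χ (q + 2) x := by
  rw [df_eq]
  simp only [Pi.sub_apply, nsmul_eq_mul]
  norm_num

namespace Sys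

theorem lam_m (S : Sys w χ φ) : lam χ m = 0 := by
  unfold lam
  rw [S.tr, neg_zero]

/-- Values vanish, also at the ends. -/
theorem val_zero' (S : Sys w χ φ) {p j : ℕ} (hpm : p ≤ m) (hj : 1 ≤ j) (hjm : j < m)
    (h : 1 ≤ p → p < m → df χ j ≠ df χ p) : lam χ p (cv (df χ j)) = 0 := by
  rcases Nat.eq_zero_or_pos p with h0 | h0
  · rw [h0, lam_zero, Pi.zero_apply]
  · rcases Nat.lt_or_ge p m with h1 | h1
    · exact S.val_other h0 h1 hj hjm (h h0 h1)
    · have h2 : p = m := le_antisymm hpm h1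
      rw [h2, S.lam_m, Pi.zero_apply]

theorem fold (S : Sys w χ φ) {K : ℕ} (hK : 1 ≤ K) (hKm : K + 1 < m)
    (h : df χ K = df χ (K + 1))
    (hz : lam χ K (cv (df χ K)) = lam χ (K + 1) (cv (df χ K))) :
    ∀ t ≤ K, K + 1 + t ≤ m ∧
      (∀ s, 1 ≤ s → s < m → lam χ (K - t) (cv (df χ s)) = lam χ (K + 1 + t) (cv (df χ s))) ∧
      (∀ s, 1 ≤ s → s < m → lam χ (K + 1 - t) (cv (df χ s)) = lam χ (K + t) (cv (df χ s))) := by
  intro t
  induction t with
  | zero =>
    intro _
    have h1 : ∀ s, 1 ≤ s → s < m → lam χ K (cv (df χ s)) = lam χ (K + 1) (cv (df χ s)) := by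
      intro s hs hsm
      by_cases h2 : df χ s = df χ K
      · rw [h2, hz]
      · rw [S.val_other hK (by omega) hs hsm h2, S.val_other (by omega) hKm hs hsm (by rwa [← h])]
    exact ⟨by omega, h1, fun s hs hsm => (h1 s hs hsm).symm⟩
  | succ t ih =>
    intro ht
    obtain ⟨h1, h2, h3⟩ := ih (by omega)
    obtain ⟨r, hr⟩ : ∃ r, K - t = r + 1 := ⟨K - t - 1, by omega⟩
    rw [hr] at h2
    have hrm : r + 1 < m := by omega
    obtain ⟨z, hz1, hz2⟩ := S.val_pos (p := r + 1) (by omega) hrm
    have h4 : K + 1 + t < m := by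
      refine lt_of_le_of_ne h1 fun h5 => ?_
      have h6 := h2 (r + 1) (by omega) hrm
      rw [h5, S.lam_m, hz1, Pi.zero_apply] at h6
      have h7 : z = 0 := by exact_mod_cast h6
      omega
    have h5 : df χ (r + 1) = df χ (K + 1 + t) := by
      by_contra h5
      have h6 := h2 (r + 1) (by omega) hrm
      rw [S.val_other (by omega) h4 (by omega) hrm h5, hz1] at h6
      have h7 : z = 0 := by exact_mod_cast h6
      omega
    refine ⟨by omega, fun s hs hsm => ?_, fun s hs hsm => ?_⟩
    · have e1 := rcr χ r (cv (df χ s))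
      have e2 := rcr χ (K + t) (cv (df χ s))
      have e3 : K + t + 1 = K + 1 + t := by omega
      have e4 : r + 2 = K + 1 - t := by omega
      have e5 : K - (t + 1) = r := by omega
      have e6 : K + 1 + (t + 1) = K + t + 2 := by omega
      rw [e3] at e2
      rw [e4, h3 s hs hsm, h5, h2 s hs hsm] at e1
      rw [e5, e6]
      linear_combination e1 - e2
    · have e1 : K + 1 - (t + 1) = r + 1 := by omega
      have e2 : K + (t + 1) = K + 1 + t := by omega
      rw [e1, e2]
      exact h2 s hs hsm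

/-- **The roots are pairwise different.** -/
theorem distinct (S : Sys w χ φ) (hm : Even m) : ∀ j, j < m → ∀ i, 1 ≤ i → i < j →
    df χ i ≠ df χ j := by
  intro j
  induction j using Nat.strong_induction_on with
  | _ j ih =>
    intro hjm i hi hij hEq
    have hd : ∀ a b, 1 ≤ a → 1 ≤ b → a < j → b < j → a ≠ b → df χ a ≠ df χ b := by
      intro a b ha hb haj hbj hab
      rcases lt_or_gt_of_ne hab with h | h
      · exact ih b hbj (by omega) a ha h
      · exact (ih a haj (by omega) b hb h).symm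
    by_cases h1 : i + 1 = j
    · subst h1
      obtain ⟨q, rfl⟩ : ∃ q, i = q + 1 := ⟨i - 1, by omega⟩
      obtain ⟨z1, hz1, -⟩ := S.val_pos (p := q + 1) hi (by omega)
      obtain ⟨z2, hz2, -⟩ := S.val_pos (p := q + 1 + 1) (by omega) hjm
      rw [← hEq] at hz2
      have e1 := rcr χ q (cv (df χ (q + 1)))
      have e2 := rcr χ (q + 1) (cv (df χ (q + 1)))
      have hr := S.isRt_df (p := q + 1) hi (by omega)
      have e3 : lam χ q (cv (df χ (q + 1))) = 0 :=
        S.val_zero' (by omega) hi (by omega) fun h2 _ => hd _ _ hi h2 (by omega) (by omega)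
          (by omega)
      have e4 : lam χ (q + 1 + 2) (cv (df χ (q + 1))) = 0 :=
        S.val_zero' (by omega) hi (by omega) fun _ h2 => S.no_back h2
      rw [rt_two hr, e3, hz1] at e1
      have e5 : q + 2 = q + 1 + 1 := rfl
      rw [e5, hz2] at e1
      rw [← hEq, rt_two hr, e4, hz1, hz2] at e2
      have hz : (z1 : k) = z2 := by linear_combination (1 / 3 : k) * (e2 - e1)
      have hf := S.fold hi hjm hEq (by rw [hz1, hz2, hz]) (q + 1) le_rfl
      obtain ⟨h2, h3, -⟩ := hf
      rcases eq_or_lt_of_le h2 with h4 | h4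
      · rw [← h4] at hm
        obtain ⟨r, hr⟩ := hm
        omega
      · obtain ⟨z, hz3, hz4⟩ := S.val_pos (p := q + 1 + 1 + (q + 1)) (by omega) h4
        have h5 := h3 _ (by omega) h4
        rw [hz3, Nat.sub_self, lam_zero, Pi.zero_apply] at h5
        have h6 : (0 : ℤ) = z := by exact_mod_cast h5
        omega
    · by_cases h2 : i + 2 = j
      · subst h2
        obtain ⟨q, rfl⟩ : ∃ q, i = q + 1 := ⟨i - 1, by omega⟩
        exact S.no_back hjm hEq
      · obtain ⟨s, rfl⟩ : ∃ s, j = s + 1 := ⟨j - 1, by omega⟩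
        obtain ⟨q, rfl⟩ : ∃ q, i = q + 1 := ⟨i - 1, by omega⟩
        have hs : 1 ≤ s := by omega
        have hsm : s < m := by omega
        obtain ⟨z, hz, hz0⟩ := S.val_pos hs hsm
        obtain ⟨z', hz', hz0'⟩ := S.val_int (p := s + 2) (by omega) (S.isRt_df hs hsm)
          (S.pos s hs hsm)
        have e1 := rcr χ s (cv (df χ s))
        have e2 : lam χ (s + 1) (cv (df χ s)) = 0 :=
          S.val_zero' (by omega) hs hsm fun _ _ => by
            rw [← hEq]
            exact hd _ _ hs hi (by omega) (by omega) (by omega)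
        rw [e2, hz, hz'] at e1
        have e3 := rcr χ q (cv (df χ s))
        have e4 : lam χ (q + 1) (cv (df χ s)) = 0 :=
          S.val_zero' (by omega) hs hsm fun h3 _ => hd _ _ hs h3 (by omega) (by omega) (by omega)
        have e5 : lam χ q (cv (df χ s)) = 0 :=
          S.val_zero' (by omega) hs hsm fun h3 _ => hd _ _ hs h3 (by omega) (by omega) (by omega)
        have e6 : lam χ (q + 2) (cv (df χ s)) = 0 :=
          S.val_zero' (by omega) hs hsm fun h3 _ => hd _ _ hs h3 (by omega) (by omega) (by omega)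
        rw [e4, e5, e6, hEq, e1] at e3
        have h3 : z + z' = 0 := by
          have h4 : ((z + z' : ℤ) : k) = 0 := by
            push_cast
            linear_combination -e3
          exact_mod_cast h4
        omega

theorem distinct' (S : Sys w χ φ) (hm : Even m) {i j : ℕ} (hi : 1 ≤ i) (hj : 1 ≤ j) (him : i < m)
    (hjm : j < m) (h : df χ i = df χ j) : i = j := by
  by_contra hne
  rcases lt_or_gt_of_ne hne with h1 | h1
  · exact S.distinct hm j hjm i hi h1 h
  · exact S.distinct hm i him j hj h1 h.symm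

end Sys

/-! ### Elementary operators -/

/-- Elementary operators. -/
noncomputable def El (w : Basis (Fin m) k W) (i j : Fin m) : W →ₗ[k] W :=
  (w.coord j).smulRight (w i)

theorem El_apply (w : Basis (Fin m) k W) (i j : Fin m) (v : W) :
    El w i j v = w.coord j v • w i := rfl

theorem El_basis (w : Basis (Fin m) k W) (i j l : Fin m) :
    El w i j (w l) = if l = j then w i else 0 := by
  rw [El_apply, Basis.coord_apply, Basis.repr_self, Finsupp.single_apply]
  split_ifs
  · rw [one_smul]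
  · rw [zero_smul]

theorem El_comp (w : Basis (Fin m) k W) (i j j' l : Fin m) :
    El w i j ∘ₗ El w j' l = if j = j' then El w i l else 0 := by
  refine w.ext fun r => ?_
  rw [LinearMap.comp_apply, El_basis]
  by_cases h1 : r = l
  · rw [if_pos h1, El_basis]
    by_cases h2 : j = j'
    · rw [if_pos h2, if_pos h2.symm, El_basis, if_pos h1]
    · rw [if_neg h2, if_neg (Ne.symm h2), LinearMap.zero_apply]
  · rw [if_neg h1, map_zero]
    split_ifs
    · rw [El_basis, if_neg h1]
    · rw [LinearMap.zero_apply]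

/-- Generation. -/
theorem gen_sl (w : Basis (Fin m) k W) (R : Submodule k (W →ₗ[k] W))
    (hR : ∀ f ∈ R, ∀ g ∈ R, f ∘ₗ g - g ∘ₗ f ∈ R)
    (h1 : ∀ q (h : q + 1 < m), El w ⟨q + 1, h⟩ ⟨q, by omega⟩ ∈ R)
    (h2 : ∀ q (h : q + 1 < m), El w ⟨q, by omega⟩ ⟨q + 1, h⟩ ∈ R) {f : W →ₗ[k] W}
    (hf : LinearMap.trace k W f = 0) : f ∈ R := by
  have g1 : ∀ d i j : ℕ, ∀ (hi : i < m) (hj : j < m), i = j + (d + 1) →
      El w ⟨i, hi⟩ ⟨j, hj⟩ ∈ R := by
    intro d
    induction d with
    | zero =>
      rintro i j hi hj rfl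
      exact h1 j hi
    | succ d ih =>
      rintro i j hi hj rfl
      have e1 := ih (j + (d + 1)) j (by omega) hj rfl
      have e2 := h1 (j + (d + 1)) hi
      have e3 := hR _ e2 _ e1
      rw [El_comp, El_comp, if_pos rfl, if_neg, sub_zero] at e3
      · exact e3
      · intro h
        have := congrArg Fin.val h
        simp only at this
        omega
  have g2 : ∀ d i j : ℕ, ∀ (hi : i < m) (hj : j < m), j = i + (d + 1) →
      El w ⟨i, hi⟩ ⟨j, hj⟩ ∈ R := by
    intro d
    induction d with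
    | zero =>
      rintro i j hi hj rfl
      exact h2 i hj
    | succ d ih =>
      rintro i j hi hj rfl
      have e1 := ih i (i + (d + 1)) hi (by omega) rfl
      have e2 := h2 (i + (d + 1)) hj
      have e3 := hR _ e1 _ e2
      rw [El_comp, El_comp, if_pos rfl, if_neg, sub_zero] at e3
      · exact e3
      · intro h
        have := congrArg Fin.val h
        simp only at this
        omega
  have g3 : ∀ i j : Fin m, i ≠ j → El w i j ∈ R := by
    intro i j hij
    rcases lt_or_gt_of_ne hij with h | h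
    · have h' : (i : ℕ) < j := h
      exact g2 ((j : ℕ) - i - 1) i j i.2 j.2 (by omega)
    · have h' : (j : ℕ) < i := h
      exact g1 ((i : ℕ) - j - 1) i j i.2 j.2 (by omega)
  have g4 : ∀ i j : Fin m, El w i i - El w j j ∈ R := by
    intro i j
    by_cases hij : i = j
    · rw [hij, sub_self]
      exact R.zero_mem
    · have e3 := hR _ (g3 i j hij) _ (g3 j i (Ne.symm hij))
      rwa [El_comp, El_comp, if_pos rfl, if_pos rfl] at e3
  have g5 : f = ∑ j, ∑ i, w.coord i (f (w j)) • El w i j := by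
    refine w.ext fun l => ?_
    rw [LinearMap.sum_apply, Finset.sum_eq_single l]
    · rw [LinearMap.sum_apply]
      conv_lhs => rw [← w.sum_repr (f (w l))]
      refine Finset.sum_congr rfl fun i _ => ?_
      rw [LinearMap.smul_apply, El_basis, if_pos rfl]
      rfl
    · intro j _ hj
      rw [LinearMap.sum_apply]
      refine Finset.sum_eq_zero fun i _ => ?_
      rw [LinearMap.smul_apply, El_basis, if_neg (Ne.symm hj), smul_zero]
    · intro h
      exact absurd (Finset.mem_univ _) h
  have g6 : ∑ j, w.coord j (f (w j)) = 0 := by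
    rw [LinearMap.trace_eq_matrix_trace k w] at hf
    rw [← hf]
    unfold Matrix.trace
    refine Finset.sum_congr rfl fun j _ => ?_
    rw [Matrix.diag_apply, LinearMap.toMatrix_apply]
    rfl
  rcases Nat.eq_zero_or_pos m with hm | hm
  · subst hm
    rw [g5]
    simp
  set o : Fin m := ⟨0, hm⟩ with ho
  have g7 : f = ∑ j, ∑ i, w.coord i (f (w j)) • (El w i j - if i = j then El w o o else 0) := by
    conv_lhs => rw [g5]
    have e1 : ∑ j, ∑ i, w.coord i (f (w j)) • (El w i j - if i = j then El w o o else 0) =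
        ∑ j, ∑ i, w.coord i (f (w j)) • El w i j -
          ∑ j, ∑ i, w.coord i (f (w j)) • (if i = j then El w o o else 0) := by
      rw [← Finset.sum_sub_distrib]
      refine Finset.sum_congr rfl fun j _ => ?_
      rw [← Finset.sum_sub_distrib]
      refine Finset.sum_congr rfl fun i _ => ?_
      rw [smul_sub]
    have e2 : ∑ j, ∑ i, w.coord i (f (w j)) • (if i = j then El w o o else 0) = 0 := by
      have e3 : ∀ j, ∑ i, w.coord i (f (w j)) • (if i = j then El w o o else 0) =
          w.coord j (f (w j)) • El w o o := by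
        intro j
        rw [Finset.sum_eq_single j, if_pos rfl]
        · intro i _ hij
          rw [if_neg hij, smul_zero]
        · intro h
          exact absurd (Finset.mem_univ _) h
      rw [Finset.sum_congr rfl fun j _ => e3 j, ← Finset.sum_smul, g6, zero_smul]
    rw [e1, e2, sub_zero]
  rw [g7]
  refine R.sum_mem fun j _ => R.sum_mem fun i _ => R.smul_mem _ ?_
  by_cases hij : i = j
  · rw [if_pos hij, hij]
    exact g4 j o
  · rw [if_neg hij, sub_zero]
    exact g3 i j hij

namespace Sys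

theorem el_mem (S : Sys w χ φ) (hm : Even m) {q : ℕ} (h : q + 1 < m) :
    (∃ x : L, toEnd k L W x = El w ⟨q + 1, h⟩ ⟨q, by omega⟩) ∧
      ∃ x : L, toEnd k L W x = El w ⟨q, by omega⟩ ⟨q + 1, h⟩ := by
  constructor
  · obtain ⟨x, hx, h0⟩ := S.root_df h
    refine ⟨(w.coord ⟨q + 1, h⟩ ⁅x, w ⟨q, by omega⟩⁆)⁻¹ • x, w.ext fun j => ?_⟩
    rw [map_smul, LinearMap.smul_apply, El_basis]
    change _ • ⁅x, w j⁆ = _
    by_cases hj : j = ⟨q, by omega⟩
    · rw [if_pos hj, hj]
      have h1 : ⁅x, w ⟨q, by omega⟩⁆ = w.coord ⟨q + 1, h⟩ ⁅x, w ⟨q, by omega⟩⁆ •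
          w ⟨q + 1, h⟩ := by
        refine S.wt_line (j := ⟨q + 1, h⟩) ?_
        refine lie_mem_wt' hx (S.hw ⟨q, by omega⟩) ?_
        unfold df
        rw [Nat.add_sub_cancel]
        change χ q + (χ (q + 1) - χ q) = χ (q + 1)
        abel
      conv_lhs => rw [h1]
      rw [smul_smul]
      have h2 : (w.coord ⟨q + 1, h⟩) ((w.coord ⟨q + 1, h⟩ ⁅x, w ⟨q, by omega⟩⁆) •
          w ⟨q + 1, h⟩) = w.coord ⟨q + 1, h⟩ ⁅x, w ⟨q, by omega⟩⁆ := by
        rw [← h1]
      rw [h2, inv_mul_cancel₀ h0, one_smul]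
    · rw [if_neg hj]
      by_contra h1
      have h2 : ⁅x, w j⁆ ≠ 0 := by
        intro h3
        rw [h3, smul_zero] at h1
        exact h1 rfl
      obtain ⟨l, h3, h4, -⟩ := S.raise_df (s := q + 1) (by omega) h hx h2
      have h5 := S.distinct' hm (i := l) (j := q + 1) (by omega) (by omega) l.2 h h4
      exact hj (Fin.ext (show (j : ℕ) = q by omega))
  · have hr := S.isRt_df (p := q + 1) (by omega) h
    obtain ⟨e, f, t⟩ := exists_tri hr
    have hlow : ∀ j : Fin m, ⁅f, w j⁆ ≠ 0 → (j : ℕ) = q + 1 ∧ ∃ l : Fin m, (l : ℕ) = q ∧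
        ⁅f, w j⁆ ∈ wt H W (χ l) := by
      intro j hj
      have h1 := t.lie_f (S.hw j)
      obtain ⟨l, h2, h3⟩ := exists_coord_wt S.hw h1 hj
      have h4 : df χ (q + 1) = χ j - χ l := by
        rw [← h2]
        abel
      have h5 : (l : ℕ) < j := by
        by_contra h5
        have h6 := S.pos (q + 1) (by omega) h
        rw [h4, map_sub] at h6
        rcases Nat.lt_or_ge (j : ℕ) l with h7 | h7
        · have := S.phi_lt h7 l.2
          linarith
        · have h8 : (j : ℕ) = l := by omega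
          rw [h8] at h6
          linarith
      rw [chi_sub (m := m) χ h5.le j.2] at h4
      obtain ⟨r, hr1, hr2, hr3, hr4, hr5⟩ := S.indec (j := q + 1) (by omega) h h4
      have h6 : (j : ℕ) = r := by
        by_contra h6
        have := hr4 j (by omega) j.2 h6
        rw [if_pos ⟨h5, le_rfl⟩] at this
        exact one_ne_zero this
      have h7 : (l : ℕ) + 1 = r := by
        by_contra h7
        have := hr4 (l + 1) (by omega) (by have := j.2; omega) h7
        rw [if_pos ⟨by omega, by omega⟩] at this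
        exact one_ne_zero this
      have h8 := S.distinct' hm (i := q + 1) (j := r) (by omega) hr1 h hr2 hr5
      refine ⟨by omega, l, by omega, ?_⟩
      rw [← h2]
      exact h1
    have h0 : ⁅f, w ⟨q + 1, h⟩⁆ ≠ 0 := by
      intro h0
      refine t.ht.f_ne_zero (S.fai f fun v => ?_)
      rw [← w.sum_repr v, lie_sum]
      refine Finset.sum_eq_zero fun j _ => ?_
      rw [lie_smul]
      by_cases hj : ⁅f, w j⁆ = 0
      · rw [hj, smul_zero]
      · have h1 : j = ⟨q + 1, h⟩ := Fin.ext (hlow j hj).1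
        rw [h1, h0, smul_zero]
    obtain ⟨-, l, hl, h1⟩ := hlow _ h0
    have hl' : l = ⟨q, by omega⟩ := Fin.ext hl
    rw [hl'] at h1
    have h2 := S.wt_line h1
    have h3 : w.coord ⟨q, by omega⟩ ⁅f, w ⟨q + 1, h⟩⁆ ≠ 0 := by
      intro h3
      rw [h3, zero_smul] at h2
      exact h0 h2
    refine ⟨(w.coord ⟨q, by omega⟩ ⁅f, w ⟨q + 1, h⟩⁆)⁻¹ • f, w.ext fun j => ?_⟩
    rw [map_smul, LinearMap.smul_apply, El_basis]
    change _ • ⁅f, w j⁆ = _
    by_cases hj : j = ⟨q + 1, h⟩
    · rw [if_pos hj, hj]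
      set c := w.coord ⟨q, by omega⟩ ⁅f, w ⟨q + 1, h⟩⁆ with hc
      rw [h2, smul_smul, inv_mul_cancel₀ h3, one_smul]
    · rw [if_neg hj]
      have h4 : ⁅f, w j⁆ = 0 := by
        by_contra h4
        exact hj (Fin.ext (hlow j h4).1)
      rw [h4, smul_zero]

/-- **All operators with trace zero.** -/
theorem full (S : Sys w χ φ) (hm : Even m) {f : W →ₗ[k] W} (hf : LinearMap.trace k W f = 0) :
    ∃ x : L, toEnd k L W x = f := by
  have h1 := gen_sl w (LinearMap.range (toEnd k L W : L →ₗ[k] (W →ₗ[k] W))) (by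
    rintro _ ⟨x, rfl⟩ _ ⟨y, rfl⟩
    refine ⟨⁅x, y⁆, ?_⟩
    ext v
    change ⁅⁅x, y⁆, v⁆ = ⁅x, ⁅y, v⁆⁆ - ⁅y, ⁅x, v⁆⁆
    rw [lie_lie]) (fun q h => (S.el_mem hm h).1) (fun q h => (S.el_mem hm h).2) hf
  exact h1

end Sys

end Pool.Agent.TH164.Un
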