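import Pool.Agent.TH164.Un.Un5
import Pool.Agent.TH164.Spin.Ss

/-!
# Lie algebras of operators which are irreducible on all exterior powers
-/

set_option autoImplicit false
set_option linter.unusedSectionVars false
set_option linter.unusedVariables false

open Module LieModule LieAlgebra LieAlgebra.IsKilling Function

attribute [local instance 100] LieRing.ofAssociativeRing

namespace Pool.Agent.TH164.Un

open Pool.Agent.TH164.Spin

section ex

variable {k L : Type*} [Field k] [IsAlgClosed k] [CharZero k] [LieRing L] [LieAlgebra k L]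
  [FiniteDimensional k L] [LieAlgebra.IsKilling k L] {H : LieSubalgebra k L}
  [H.IsCartanSubalgebra]
variable {W : Type*} [AddCommGroup W] [Module k W] [LieRingModule L W] [LieModule k L W]
  [FiniteDimensional k W] {m : ℕ}

theorem exists_basis (hD : Diag H W) (hm : finrank k W = m) :
    ∃ (w : Basis (Fin m) k W) (χ : Fin m → H → k), ∀ j, w j ∈ wt H W (χ j) := by
  set s : Set W := {v | ∃ χ, v ∈ wt H W χ} with hs
  have h1 : Submodule.span k s = ⊤ := by
    rw [eq_top_iff, ← hD]
    exact iSup_le fun χ v hv => Submodule.subset_span ⟨χ, hv⟩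
  obtain ⟨b, hb, hb1, hb2⟩ := exists_linearIndependent k s
  set B : Basis b k W := Basis.mk hb2 (by
    rw [Subtype.range_coe, hb1, h1]) with hB
  haveI : Finite b := Module.Finite.finite_basis B
  letI : Fintype b := Fintype.ofFinite b
  have h2 : Fintype.card b = m := by
    rw [← hm, Module.finrank_eq_card_basis B]
  set e := Fintype.equivFinOfCardEq h2 with he
  have h3 : ∀ j : Fin m, ∃ χ, (B.reindex e) j ∈ wt H W χ := by
    intro j
    rw [Basis.reindex_apply, hB, Basis.mk_apply]
    exact hb (e.symm j).2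
  choose χ hχ using h3
  exact ⟨B.reindex e, χ, hχ⟩

theorem fo_top0 {w : Basis (Fin m) k W} {χ : ℕ → H → k}
    (hw : ∀ j : Fin m, w j ∈ wt H W (χ j)) {p : ℕ} (hpm : p ≤ m) :
    fo w (Fin.castLE hpm : Fin p → Fin m) ∈ wt H (W [⋀^Fin p]→ₗ[k] k) (lam χ p) := by
  have h1 := fo_wt w hw (Fin.castLE_injective hpm)
  have h2 : -∑ i, χ ((Fin.castLE hpm i : Fin m) : ℕ) = lam χ p := by
    unfold lam
    rw [← Fin.sum_univ_eq_sum_range]
    rfl
  rwa [h2] at h1

theorem fo_bb0 {w : Basis (Fin m) k W} {χ : ℕ → H → k}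
    (hw : ∀ j : Fin m, w j ∈ wt H W (χ j)) {q : ℕ} (h : q + 1 < m) :
    fo w (bb q m h) ∈ wt H (W [⋀^Fin (q + 1)]→ₗ[k] k) (lam χ (q + 1) - df χ (q + 1)) := by
  have h1 := fo_wt w hw (bb_inj h)
  have h2 : -∑ i, χ (bb q m h i : ℕ) = lam χ (q + 1) - df χ (q + 1) := by
    have h3 : ∑ i : Fin (q + 1), χ (bb q m h i : ℕ) =
        ∑ i ∈ Finset.range (q + 1), χ (if i = q then q + 1 else i) := by
      rw [← Fin.sum_univ_eq_sum_range (fun i => χ (if i = q then q + 1 else i))]
      rfl
    rw [h3, Finset.sum_range_succ, if_pos rfl, Finset.sum_congr rfl (g := fun i => χ i) (by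
      intro i hi
      rw [Finset.mem_range] at hi
      rw [if_neg (by omega)])]
    unfold lam df
    rw [Finset.sum_range_succ, Nat.add_sub_cancel]
    abel
  rwa [h2] at h1

theorem not_prop (w : Basis (Fin m) k W) {q : ℕ} (h : q + 1 < m) :
    fo w (Fin.castLE h.le : Fin (q + 1) → Fin m) ∉ Submodule.span k {fo w (bb q m h)} := by
  intro h2
  obtain ⟨c, hc⟩ := Submodule.mem_span_singleton.1 h2
  have h3 := fo_self w (Fin.castLE_injective h.le)
  have h4 : fo w (bb q m h) (fun i => w (Fin.castLE h.le i)) = 0 := by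
    by_contra h5
    have h6 := fo_im w (Fin.castLE_injective h.le) (bb_inj h) h5
    have h7 : (⟨q, by omega⟩ : Fin m) ∈ im (bb q m h) := by
      rw [← h6]
      exact mem_im.2 ⟨⟨q, by omega⟩, rfl⟩
    rw [mem_im_bb] at h7
    simp only at h7
    omega
  rw [← hc, AlternatingMap.smul_apply, h4, smul_zero] at h3
  exact zero_ne_one h3

theorem exists_sys (hD : Diag H W) (hm : finrank k W = m)
    (hdin : ∀ p, 1 ≤ p → p < m → DecIn (k := k) L W p)
    (fai : ∀ x : L, (∀ v : W, ⁅x, v⁆ = 0) → x = 0)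
    (htr : ∀ x : L, LinearMap.trace k W (toEnd k L W x) = 0) :
    ∃ (w : Basis (Fin m) k W) (χ : ℕ → H → k) (φ : (H → k) →ₗ[ℚ] ℚ), Sys w χ φ := by
  obtain ⟨w', χ', hw'⟩ := exists_basis hD hm
  have hF : ({β : H → k | IsRt H β} ∪ Set.range fun p : Fin m × Fin m => χ' p.1 - χ' p.2).Finite :=
    finite_rt.union (Set.finite_range _)
  obtain ⟨φ, -, hφ⟩ := exists_phi (⊥ : Submodule ℚ (H → k)) hF
  have hgen : ∀ β, IsRt H β → φ β ≠ 0 := fun β hβ => hφ β (Or.inl hβ) (by
    rw [Submodule.mem_bot]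
    exact hβ.1)
  have hsep : ∀ i j, φ (χ' i) = φ (χ' j) → χ' i = χ' j := by
    intro i j hij
    by_contra h1
    refine hφ (χ' i - χ' j) (Or.inr ⟨(i, j), rfl⟩) ?_ ?_
    · rw [Submodule.mem_bot]
      exact sub_ne_zero.2 h1
    · rw [map_sub, hij, sub_self]
  set σ := Tuple.sort (fun i => φ (χ' i)) with hσ
  have hmono : Monotone ((fun i => φ (χ' i)) ∘ σ) := Tuple.monotone_sort _
  set w := w'.reindex σ.symm with hwdef
  set χ : ℕ → H → k := fun n => if h : n < m then χ' (σ ⟨n, h⟩) else 0 with hχ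
  have hχv : ∀ j : Fin m, χ j = χ' (σ j) := by
    intro j
    simp only [hχ, j.2, dif_pos]
  have hw : ∀ j : Fin m, w j ∈ wt H W (χ j) := by
    intro j
    rw [hχv, hwdef, Basis.reindex_apply, Equiv.symm_symm]
    exact hw' (σ j)
  have hweak : ∀ t, 1 ≤ t → t < m → 0 ≤ φ (df χ t) := by
    intro t ht htm
    have h1 := hmono (show (⟨t - 1, by omega⟩ : Fin m) ≤ ⟨t, htm⟩ from Nat.sub_le t 1)
    unfold df
    have h2 := hχv ⟨t, htm⟩
    have h3 := hχv ⟨t - 1, by omega⟩
    simp only at h2 h3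
    rw [h2, h3, map_sub, sub_nonneg]
    exact h1
  have htop : ∀ p ≤ m, ∀ μ, wt H (W [⋀^Fin p]→ₗ[k] k) μ ≠ ⊥ → φ μ ≤ φ (lam χ p) := by
    intro p hp μ hμ
    obtain ⟨a, ha, h1⟩ := exists_wt_form w hw hμ
    rw [h1, sum_chi χ ha hp]
    unfold lam
    rw [map_neg, map_neg, map_add, neg_add]
    have h2 : 0 ≤ φ (∑ t ∈ Finset.Ico 1 m, exc a t • df χ t) := by
      rw [map_sum]
      refine Finset.sum_nonneg fun t ht => ?_
      rw [Finset.mem_Ico] at ht
      rw [map_nsmul, nsmul_eq_mul]
      exact mul_nonneg (Nat.cast_nonneg _) (hweak t ht.1 ht.2)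
    linarith
  refine ⟨w, χ, φ, ⟨hw, ?_, hgen, hdin, fai, ?_⟩⟩
  · intro t ht htm
    obtain ⟨q, rfl⟩ : ∃ q, t = q + 1 := ⟨t - 1, by omega⟩
    refine lt_of_le_of_ne (hweak _ ht htm) fun h0 => ?_
    have hb0 : fo w (bb q m htm) ≠ 0 := by
      intro h
      have h1 := fo_self w (bb_inj htm)
      rw [h, AlternatingMap.zero_apply] at h1
      exact zero_ne_one h1
    refine not_prop w htm (killed (hdin (q + 1) ht htm) hgen (fo_bb0 hw htm) hb0 ?_
      (ν := lam χ (q + 1)) ?_ (fo_top0 hw htm.le))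
    · intro β hβ x hx
      by_contra h1
      have h2 := htop _ htm.le _ ((Submodule.ne_bot_iff _).2
        ⟨_, lie_mem_wt hx (fo_bb0 hw htm), h1⟩)
      rw [map_add, map_sub, ← h0] at h2
      linarith
    · rw [map_sub, ← h0, sub_zero]
  · funext x
    rw [Finset.sum_apply, Pi.zero_apply]
    have h1 := htr (x : L)
    rw [LinearMap.trace_eq_matrix_trace k w] at h1
    unfold Matrix.trace at h1
    rw [← Fin.sum_univ_eq_sum_range (fun i => χ i x), ← h1]
    refine Finset.sum_congr rfl fun j _ => ?_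
    rw [Matrix.diag_apply, LinearMap.toMatrix_apply, toEnd_apply_apply, hw j x, map_smul,
      Basis.repr_self, Finsupp.smul_apply, Finsupp.single_eq_same, smul_eq_mul, mul_one]

end ex

section main

variable {k : Type*} [Field k] [IsAlgClosed k] [CharZero k]
variable {W : Type*} [AddCommGroup W] [Module k W] [FiniteDimensional k W]

/-- **Theorem.** Let `m` be even. A Lie algebra of operators with trace zero on a space of dimension
`m` which is irreducible on all spaces of alternating forms contains all operators with trace zero. -/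
theorem sl_full {m : ℕ} (hm : Even m) (hW : finrank k W = m) (L : LieSubalgebra k (End k W))
    (htr : ∀ x ∈ L, LinearMap.trace k W x = 0)
    (hD : ∀ p, 1 ≤ p → p < m → ∀ U : Submodule k (W [⋀^Fin p]→ₗ[k] k),
      (∀ x ∈ L, ∀ ω ∈ U, D x ω ∈ U) → U ≠ ⊥ → ∀ ξ : Fin p → Dual k W, dec ξ ∈ U)
    (f : End k W) (hf : LinearMap.trace k W f = 0) : f ∈ L := by
  rcases Nat.eq_zero_or_pos m with hm0 | hm0
  · haveI : Subsingleton W := finrank_zero_iff.1 (hW.trans hm0)
    have : f = 0 := LinearMap.ext fun v => Subsingleton.elim _ _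
    rw [this]
    exact L.zero_mem
  have hm2 : 1 < m := by
    obtain ⟨r, hr⟩ := hm
    omega
  haveI : Nontrivial W := Module.nontrivial_of_finrank_pos (R := k) (by omega)
  have irr : ∀ V : Submodule k W, (∀ x ∈ L, ∀ v ∈ V, x v ∈ V) → V ≠ ⊥ → V = ⊤ := by
    intro V hV h0
    by_contra h1
    obtain ⟨v, hv, hv0⟩ := Submodule.exists_mem_ne_zero_of_ne_bot h0
    obtain ⟨g, hg0, hg⟩ := Submodule.exists_le_ker_of_lt_top V (lt_top_iff_ne_top.2 h1)
    have hdec : ∀ (ξ : Dual k W) (u : W), (dec fun _ : Fin 1 => ξ) (fun _ => u) = ξ u := by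
      intro ξ u
      rw [dec_apply, Matrix.det_fin_one, Matrix.of_apply]
    have h2 := hD 1 le_rfl hm2
      { carrier := {ω | ∀ u ∈ V, ω (fun _ => u) = 0}
        zero_mem' := fun u _ => rfl
        add_mem' := by
          intro a b ha hb u hu
          rw [AlternatingMap.add_apply, ha u hu, hb u hu, add_zero]
        smul_mem' := by
          intro c a ha u hu
          rw [AlternatingMap.smul_apply, ha u hu, smul_zero] } (by
      intro x hx ω hω u hu
      rw [D_apply, Fin.sum_univ_one]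
      have h3 : update (fun _ : Fin 1 => u) 0 (x u) = fun _ => x u := by
        funext i
        rw [Subsingleton.elim i 0, update_self]
      rw [h3]
      exact hω _ (hV x hx u hu)) (by
      refine (Submodule.ne_bot_iff _).2 ⟨dec fun _ => g, fun u hu => ?_, ?_⟩
      · rw [hdec]
        exact LinearMap.mem_ker.1 (hg hu)
      · intro h3
        apply hg0
        refine LinearMap.ext fun u => ?_
        rw [← hdec g u, h3, AlternatingMap.zero_apply, LinearMap.zero_apply])
    obtain ⟨ξ, hξ⟩ := Module.exists_dual_forall_apply_ne_zero (K := k)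
      (fun _ : Unit => v) (fun _ => hv0)
    have h3 := h2 (fun _ => ξ) v hv
    rw [hdec] at h3
    exact hξ () h3
  haveI i3 : LieModule.IsIrreducible k L W := LieModule.IsIrreducible.mk fun N hN => by
    have h1 := irr N.toSubmodule (fun x hx m hm => N.lie_mem (x := ⟨x, hx⟩) hm) (by
      intro h2
      exact hN (by simpa using h2))
    simpa using h1
  haveI i4 : LieAlgebra.HasTrivialRadical k L :=
    LieAlgebra.hasTrivialRadical_of_isIrreducible_of_isFaithful k L W fun x => htr x x.2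
  haveI i5 : LieAlgebra.IsKilling k L := inferInstance
  obtain ⟨x0, hx0⟩ := LieAlgebra.exists_isCartanSubalgebra_engel k L
  set H := LieSubalgebra.engel k x0 with hH
  haveI i6 : H.IsCartanSubalgebra := hx0
  have hss : ∀ h : H, (toEnd k L W (h : L)).IsSemisimple := fun h =>
    isSemisimple_of_mem L irr H h
  obtain ⟨w, χ, φ, S⟩ := exists_sys (H := H) (m := m) (diag_S hss) hW (by
    intro p hp hpm U hU h0 ξ
    refine hD p hp hpm U (fun x hx ω hω => ?_) h0 ξ
    have h1 := hU ⟨x, hx⟩ ω hω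
    rw [lie_def] at h1
    exact (Submodule.neg_mem_iff _).1 h1) (by
    intro x hx
    exact Subtype.ext (LinearMap.ext fun v => hx v)) (fun x => htr x x.2)
  obtain ⟨x, hx⟩ := S.full hm hf
  have h1 : (x : End k W) = f := hx
  rw [← h1]
  exact x.2

end main

end Pool.Agent.TH164.Un
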