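import Pool.Agent.TH164.Un.Un1
import Pool.Agent.TH164.Spin.Evn

/-!
# Linear relations between minors and stable spaces of forms
-/

set_option autoImplicit false
set_option linter.unusedSectionVars false
set_option linter.unusedVariables false

open Module Matrix Function

namespace Pool.Agent.TH164.Un

open Pool.Agent.TH164.Spin Pool.Agent.TH119.DR Pool.Agent.TH164.A1

variable {m p : ℕ}

/-- The tensor power of a matrix. -/
def tens (p : ℕ) (Y : Matrix (Fin m) (Fin m) ℂ) :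
    Matrix (Fin p → Fin m) (Fin p → Fin m) ℂ :=
  Matrix.of fun a b => ∏ i, Y (a i) (b i)

/-- The derivation of the tensor power. -/
def DJ (p : ℕ) (x : Matrix (Fin m) (Fin m) ℂ) :
    Matrix (Fin p → Fin m) (Fin p → Fin m) ℂ :=
  Matrix.of fun a b => ∑ i, x (a i) (b i) *
    ∏ j ∈ Finset.univ.erase i, (1 : Matrix (Fin m) (Fin m) ℂ) (a j) (b j)

/-- The antisymmetrizer. -/
def asy (m p : ℕ) : Matrix (Fin p → Fin m) (Fin p → Fin m) ℂ :=
  Matrix.of fun c b => ∑ σ : Equiv.Perm (Fin p), ((Equiv.Perm.sign σ : ℤ) : ℂ) *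
    (if c = b ∘ σ then 1 else 0)

/-- The matrix of minors. -/
def minors (p : ℕ) (Y : Matrix (Fin m) (Fin m) ℂ) :
    Matrix (Fin p → Fin m) (Fin p → Fin m) ℂ :=
  Matrix.of fun a b => (Y.submatrix a b).det

theorem minors_eq (Y : Matrix (Fin m) (Fin m) ℂ) : minors p Y = tens p Y * asy m p := by
  ext a b
  rw [Matrix.mul_apply]
  unfold minors tens asy
  simp only [Matrix.of_apply]
  rw [← Matrix.det_transpose, Matrix.det_apply']
  simp only [Finset.mul_sum]
  rw [Finset.sum_comm]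
  refine Finset.sum_congr rfl fun σ _ => ?_
  rw [Finset.sum_eq_single (b ∘ σ)]
  · rw [if_pos rfl, mul_one, mul_comm]
    rfl
  · intro c _ hc
    rw [if_neg hc, mul_zero, mul_zero]
  · intro h
    exact absurd (Finset.mem_univ _) h

theorem DJ_map (δ : Derivation ℚ ℂ ℂ) (x : Matrix (Fin m) (Fin m) ℂ) :
    (DJ p x).map δ = DJ p (x.map δ) := by
  ext a b
  rw [Matrix.map_apply]
  unfold DJ
  simp only [Matrix.of_apply, Matrix.map_apply]
  rw [map_sum]
  refine Finset.sum_congr rfl fun i _ => ?_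
  have h1 : δ (∏ j ∈ Finset.univ.erase i, (1 : Matrix (Fin m) (Fin m) ℂ) (a j) (b j)) = 0 := by
    refine deriv_alg δ (mem_QA.1 (QA.prod_mem fun j _ => ?_))
    rw [Matrix.one_apply]
    split_ifs
    · exact QA.one_mem
    · exact QA.zero_mem
  rw [Derivation.leibniz, h1, smul_zero, zero_add, smul_eq_mul, mul_comm]

theorem asy_map (δ : Derivation ℚ ℂ ℂ) : (asy m p).map δ = 0 := by
  ext a b
  rw [Matrix.map_apply, Matrix.zero_apply]
  unfold asy
  rw [Matrix.of_apply]
  refine deriv_alg δ (mem_QA.1 (QA.sum_mem fun σ _ => QA.mul_mem (intCast_mem QA _) ?_))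
  split_ifs
  · exact QA.one_mem
  · exact QA.zero_mem

theorem tens_map (δ : Derivation ℚ ℂ ℂ) {X X' : Matrix (Fin m) (Fin m) ℂ} (h : X' * X = 1) :
    (tens p X).map δ = DJ p (X.map δ * X') * tens p X := by
  ext a b
  rw [Matrix.map_apply, Matrix.mul_apply]
  unfold tens DJ
  simp only [Matrix.of_apply]
  rw [der_prod]
  simp only [Finset.sum_mul]
  rw [Finset.sum_comm]
  refine Finset.sum_congr rfl fun i _ => ?_
  set F : Fin p → Fin m → ℂ := fun j c => if j = i then (X.map δ * X') (a j) c * X c (b j)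
    else (1 : Matrix (Fin m) (Fin m) ℂ) (a j) c * X c (b j) with hF
  have h1 : ∀ c : Fin p → Fin m, (X.map δ * X') (a i) (c i) *
      (∏ j ∈ Finset.univ.erase i, (1 : Matrix (Fin m) (Fin m) ℂ) (a j) (c j)) *
      ∏ j, X (c j) (b j) = ∏ j, F j (c j) := by
    intro c
    rw [← Finset.mul_prod_erase Finset.univ (fun j => X (c j) (b j)) (Finset.mem_univ i),
      ← Finset.mul_prod_erase Finset.univ (fun j => F j (c j)) (Finset.mem_univ i)]
    have h2 : ∏ j ∈ Finset.univ.erase i, F j (c j) =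
        (∏ j ∈ Finset.univ.erase i, (1 : Matrix (Fin m) (Fin m) ℂ) (a j) (c j)) *
        ∏ j ∈ Finset.univ.erase i, X (c j) (b j) := by
      rw [← Finset.prod_mul_distrib]
      refine Finset.prod_congr rfl fun j hj => ?_
      simp only [hF, if_neg (Finset.ne_of_mem_erase hj)]
    rw [h2]
    simp only [hF, if_true]
    ring
  rw [Finset.sum_congr rfl fun c _ => h1 c]
  have h3 := Finset.prod_univ_sum (fun _ : Fin p => (Finset.univ : Finset (Fin m))) F
  rw [Fintype.piFinset_univ] at h3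
  rw [← h3, ← Finset.mul_prod_erase Finset.univ (fun j => ∑ c, F j c) (Finset.mem_univ i)]
  have h4 : ∑ c, F i c = δ (X (a i) (b i)) := by
    simp only [hF, if_true]
    rw [← Matrix.mul_apply, Matrix.mul_assoc, h, Matrix.mul_one, Matrix.map_apply]
  have h5 : ∏ j ∈ Finset.univ.erase i, ∑ c, F j c = ∏ j ∈ Finset.univ.erase i, X (a j) (b j) := by
    refine Finset.prod_congr rfl fun j hj => ?_
    simp only [hF, if_neg (Finset.ne_of_mem_erase hj)]
    rw [← Matrix.mul_apply, Matrix.one_mul]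
  rw [h4, h5, mul_comm]

/-- All linear relations with algebraic coefficients between the minors of size `p` hold for all
matrices. -/
def OnlyTrivial (p : ℕ) (X : Matrix (Fin m) (Fin m) ℂ) : Prop :=
  ∀ B : (Fin p → Fin m) → (Fin p → Fin m) → ℂ, (∀ s t, IsAlgebraic ℚ (B s t)) →
    ∑ s, ∑ t, B s t * (X.submatrix s t).det = 0 →
    ∀ Y : Matrix (Fin m) (Fin m) ℂ, ∑ s, ∑ t, B s t * (Y.submatrix s t).det = 0

theorem exists_op (h : Submodule ℂ (Matrix (Fin m) (Fin m) ℂ))
    {X X' : Matrix (Fin m) (Fin m) ℂ} (hX' : X' * X = 1)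
    (hδ : ∀ δ : Derivation ℚ ℂ ℂ, ∀ x ∈ h, x.map δ ∈ h)
    (hX : ∀ δ : Derivation ℚ ℂ ℂ, X.map δ * X' ∈ h) (hT : OnlyTrivial p X)
    (Y : Matrix (Fin m) (Fin m) ℂ) :
    ∃ T ∈ Algebra.adjoin ℂ (DJ p '' (h : Set (Matrix (Fin m) (Fin m) ℂ))),
      T * minors p X = minors p Y := by
  set A₀ := Algebra.adjoin ℂ (DJ p '' (h : Set (Matrix (Fin m) (Fin m) ℂ))) with hA₀
  have hAδ : ∀ δ : Derivation ℚ ℂ ℂ, ∀ T ∈ A₀, T.map δ ∈ A₀ := by
    intro δ T hT
    induction hT using Algebra.adjoin_induction with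
    | mem x hx =>
      obtain ⟨y, hy, rfl⟩ := hx
      rw [DJ_map]
      exact Algebra.subset_adjoin ⟨_, hδ δ y hy, rfl⟩
    | algebraMap r =>
      rw [Algebra.algebraMap_eq_smul_one, map_smul_der, map_one_der, smul_zero, add_zero]
      exact A₀.smul_mem A₀.one_mem _
    | add x y _ _ hx hy =>
      have : (x + y).map δ = x.map δ + y.map δ := by
        ext i j
        exact map_add δ _ _
      rw [this]
      exact A₀.add_mem hx hy
    | mul x y hx' hy' hx hy =>
      rw [map_mul_der]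
      exact A₀.add_mem (A₀.mul_mem hx hy') (A₀.mul_mem hx' hy)
  set V : Submodule ℂ (Matrix (Fin p → Fin m) (Fin p → Fin m) ℂ) :=
    A₀.toSubmodule.map (LinearMap.mulRight ℂ (minors p X)) with hV
  have hMδ : ∀ δ : Derivation ℚ ℂ ℂ, (minors p X).map δ = DJ p (X.map δ * X') * minors p X := by
    intro δ
    rw [minors_eq, map_mul_der, asy_map, Matrix.mul_zero, add_zero, tens_map δ hX',
      Matrix.mul_assoc]
  have hVδ : ∀ δ : Derivation ℚ ℂ ℂ, ∀ v ∈ V, v.map δ ∈ V := by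
    rintro δ _ ⟨a, ha, rfl⟩
    refine ⟨a.map δ + a * DJ p (X.map δ * X'), ?_, ?_⟩
    · exact A₀.add_mem (hAδ δ a ha) (A₀.mul_mem ha (Algebra.subset_adjoin ⟨_, hX δ, rfl⟩))
    · change (a.map δ + a * DJ p (X.map δ * X')) * minors p X = (a * minors p X).map δ
      rw [map_mul_der, Matrix.add_mul, hMδ, Matrix.mul_assoc]
  have hMV : minors p X ∈ V := ⟨1, A₀.one_mem, Matrix.one_mul _⟩
  have hmem : minors p Y ∈ V := by
    by_contra hne
    obtain ⟨f, hf0, hf⟩ := Submodule.exists_le_ker_of_notMem hne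
    set Wm : Submodule ℂ ((Fin p → Fin m) × (Fin p → Fin m) → ℂ) :=
      { carrier := {w | ∀ v ∈ V, ∑ q : (Fin p → Fin m) × (Fin p → Fin m), w q * v q.1 q.2 = 0}
        zero_mem' := fun v _ => by simp
        add_mem' := by
          intro a b ha hb v hv
          simp only [Pi.add_apply, add_mul, Finset.sum_add_distrib]
          rw [ha v hv, hb v hv, add_zero]
        smul_mem' := by
          intro c a ha v hv
          simp only [Pi.smul_apply, smul_eq_mul, mul_assoc]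
          rw [← Finset.mul_sum, ha v hv, mul_zero] } with hWdef
    have hWf : (fun q : (Fin p → Fin m) × (Fin p → Fin m) => f (Matrix.single q.1 q.2 1)) ∈ Wm := by
      intro v hv
      rw [← exists_coeff]
      exact LinearMap.mem_ker.1 (hf hv)
    have h3 := exists_rat' Wm (by
      intro δ w hw v hv
      have h3 := congrArg δ (hw v hv)
      rw [map_zero, map_sum] at h3
      have h4 := hw _ (hVδ δ v hv)
      have h5 : ∑ q : (Fin p → Fin m) × (Fin p → Fin m), δ (w q * v q.1 q.2) =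
          ∑ q : (Fin p → Fin m) × (Fin p → Fin m), δ (w q) * v q.1 q.2 +
          ∑ q : (Fin p → Fin m) × (Fin p → Fin m), w q * (v.map δ) q.1 q.2 := by
        rw [← Finset.sum_add_distrib]
        refine Finset.sum_congr rfl fun p _ => ?_
        rw [Derivation.leibniz, smul_eq_mul, smul_eq_mul, Matrix.map_apply]
        ring
      rw [h5, h4, add_zero] at h3
      exact h3) hWf
    have h4 : (Submodule.span ℂ {w | w ∈ Wm ∧ ∀ i, IsAlgebraic ℚ (w i)} :
        Submodule ℂ ((Fin p → Fin m) × (Fin p → Fin m) → ℂ)) ≤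
        { carrier := {w | ∑ q : (Fin p → Fin m) × (Fin p → Fin m),
            w q * minors p Y q.1 q.2 = 0}
          zero_mem' := by simp
          add_mem' := by
            intro a b ha hb
            simp only [Set.mem_ofPred_eq, Pi.add_apply, add_mul, Finset.sum_add_distrib] at ha hb ⊢
            rw [ha, hb, add_zero]
          smul_mem' := by
            intro c a ha
            simp only [Set.mem_ofPred_eq, Pi.smul_apply, smul_eq_mul, mul_assoc] at ha ⊢
            rw [← Finset.mul_sum, ha, mul_zero] } := by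
      refine Submodule.span_le.2 ?_
      rintro w ⟨hw, hwa⟩
      have h5 := hw _ hMV
      rw [Fintype.sum_prod_type] at h5
      have h6 := hT (fun s t => w (s, t)) (fun s t => hwa _) h5 Y
      change ∑ q : (Fin p → Fin m) × (Fin p → Fin m), w q * minors p Y q.1 q.2 = 0
      rw [Fintype.sum_prod_type]
      exact h6
    have h5 := h4 h3
    change ∑ q : (Fin p → Fin m) × (Fin p → Fin m),
      f (Matrix.single q.1 q.2 1) * minors p Y q.1 q.2 = 0 at h5
    rw [← exists_coeff] at h5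
    exact hf0 h5
  obtain ⟨T, hT, hTM⟩ := hmem
  exact ⟨T, hT, hTM⟩

/-! ### Forms in coordinates -/

/-- The coordinates of a form. -/
noncomputable def co (ω : (Fin m → ℂ) [⋀^Fin p]→ₗ[ℂ] ℂ) : (Fin p → Fin m) → ℂ :=
  fun a => ω fun i => Pi.basisFun ℂ (Fin m) (a i)

theorem co_inj {ω ψ : (Fin m → ℂ) [⋀^Fin p]→ₗ[ℂ] ℂ} (h : co ω = co ψ) : ω = ψ :=
  (Pi.basisFun ℂ (Fin m)).ext_alternating fun a _ => congrFun h a

theorem toLin_basis (x : Matrix (Fin m) (Fin m) ℂ) (b : Fin m) :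
    Matrix.toLin' x (Pi.basisFun ℂ (Fin m) b) = ∑ a, x a b • Pi.basisFun ℂ (Fin m) a := by
  rw [Pi.basisFun_apply, Matrix.toLin'_apply, Matrix.mulVec_single_one]
  ext r
  rw [Finset.sum_apply, Finset.sum_eq_single r]
  · rw [Pi.smul_apply, Pi.basisFun_apply, Pi.single_eq_same, smul_eq_mul, mul_one]
    rfl
  · intro a _ ha
    rw [Pi.smul_apply, Pi.basisFun_apply, Pi.single_eq_of_ne (Ne.symm ha), smul_zero]
  · intro h
    exact absurd (Finset.mem_univ _) h

theorem co_D (x : Matrix (Fin m) (Fin m) ℂ) (ω : (Fin m → ℂ) [⋀^Fin p]→ₗ[ℂ] ℂ) :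
    co (D (Matrix.toLin' x) ω) = Matrix.vecMul (co ω) (DJ p x) := by
  funext b
  unfold co
  rw [D_apply]
  change _ = ∑ a, _ * _
  unfold DJ
  simp only [Matrix.of_apply, Finset.mul_sum]
  rw [Finset.sum_comm]
  refine Finset.sum_congr rfl fun i _ => ?_
  rw [toLin_basis, ω.map_update_sum]
  -- only tuples which agree with `b` outside of `i`
  have h1 : ∀ a : Fin p → Fin m, (ω fun j => Pi.basisFun ℂ (Fin m) (a j)) * (x (a i) (b i) *
      ∏ j ∈ Finset.univ.erase i, (1 : Matrix (Fin m) (Fin m) ℂ) (a j) (b j)) ≠ 0 →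
      a = update b i (a i) := by
    intro a h
    funext j
    by_cases hj : j = i
    · rw [hj, update_self]
    · rw [update_of_ne hj]
      by_contra h2
      apply h
      rw [Finset.prod_eq_zero (Finset.mem_erase.2 ⟨hj, Finset.mem_univ j⟩), mul_zero, mul_zero]
      rw [Matrix.one_apply, if_neg h2]
  symm
  refine Finset.sum_bij_ne_zero (fun a _ _ => a i) (fun _ _ _ => Finset.mem_univ _) ?_ ?_ ?_
  · intro a _ ha a' _ ha' h
    rw [h1 a ha, h1 a' ha', h]
  · intro c _ hc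
    have h2 : ∏ j ∈ Finset.univ.erase i, (1 : Matrix (Fin m) (Fin m) ℂ)
        ((update b i c) j) (b j) = 1 := by
      refine Finset.prod_eq_one fun j hj => ?_
      rw [update_of_ne (Finset.ne_of_mem_erase hj), Matrix.one_apply_eq]
    have h3 : (fun j => Pi.basisFun ℂ (Fin m) ((update b i c) j)) =
        update (fun j => Pi.basisFun ℂ (Fin m) (b j)) i (Pi.basisFun ℂ (Fin m) c) := by
      funext j
      by_cases hj : j = i
      · rw [hj, update_self, update_self]
      · rw [update_of_ne hj, update_of_ne hj]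
    refine ⟨update b i c, Finset.mem_univ _, ?_, update_self _ _ _⟩
    rw [h2, mul_one, update_self, h3, mul_comm]
    rw [ω.map_update_smul, smul_eq_mul] at hc
    exact hc
  · intro a _ ha
    have h2 : ∏ j ∈ Finset.univ.erase i, (1 : Matrix (Fin m) (Fin m) ℂ) (a j) (b j) = 1 := by
      refine Finset.prod_eq_one fun j hj => ?_
      rw [h1 a ha, update_of_ne (Finset.ne_of_mem_erase hj), Matrix.one_apply_eq]
    have h3 : (fun j => Pi.basisFun ℂ (Fin m) (a j)) =
        update (fun j => Pi.basisFun ℂ (Fin m) (b j)) i (Pi.basisFun ℂ (Fin m) (a i)) := by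
      funext j
      by_cases hj : j = i
      · rw [hj, update_self]
      · rw [update_of_ne hj, h1 a ha, update_of_ne hj]
    rw [h2, mul_one, h3, ω.map_update_smul, smul_eq_mul, mul_comm]

theorem co_pull (Y : Matrix (Fin m) (Fin m) ℂ) (ω : (Fin m → ℂ) [⋀^Fin p]→ₗ[ℂ] ℂ) :
    co (ω.compLinearMap (Matrix.toLin' Y)) = Matrix.vecMul (co ω) (tens p Y) := by
  funext b
  unfold co
  rw [AlternatingMap.compLinearMap_apply]
  have h1 : (fun i => Matrix.toLin' Y (Pi.basisFun ℂ (Fin m) (b i))) =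
      fun i => ∑ a, Y a (b i) • Pi.basisFun ℂ (Fin m) a := by
    funext i
    rw [toLin_basis]
  rw [h1]
  have h2 := MultilinearMap.map_sum (R := ℂ) ω.toMultilinearMap
    (fun (i : Fin p) (a : Fin m) => Y a (b i) • Pi.basisFun ℂ (Fin m) a)
  rw [show (ω fun i => ∑ a, Y a (b i) • Pi.basisFun ℂ (Fin m) a) =
    ω.toMultilinearMap fun i => ∑ a, Y a (b i) • Pi.basisFun ℂ (Fin m) a from rfl, h2]
  change _ = ∑ a, _ * _
  refine Finset.sum_congr rfl fun a _ => ?_
  rw [MultilinearMap.map_smul_univ]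
  unfold tens
  rw [Matrix.of_apply, smul_eq_mul, mul_comm]
  rfl

theorem co_asy (ω : (Fin m → ℂ) [⋀^Fin p]→ₗ[ℂ] ℂ) :
    Matrix.vecMul (co ω) (asy m p) = (Nat.factorial p : ℂ) • co ω := by
  funext b
  change ∑ a, _ * _ = _
  unfold asy
  simp only [Matrix.of_apply, Finset.mul_sum]
  rw [Finset.sum_comm, Pi.smul_apply, smul_eq_mul]
  have h1 : ∀ σ : Equiv.Perm (Fin p), ∑ a, co ω a * (((Equiv.Perm.sign σ : ℤ) : ℂ) *
      (if a = b ∘ σ then 1 else 0)) = co ω b := by
    intro σ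
    rw [Finset.sum_eq_single (b ∘ σ)]
    · rw [if_pos rfl, mul_one]
      unfold co
      have h2 := ω.map_perm (fun i => Pi.basisFun ℂ (Fin m) (b i)) σ
      change (ω ((fun i => Pi.basisFun ℂ (Fin m) (b i)) ∘ σ)) * _ = _
      rw [h2]
      rcases Int.units_eq_one_or (Equiv.Perm.sign σ) with h3 | h3
      · rw [h3]
        simp
      · rw [h3]
        simp
    · intro a _ ha
      rw [if_neg ha, mul_zero, mul_zero]
    · intro h
      exact absurd (Finset.mem_univ _) h
  rw [Finset.sum_congr rfl fun σ _ => h1 σ, Finset.sum_const, Finset.card_univ,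
    Fintype.card_perm, Fintype.card_fin, nsmul_eq_mul]

/-- **Stable spaces of forms are stable under all matrices.** -/
theorem stable_all (h : Submodule ℂ (Matrix (Fin m) (Fin m) ℂ))
    {X X' : Matrix (Fin m) (Fin m) ℂ} (hX'' : X * X' = 1) (hX' : X' * X = 1)
    (hδ : ∀ δ : Derivation ℚ ℂ ℂ, ∀ x ∈ h, x.map δ ∈ h)
    (hX : ∀ δ : Derivation ℚ ℂ ℂ, X.map δ * X' ∈ h) (hT : OnlyTrivial p X)
    (U : Submodule ℂ ((Fin m → ℂ) [⋀^Fin p]→ₗ[ℂ] ℂ))
    (hU : ∀ x ∈ h, ∀ ω ∈ U, D (Matrix.toLin' x) ω ∈ U)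
    {u : (Fin m → ℂ) [⋀^Fin p]→ₗ[ℂ] ℂ} (hu : u ∈ U) (Y : Matrix (Fin m) (Fin m) ℂ) :
    u.compLinearMap (Matrix.toLin' Y) ∈ U := by
  obtain ⟨T, hT1, hT2⟩ := exists_op h hX' hδ hX hT (Y * X)
  have key : ∀ ω ∈ U, ∃ ω' ∈ U, Matrix.vecMul (co ω) T = co ω' := by
    clear hT2
    induction hT1 using Algebra.adjoin_induction with
    | mem x hx =>
      obtain ⟨y, hy, rfl⟩ := hx
      intro ω hω
      exact ⟨_, hU y hy ω hω, (co_D y ω).symm⟩
    | algebraMap r =>
      intro ω hω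
      refine ⟨r • ω, U.smul_mem _ hω, ?_⟩
      rw [Algebra.algebraMap_eq_smul_one, Matrix.vecMul_smul, Matrix.vecMul_one]
      rfl
    | add x y _ _ hx hy =>
      intro ω hω
      obtain ⟨ω1, h1, h2⟩ := hx ω hω
      obtain ⟨ω2, h3, h4⟩ := hy ω hω
      refine ⟨ω1 + ω2, U.add_mem h1 h3, ?_⟩
      rw [Matrix.vecMul_add, h2, h4]
      rfl
    | mul x y _ _ hx hy =>
      intro ω hω
      obtain ⟨ω1, h1, h2⟩ := hx ω hω
      obtain ⟨ω2, h3, h4⟩ := hy ω1 h1
      exact ⟨ω2, h3, by rw [← Matrix.vecMul_vecMul, h2, h4]⟩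
  obtain ⟨u', hu', h1⟩ := key u hu
  have h2 : Matrix.vecMul (co u) (T * minors p X) = Matrix.vecMul (co u) (minors p (Y * X)) := by
    rw [hT2]
  rw [← Matrix.vecMul_vecMul, h1, minors_eq, minors_eq, ← Matrix.vecMul_vecMul,
    ← Matrix.vecMul_vecMul, ← co_pull, ← co_pull, co_asy, co_asy] at h2
  have h3 : co (u'.compLinearMap (Matrix.toLin' X)) =
      co (u.compLinearMap (Matrix.toLin' (Y * X))) :=
    smul_right_injective _ (Nat.cast_ne_zero.2 (Nat.factorial_ne_zero p)) h2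
  have h4 := co_inj h3
  have h5 : u' = u.compLinearMap (Matrix.toLin' Y) := by
    have h6 := congrArg (fun ω : (Fin m → ℂ) [⋀^Fin p]→ₗ[ℂ] ℂ =>
      ω.compLinearMap (Matrix.toLin' X')) h4
    simp only [AlternatingMap.compLinearMap_assoc] at h6
    rw [← Matrix.toLin'_mul, ← Matrix.toLin'_mul, hX'', Matrix.mul_assoc, hX'', Matrix.mul_one,
      Matrix.toLin'_one, AlternatingMap.compLinearMap_id] at h6
    exact h6
  rw [← h5]
  exact hu'

/-- Pullbacks are decomposable forms. -/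
theorem pull_dec {W : Type*} [AddCommGroup W] [Module ℂ W] (u : W [⋀^Fin p]→ₗ[ℂ] ℂ)
    (e : Fin p → W) (ξ : Fin p → Dual ℂ W) :
    u.compLinearMap ((Fintype.linearCombination ℂ e) ∘ₗ LinearMap.pi ξ) = u e • dec ξ := by
  rw [← AlternatingMap.compLinearMap_assoc]
  have h1 := AlternatingMap.eq_smul_basis_det (Pi.basisFun ℂ (Fin p))
    (u.compLinearMap (Fintype.linearCombination ℂ e))
  have h2 : (u.compLinearMap (Fintype.linearCombination ℂ e)) (Pi.basisFun ℂ (Fin p)) = u e := by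
    rw [AlternatingMap.compLinearMap_apply]
    congr 1
    funext i
    rw [Pi.basisFun_apply, Fintype.linearCombination_apply_single, one_smul]
  rw [h2, Pi.basisFun_det] at h1
  rw [h1]
  rfl

theorem dec_mem (h : Submodule ℂ (Matrix (Fin m) (Fin m) ℂ))
    {X X' : Matrix (Fin m) (Fin m) ℂ} (hX'' : X * X' = 1) (hX' : X' * X = 1)
    (hδ : ∀ δ : Derivation ℚ ℂ ℂ, ∀ x ∈ h, x.map δ ∈ h)
    (hX : ∀ δ : Derivation ℚ ℂ ℂ, X.map δ * X' ∈ h) (hT : OnlyTrivial p X)
    (U : Submodule ℂ ((Fin m → ℂ) [⋀^Fin p]→ₗ[ℂ] ℂ))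
    (hU : ∀ x ∈ h, ∀ ω ∈ U, D (Matrix.toLin' x) ω ∈ U) (h0 : U ≠ ⊥)
    (ξ : Fin p → Dual ℂ (Fin m → ℂ)) : dec ξ ∈ U := by
  obtain ⟨u, hu, hu0⟩ := Submodule.exists_mem_ne_zero_of_ne_bot h0
  obtain ⟨a, -, ha⟩ := exists_val (Pi.basisFun ℂ (Fin m)) u hu0
  set e : Fin p → Fin m → ℂ := fun i => Pi.basisFun ℂ (Fin m) (a i) with he
  have h1 := stable_all h hX'' hX' hδ hX hT U hU hu
    (LinearMap.toMatrix' ((Fintype.linearCombination ℂ e) ∘ₗ LinearMap.pi ξ))
  rw [Matrix.toLin'_toMatrix', pull_dec] at h1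
  have h2 := U.smul_mem (u e)⁻¹ h1
  rwa [smul_smul, inv_mul_cancel₀ ha, one_smul] at h2

end Pool.Agent.TH164.Un
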