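import Pool.Agent.TH164.Un.Un6
import Pool.Agent.TH164.Un.Un7

/-!
# The smallest group is the general linear group times the multiplicative group
-/

set_option autoImplicit false
set_option linter.unusedSectionVars false
set_option linter.unusedVariables false

open Module Matrix Function

attribute [local instance 100] LieRing.ofAssociativeRing

namespace Pool.Agent.TH164.Un

open Pool.Agent.TH164.Spin Pool.Agent.TH119.MX Pool.Agent.TH119.DR Pool.Agent.TH164.A1

variable {m : ℕ}

/-- Block diagonal matrices. -/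
def blk (x : Matrix (Fin m) (Fin m) ℂ) (c : ℂ) : Matrix (Fin m ⊕ Unit) (Fin m ⊕ Unit) ℂ :=
  Matrix.fromBlocks x 0 0 (c • (1 : Matrix Unit Unit ℂ))

theorem blk_mul (x y : Matrix (Fin m) (Fin m) ℂ) (c e : ℂ) :
    blk x c * blk y e = blk (x * y) (c * e) := by
  unfold blk
  rw [Matrix.fromBlocks_multiply]
  simp only [Matrix.mul_zero, Matrix.zero_mul, add_zero, zero_add, Matrix.smul_mul,
    Matrix.mul_smul, Matrix.one_mul, smul_smul, smul_zero, mul_comm e c]

theorem blk_add (x y : Matrix (Fin m) (Fin m) ℂ) (c e : ℂ) :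
    blk x c + blk y e = blk (x + y) (c + e) := by
  unfold blk
  rw [Matrix.fromBlocks_add, add_zero, add_zero, add_smul]

theorem blk_smul (a : ℂ) (x : Matrix (Fin m) (Fin m) ℂ) (c : ℂ) :
    a • blk x c = blk (a • x) (a * c) := by
  unfold blk
  rw [Matrix.fromBlocks_smul, smul_zero, smul_zero, smul_smul]

theorem blk_sub (x y : Matrix (Fin m) (Fin m) ℂ) (c e : ℂ) :
    blk x c - blk y e = blk (x - y) (c - e) := by
  have h1 : blk x c - blk y e = blk x c + (-1 : ℂ) • blk y e := by
    rw [neg_one_smul, sub_eq_add_neg]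
  rw [h1, blk_smul, blk_add, neg_one_smul, neg_one_mul, ← sub_eq_add_neg, ← sub_eq_add_neg]

theorem blk_one : blk (1 : Matrix (Fin m) (Fin m) ℂ) 1 = 1 := by
  unfold blk
  rw [one_smul, Matrix.fromBlocks_one]

theorem blk_zero : blk (0 : Matrix (Fin m) (Fin m) ℂ) 0 = 0 := by
  unfold blk
  rw [zero_smul, Matrix.fromBlocks_zero]

theorem blk_map {f : ℂ → ℂ} (hf : f 0 = 0) (x : Matrix (Fin m) (Fin m) ℂ) (c : ℂ) :
    (blk x c).map f = blk (x.map f) (f c) := by
  ext i j
  rcases i with i | i <;> rcases j with j | j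
  · rfl
  · exact hf
  · exact hf
  · change f (c * (1 : Matrix Unit Unit ℂ) i j) = f c * (1 : Matrix Unit Unit ℂ) i j
    rw [Matrix.one_apply, if_pos (Subsingleton.elim i j), mul_one, mul_one]

variable {H : Set (Matrix (Fin m ⊕ Unit) (Fin m ⊕ Unit) ℂ)}

/-- The projection of the stabilizer. -/
def hh (H : Set (Matrix (Fin m ⊕ Unit) (Fin m ⊕ Unit) ℂ)) (d : ℕ) :
    Submodule ℂ (Matrix (Fin m) (Fin m) ℂ) where
  carrier := {x | ∃ c : ℂ, Stab H d (blk x c)}
  zero_mem' := ⟨0, by
    rw [blk_zero]
    exact Stab.zero⟩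
  add_mem' := by
    rintro x y ⟨c, hc⟩ ⟨e, he⟩
    refine ⟨c + e, ?_⟩
    rw [← blk_add]
    exact hc.add he
  smul_mem' := by
    rintro a x ⟨c, hc⟩
    refine ⟨a * c, ?_⟩
    rw [← blk_smul]
    exact hc.smul a

/-- The operators with trace zero in the stabilizer, modulo scalars. -/
def ll (H : Set (Matrix (Fin m ⊕ Unit) (Fin m ⊕ Unit) ℂ)) (d : ℕ) :
    LieSubalgebra ℂ (End ℂ (Fin m → ℂ)) where
  carrier := {f | LinearMap.trace ℂ (Fin m → ℂ) f = 0 ∧
    ∃ c : ℂ, LinearMap.toMatrix' f + c • (1 : Matrix (Fin m) (Fin m) ℂ) ∈ hh H d}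
  zero_mem' := ⟨map_zero _, 0, by
    rw [map_zero, zero_smul, add_zero]
    exact Submodule.zero_mem _⟩
  add_mem' := by
    rintro f g ⟨h1, c, h2⟩ ⟨h3, e, h4⟩
    refine ⟨by rw [map_add, h1, h3, add_zero], c + e, ?_⟩
    have h5 : LinearMap.toMatrix' (f + g) + (c + e) • (1 : Matrix (Fin m) (Fin m) ℂ) =
        (LinearMap.toMatrix' f + c • (1 : Matrix (Fin m) (Fin m) ℂ)) +
          (LinearMap.toMatrix' g + e • (1 : Matrix (Fin m) (Fin m) ℂ)) := by
      rw [map_add, add_smul]
      abel
    rw [h5]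
    exact Submodule.add_mem _ h2 h4
  smul_mem' := by
    rintro a f ⟨h1, c, h2⟩
    refine ⟨by rw [map_smul, h1, smul_zero], a * c, ?_⟩
    have h5 : LinearMap.toMatrix' (a • f) + (a * c) • (1 : Matrix (Fin m) (Fin m) ℂ) =
        a • (LinearMap.toMatrix' f + c • (1 : Matrix (Fin m) (Fin m) ℂ)) := by
      rw [map_smul, smul_add, smul_smul]
    rw [h5]
    exact Submodule.smul_mem _ _ h2
  lie_mem' := by
    rintro f g ⟨h1, c, h2⟩ ⟨h3, e, h4⟩
    obtain ⟨c', hc'⟩ := h2
    obtain ⟨e', he'⟩ := h4
    refine ⟨?_, 0, 0, ?_⟩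
    · change LinearMap.trace ℂ (Fin m → ℂ) (f * g - g * f) = 0
      rw [map_sub, LinearMap.trace_mul_comm, sub_self]
    · have h5 := hc'.comm he'
      rw [blk_mul, blk_mul, blk_sub] at h5
      have h6 : (LinearMap.toMatrix' f + c • (1 : Matrix (Fin m) (Fin m) ℂ)) *
          (LinearMap.toMatrix' g + e • (1 : Matrix (Fin m) (Fin m) ℂ)) -
          (LinearMap.toMatrix' g + e • (1 : Matrix (Fin m) (Fin m) ℂ)) *
          (LinearMap.toMatrix' f + c • (1 : Matrix (Fin m) (Fin m) ℂ)) =
          LinearMap.toMatrix' ⁅f, g⁆ + (0 : ℂ) • (1 : Matrix (Fin m) (Fin m) ℂ) := by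
        change _ = LinearMap.toMatrix' (f * g - g * f) + _
        rw [map_sub, LinearMap.toMatrix'_mul, LinearMap.toMatrix'_mul]
        simp only [Matrix.add_mul, Matrix.mul_add, Matrix.smul_mul, Matrix.mul_smul,
          Matrix.one_mul, Matrix.mul_one]
        module
      rw [h6, mul_comm c' e', sub_self] at h5
      exact h5

theorem D_id {p : ℕ} (ω : (Fin m → ℂ) [⋀^Fin p]→ₗ[ℂ] ℂ) :
    D (LinearMap.id : (Fin m → ℂ) →ₗ[ℂ] (Fin m → ℂ)) ω = (p : ℂ) • ω := by
  ext v
  rw [D_apply, AlternatingMap.smul_apply]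
  have h1 : ∀ i ∈ Finset.univ, ω (update v i ((LinearMap.id : (Fin m → ℂ) →ₗ[ℂ] _) (v i))) =
      ω v := by
    intro i _
    rw [LinearMap.id_apply, update_eq_self]
  rw [Finset.sum_congr rfl h1, Finset.sum_const, Finset.card_univ, Fintype.card_fin,
    nsmul_eq_mul, smul_eq_mul]

theorem trace_El {i j : Fin m} (hij : i ≠ j) :
    LinearMap.trace ℂ (Fin m → ℂ) (El (Pi.basisFun ℂ (Fin m)) i j) = 0 := by
  rw [LinearMap.trace_eq_matrix_trace ℂ (Pi.basisFun ℂ (Fin m))]
  unfold Matrix.trace
  refine Finset.sum_eq_zero fun l _ => ?_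
  rw [Matrix.diag_apply, LinearMap.toMatrix_apply, El_basis]
  by_cases h1 : l = j
  · rw [if_pos h1, Basis.repr_self, Finsupp.single_apply, if_neg]
    rw [h1]
    exact hij
  · rw [if_neg h1, map_zero, Finsupp.zero_apply]

theorem trace_El' (i j : Fin m) :
    LinearMap.trace ℂ (Fin m → ℂ) (El (Pi.basisFun ℂ (Fin m)) i i -
      El (Pi.basisFun ℂ (Fin m)) j j) = 0 := by
  by_cases hij : i = j
  · rw [hij, sub_self, map_zero]
  · have h1 := El_comp (Pi.basisFun ℂ (Fin m)) i j j i
    have h2 := El_comp (Pi.basisFun ℂ (Fin m)) j i i j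
    rw [if_pos rfl] at h1 h2
    rw [← h1, ← h2]
    change LinearMap.trace ℂ (Fin m → ℂ) (El (Pi.basisFun ℂ (Fin m)) i j *
      El (Pi.basisFun ℂ (Fin m)) j i - El (Pi.basisFun ℂ (Fin m)) j i *
      El (Pi.basisFun ℂ (Fin m)) i j) = 0
    rw [map_sub, LinearMap.trace_mul_comm, sub_self]

section data

variable {X X' : Matrix (Fin m) (Fin m) ℂ} {z : ℂ}
  {B B' : Matrix (Fin m ⊕ Unit) (Fin m ⊕ Unit) ℂ}

theorem hh_der (hH : AlgGrp QA H) (d : ℕ) (δ : Derivation ℚ ℂ ℂ) {x : Matrix (Fin m) (Fin m) ℂ}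
    (hx : x ∈ hh H d) : x.map δ ∈ hh H d := by
  obtain ⟨c, hc⟩ := hx
  refine ⟨δ c, ?_⟩
  have h1 := hH.stab_map (derK δ QA fun x hx => mem_QA.1 hx) hc
  have h2 : (blk x c).map (derK δ QA fun x hx => mem_QA.1 hx) = blk (x.map δ) (δ c) :=
    blk_map (f := δ) (map_zero δ) x c
  rwa [h2] at h1

theorem der_mem (hH : AlgGrp QA H) (hX : X * X' = 1) (hz : z ≠ 0) (hB : B * B' = 1)
    (hBa : ∀ i j, B' i j ∈ QA) (hPB : blk X z * B ∈ H) (d : ℕ) (δ : Derivation ℚ ℂ ℂ) :
    Stab H d (blk (X.map δ * X') (δ z * z⁻¹)) := by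
  have hX' : X' * X = 1 := mul_eq_one_comm.1 hX
  have h1 : blk X z * blk X' z⁻¹ = 1 := by
    rw [blk_mul, hX, mul_inv_cancel₀ hz, blk_one]
  have h2 : blk X' z⁻¹ * blk X z = 1 := by
    rw [blk_mul, hX', inv_mul_cancel₀ hz, blk_one]
  have h3 := hH.stab_der le_rfl (fun x hx => mem_QA.1 hx) h1 h2 hB hBa hPB (d := d) δ
  rwa [blk_map (f := δ) (map_zero δ), blk_mul] at h3

/-- **The stabilizer is everything.** -/
theorem stab_top (hm : Even m) (hH : AlgGrp QA H) (hX : X * X' = 1) (hz : z ≠ 0)
    (hB : B * B' = 1) (hBa : ∀ i j, B' i j ∈ QA) (hPB : blk X z * B ∈ H)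
    (hT : ∀ p, 1 ≤ p → p < m → OnlyTrivial p X) (hind : AlgebraicIndependent ℚ ![X.det, z])
    (d : ℕ) (x : Matrix (Fin m) (Fin m) ℂ) (c : ℂ) : Stab H d (blk x c) := by
  have hX' : X' * X = 1 := mul_eq_one_comm.1 hX
  have hm0 : 0 < m := by
    rcases Nat.eq_zero_or_pos m with h | h
    · subst h
      exfalso
      have h1 := hind.algebraMap_injective
      have h2 := hind.transcendental 0
      apply h2
      have h3 : (![X.det, z] : Fin 2 → ℂ) 0 = 1 := by
        change X.det = 1
        exact Matrix.det_isEmpty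
      rw [h3]
      exact isAlgebraic_one
    · exact h
  have hmC : (m : ℂ) ≠ 0 := Nat.cast_ne_zero.2 (by omega)
  have hfull : ∀ f : End ℂ (Fin m → ℂ), LinearMap.trace ℂ (Fin m → ℂ) f = 0 → f ∈ ll H d := by
    intro f hf
    refine sl_full hm (by rw [Module.finrank_fin_fun]) (ll H d) (fun x hx => hx.1) ?_ f hf
    intro p hp hpm U hU h0 ξ
    refine dec_mem (hh H d) hX hX' (fun δ x hx => hh_der hH d δ hx)
      (fun δ => ⟨_, der_mem hH hX hz hB hBa hPB d δ⟩) (hT p hp hpm) U ?_ h0 ξ
    intro x hx ω hω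
    set c := LinearMap.trace ℂ (Fin m → ℂ) (Matrix.toLin' x) / m with hc
    have h1 : Matrix.toLin' x - c • (LinearMap.id : (Fin m → ℂ) →ₗ[ℂ] _) ∈ ll H d := by
      refine ⟨?_, c, ?_⟩
      · rw [map_sub, map_smul, LinearMap.trace_id, Module.finrank_fin_fun, smul_eq_mul, hc,
          div_mul_cancel₀ _ hmC, sub_self]
      · rw [map_sub, LinearMap.toMatrix'_toLin', map_smul, LinearMap.toMatrix'_id, sub_add_cancel]
        exact hx
    have h2 := hU _ h1 ω hω
    rw [D_sub, D_smul, D_id] at h2
    have h3 := U.add_mem h2 (U.smul_mem c (U.smul_mem (p : ℂ) hω))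
    rwa [sub_add_cancel] at h3
  set w := Pi.basisFun ℂ (Fin m) with hw
  set R : Submodule ℂ ((Fin m → ℂ) →ₗ[ℂ] (Fin m → ℂ)) :=
    { carrier := {f | Stab H d (blk (LinearMap.toMatrix' f) 0)}
      zero_mem' := by
        change Stab H d (blk (LinearMap.toMatrix' 0) 0)
        rw [map_zero, blk_zero]
        exact Stab.zero
      add_mem' := by
        intro f g hf hg
        change Stab H d (blk (LinearMap.toMatrix' (f + g)) 0)
        have h1 := hf.add hg
        rwa [blk_add, add_zero, ← map_add] at h1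
      smul_mem' := by
        intro a f hf
        change Stab H d (blk (LinearMap.toMatrix' (a • f)) 0)
        have h1 := hf.smul a
        rwa [blk_smul, mul_zero, ← map_smul] at h1 } with hRdef
  have hEl : ∀ i j : Fin m, i ≠ j → El w i j ∈ R := by
    intro i j hij
    obtain ⟨-, c1, c1', h1⟩ := hfull _ (trace_El' i j)
    obtain ⟨-, c2, c2', h2⟩ := hfull _ (trace_El hij)
    have h3 := h1.comm h2
    rw [blk_mul, blk_mul, blk_sub, mul_comm c1' c2', sub_self] at h3
    set F := LinearMap.toMatrix' (El w i i - El w j j) with hF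
    set G := LinearMap.toMatrix' (El w i j) with hG
    have h4 : F * G - G * F = (2 : ℂ) • G := by
      rw [hF, hG, ← LinearMap.toMatrix'_mul, ← LinearMap.toMatrix'_mul, ← map_sub, ← map_smul]
      congr 1
      change (El w i i - El w j j) ∘ₗ El w i j - El w i j ∘ₗ (El w i i - El w j j) = _
      rw [LinearMap.sub_comp, LinearMap.comp_sub, El_comp, El_comp, El_comp, El_comp, if_pos rfl,
        if_neg hij.symm, if_neg hij.symm, if_pos rfl, two_smul]
      abel
    have h5 : (F + c1 • (1 : Matrix (Fin m) (Fin m) ℂ)) * (G + c2 • 1) -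
        (G + c2 • 1) * (F + c1 • 1) = (2 : ℂ) • G := by
      rw [← h4]
      simp only [Matrix.add_mul, Matrix.mul_add, Matrix.smul_mul, Matrix.mul_smul,
        Matrix.one_mul, Matrix.mul_one]
      module
    rw [h5] at h3
    have h6 := h3.smul (2 : ℂ)⁻¹
    rw [blk_smul, smul_smul, inv_mul_cancel₀ two_ne_zero, one_smul, mul_zero] at h6
    exact h6
  have hsl : ∀ y : Matrix (Fin m) (Fin m) ℂ, y.trace = 0 → Stab H d (blk y 0) := by
    intro y hy
    have h1 := gen_sl w R (by
      intro f hf g hg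
      have h1 := Stab.comm (show Stab H d (blk (LinearMap.toMatrix' f) 0) from hf)
        (show Stab H d (blk (LinearMap.toMatrix' g) 0) from hg)
      rw [blk_mul, blk_mul, blk_sub, mul_zero, sub_zero] at h1
      change Stab H d (blk (LinearMap.toMatrix' (f * g - g * f)) 0)
      rwa [map_sub, LinearMap.toMatrix'_mul, LinearMap.toMatrix'_mul])
      (fun q h => hEl _ _ (by
        intro h1
        have := congrArg Fin.val h1
        simp only at this
        omega)) (fun q h => hEl _ _ (by
        intro h1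
        have := congrArg Fin.val h1
        simp only at this
        omega)) (f := Matrix.toLin' y) (by
      rw [LinearMap.trace_eq_matrix_trace ℂ w]
      rw [← hy]
      congr 1
      exact LinearMap.toMatrix'_toLin' y)
    have h2 : Stab H d (blk (LinearMap.toMatrix' (Matrix.toLin' y)) 0) := h1
    rwa [LinearMap.toMatrix'_toLin'] at h2
  have hdet0 : X.det ≠ 0 := by
    intro h
    have h1 := congrArg Matrix.det hX
    rw [Matrix.det_mul, h, zero_mul, Matrix.det_one] at h1
    exact zero_ne_one h1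
  -- the two central directions
  have hcen : ∀ a b : ℂ, ∃ y : Matrix (Fin m) (Fin m) ℂ, y.trace = a ∧ Stab H d (blk y b) := by
    intro a b
    obtain ⟨δ, hδ⟩ := Pool.Agent.W437.HD.exists_derivation hind ![X.det * a, z * b]
    refine ⟨X.map δ * X', ?_, ?_⟩
    · have h1 := der_det' δ hX
      have h2 : δ X.det = X.det * a := hδ 0
      rw [h2] at h1
      exact (mul_left_cancel₀ hdet0 h1).symm
    · have h1 := der_mem hH hX hz hB hBa hPB d δ
      have h2 : δ z = z * b := hδ 1
      rw [h2, mul_comm z b, mul_assoc, mul_inv_cancel₀ hz, mul_one] at h1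
      exact h1
  obtain ⟨y, hy1, hy2⟩ := hcen x.trace c
  have h1 := hy2.add (hsl (x - y) (by rw [Matrix.trace_sub, hy1, sub_self]))
  rwa [blk_add, add_zero, add_sub_cancel] at h1

/-- **All elements.** -/
theorem pres_top (hS : ∀ d (x : Matrix (Fin m) (Fin m) ℂ) (c : ℂ), Stab H d (blk x c))
    {g : Matrix (Fin m) (Fin m) ℂ} (hg : g.det ≠ 0) (c : ℂ) : Pres H (blk g c) := by
  have h1 : Pres H (blk (1 : Matrix (Fin m) (Fin m) ℂ) c) := by
    have h2 := pres_of_stab (X := blk (0 : Matrix (Fin m) (Fin m) ℂ) 1) (ε := 1) (H := H) (by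
      rw [blk_mul, blk_smul, Matrix.mul_zero, smul_zero, mul_one]) (fun d => hS d _ _) (c - 1)
    rw [blk_smul, smul_zero, ← blk_one, blk_add, add_zero, mul_one, add_sub_cancel] at h2
    exact h2
  have h2 : Pres H (blk g 1) := by
    refine Matrix.diagonal_transvection_induction_of_det_ne_zero
      (fun g : Matrix (Fin m) (Fin m) ℂ => Pres H (blk g 1)) g hg ?_ ?_ ?_
    · intro Dg _
      have key : ∀ s : Finset (Fin m),
          Pres H (blk (Matrix.diagonal fun i => if i ∈ s then Dg i else 1) 1) := by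
        intro s
        induction s using Finset.induction_on with
        | empty =>
          have h3 : (Matrix.diagonal fun i : Fin m => if i ∈ (∅ : Finset (Fin m)) then Dg i
              else 1) = 1 := by
            simp
          rw [h3]
          have h4 := pres_of_stab (X := (0 : Matrix (Fin m ⊕ Unit) (Fin m ⊕ Unit) ℂ)) (ε := 1)
            (H := H) (by rw [Matrix.mul_zero, smul_zero]) (fun d => Stab.zero) 0
          rw [smul_zero, add_zero] at h4
          rw [blk_one]
          exact h4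
        | insert a s ha ih =>
          have h4 := pres_of_stab (X := blk (Matrix.single a a (1 : ℂ)) 0) (ε := 1)
            (H := H) (by
              rw [blk_mul, blk_smul, Matrix.single_mul_single_same, mul_one, mul_zero, one_smul,
                mul_zero])
            (fun d => hS d _ _) (Dg a - 1)
          have h5 := ih.mul h4
          have h6 : blk (Matrix.diagonal fun i => if i ∈ s then Dg i else 1) 1 *
              (1 + (Dg a - 1) • blk (Matrix.single a a (1 : ℂ)) 0) =
              blk (Matrix.diagonal fun i => if i ∈ insert a s then Dg i else 1) 1 := by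
            rw [blk_smul, ← blk_one, blk_add, blk_mul, mul_zero, add_zero, mul_one]
            congr 1
            ext i j
            rw [Matrix.diagonal_mul, Matrix.add_apply, Matrix.smul_apply, Matrix.one_apply,
              Matrix.diagonal_apply, Matrix.single_apply]
            by_cases hij : i = j
            · subst hij
              by_cases hia : i = a
              · subst hia
                simp [ha]
              · have hia' : ¬ a = i := fun h => hia h.symm
                simp [hia, hia']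
            · have hij' : ¬ (a = i ∧ a = j) := by
                rintro ⟨h7, h8⟩
                exact hij (h7.symm.trans h8)
              rw [if_neg hij, if_neg hij, if_neg hij', smul_zero, add_zero, mul_zero]
          rwa [h6] at h5
      have h7 := key Finset.univ
      have h8 : (Matrix.diagonal fun i : Fin m => if i ∈ (Finset.univ : Finset (Fin m)) then Dg i
          else 1) = Matrix.diagonal Dg := by
        simp
      rwa [h8] at h7
    · intro t
      have h4 := pres_of_stab (X := blk (Matrix.single t.i t.j (1 : ℂ)) 0) (ε := 0)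
        (H := H) (by
          rw [blk_mul, blk_smul, Matrix.single_mul_single_of_ne _ _ _ _ t.hij.symm, mul_zero,
            zero_smul])
        (fun d => hS d _ _) t.c
      have h5 : blk t.toMatrix 1 = 1 + t.c • blk (Matrix.single t.i t.j (1 : ℂ)) 0 := by
        rw [blk_smul, ← blk_one, blk_add, mul_zero, add_zero]
        congr 1
        unfold TransvectionStruct.toMatrix Matrix.transvection
        rw [Matrix.smul_single, smul_eq_mul, mul_one]
      change Pres H (blk t.toMatrix 1)
      rw [h5]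
      exact h4
    · intro A B _ _ hA hB
      have h3 := hA.mul hB
      rwa [blk_mul, mul_one] at h3
  have h3 := h2.mul h1
  rwa [blk_mul, Matrix.mul_one, one_mul] at h3

end data

end Pool.Agent.TH164.Un
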