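import Pool.Agent.TH164.Un.Un6

/-!
# Two representations with the same Lie algebra
-/

set_option autoImplicit false
set_option linter.unusedSectionVars false
set_option linter.unusedVariables false

open Module LieModule LieAlgebra LieAlgebra.IsKilling Function

namespace Pool.Agent.TH164.Un

open Pool.Agent.TH164.Spin

variable {k L : Type*} [Field k] [IsAlgClosed k] [CharZero k] [LieRing L] [LieAlgebra k L]
  [FiniteDimensional k L] [LieAlgebra.IsKilling k L] {H : LieSubalgebra k L}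
  [H.IsCartanSubalgebra]
variable {W : Type*} [AddCommGroup W] [Module k W] [LieRingModule L W] [LieModule k L W]
  [FiniteDimensional k W]
variable {m : ℕ} {w : Basis (Fin m) k W} {χ : ℕ → H → k} {φ : (H → k) →ₗ[ℚ] ℚ}

/-- Half the sum of the positive coroots. -/
noncomputable def rho (χ : ℕ → H → k) (m : ℕ) : H :=
  ∑ s ∈ Finset.Ico 1 m, ((s : k) * ((m : k) - s) / 2) • cv (df χ s)

namespace Sys

theorem val_diff (S : Sys w χ φ) (hm : Even m) {p j : ℕ} (hpm : p ≤ m) (hj : 1 ≤ j) (hjm : j < m)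
    (hne : p ≠ j) : lam χ p (cv (df χ j)) = 0 :=
  S.val_zero' hpm hj hjm fun h1 h2 h3 => hne (S.distinct' hm h1 hj h2 hjm h3.symm)

theorem val_one (S : Sys w χ φ) (hm : Even m) {p : ℕ} (hp : 1 ≤ p) (hpm : p < m) :
    lam χ p (cv (df χ p)) = 1 := by
  obtain ⟨q, rfl⟩ : ∃ q, p = q + 1 := ⟨p - 1, by omega⟩
  have e1 := rcr χ q (cv (df χ (q + 1)))
  rw [rt_two (S.isRt_df hp hpm), S.val_diff hm (by omega) hp hpm (by omega : q ≠ q + 1),
    S.val_diff hm (by omega) hp hpm (by omega : q + 2 ≠ q + 1)] at e1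
  have h2 : (2 : k) ≠ 0 := two_ne_zero
  have : (2 : k) * lam χ (q + 1) (cv (df χ (q + 1))) = 2 * 1 := by linear_combination -e1
  exact mul_left_cancel₀ h2 this

theorem lam_lin (S : Sys w χ φ) {p : ℕ} (hpm : p ≤ m) :
    ∃ Λ : Dual k H, ∀ x, Λ x = lam χ p x := wt_lin (S.top_ne hpm)

/-- Evaluation on combinations of the coroots. -/
theorem lam_comb (S : Sys w χ φ) (hm : Even m) {p : ℕ} (hpm : p ≤ m) (a : ℕ → k) :
    lam χ p (∑ s ∈ Finset.Ico 1 m, a s • cv (df χ s)) =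
      if 1 ≤ p ∧ p < m then a p else 0 := by
  obtain ⟨Λ, hΛ⟩ := S.lam_lin hpm
  rw [← hΛ, map_sum]
  split_ifs with h
  · rw [Finset.sum_eq_single p]
    · rw [map_smul, hΛ, S.val_one hm h.1 h.2, smul_eq_mul, mul_one]
    · intro s hs hsp
      rw [Finset.mem_Ico] at hs
      rw [map_smul, hΛ, S.val_diff hm hpm hs.1 hs.2 (Ne.symm hsp), smul_zero]
    · intro h1
      exact absurd (Finset.mem_Ico.2 h) h1
  · refine Finset.sum_eq_zero fun s hs => ?_
    rw [Finset.mem_Ico] at hs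
    rw [map_smul, hΛ, S.val_diff hm hpm hs.1 hs.2 (by
      rintro rfl
      exact h hs), smul_zero]

theorem lam_rho (S : Sys w χ φ) (hm : Even m) {p : ℕ} (hpm : p ≤ m) :
    lam χ p (rho χ m) = (p : k) * ((m : k) - p) / 2 := by
  unfold rho
  rw [S.lam_comb hm hpm]
  split_ifs with h
  · rfl
  · rcases Nat.eq_zero_or_pos p with h0 | h0
    · rw [h0]
      simp
    · have h1 : p = m := by
        by_contra h1
        exact h ⟨h0, lt_of_le_of_ne hpm h1⟩
      rw [h1]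
      simp

theorem df_rho (S : Sys w χ φ) (hm : Even m) {t : ℕ} (ht : 1 ≤ t) (htm : t < m) :
    df χ t (rho χ m) = 1 := by
  obtain ⟨q, rfl⟩ : ∃ q, t = q + 1 := ⟨t - 1, by omega⟩
  rw [rcr, S.lam_rho hm htm.le, S.lam_rho hm (by omega), S.lam_rho hm (by omega)]
  push_cast
  ring

theorem chi_lam (χ : ℕ → H → k) (i : ℕ) (x : H) : χ i x = lam χ i x - lam χ (i + 1) x := by
  rw [lam_succ, Pi.sub_apply, sub_sub_cancel]

/-- Elements of the Cartan subalgebra are determined by the top weights. -/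
theorem ext_lam (S : Sys w χ φ) {x y : H} (h : ∀ p, p ≤ m → lam χ p x = lam χ p y) : x = y := by
  have h1 : (x : L) - y = 0 := by
    refine S.fai _ fun v => ?_
    rw [← w.sum_repr v, lie_sum]
    refine Finset.sum_eq_zero fun j _ => ?_
    rw [lie_smul, sub_lie, S.hw j x, S.hw j y, chi_lam χ j x, chi_lam χ j y,
      h _ (by have := j.2; omega), h _ (by have := j.2; omega), sub_self, smul_zero]
  exact Subtype.ext (sub_eq_zero.1 h1)

theorem ext_df (S : Sys w χ φ) (hm0 : 0 < m) {x y : H}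
    (h : ∀ t, 1 ≤ t → t < m → df χ t x = df χ t y) : x = y := by
  have h2 : ∀ j < m, χ j x - χ 0 x = χ j y - χ 0 y := by
    intro j hj
    have e1 := congrFun (chi_eq' χ hj) x
    have e2 := congrFun (chi_eq' χ hj) y
    rw [Pi.add_apply, Finset.sum_apply] at e1 e2
    rw [e1, e2, add_sub_cancel_left, add_sub_cancel_left]
    refine Finset.sum_congr rfl fun t ht => ?_
    rw [Finset.mem_Ico] at ht
    rw [Pi.smul_apply, Pi.smul_apply, h t ht.1 ht.2]
  have h3 : χ 0 x = χ 0 y := by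
    have e1 := congrFun S.tr x
    have e2 := congrFun S.tr y
    rw [Finset.sum_apply, Pi.zero_apply] at e1 e2
    have e3 : ∑ j ∈ Finset.range m, (χ j x - χ 0 x) = ∑ j ∈ Finset.range m, (χ j y - χ 0 y) :=
      Finset.sum_congr rfl fun j hj => h2 j (Finset.mem_range.1 hj)
    rw [Finset.sum_sub_distrib, Finset.sum_sub_distrib, e1, e2, Finset.sum_const,
      Finset.sum_const, Finset.card_range, zero_sub, zero_sub, neg_inj, nsmul_eq_mul,
      nsmul_eq_mul] at e3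
    exact mul_left_cancel₀ (Nat.cast_ne_zero.2 (by omega)) e3
  have h1 : (x : L) - y = 0 := by
    refine S.fai _ fun v => ?_
    rw [← w.sum_repr v, lie_sum]
    refine Finset.sum_eq_zero fun j _ => ?_
    have h4 := h2 j j.2
    rw [h3, sub_left_inj] at h4
    rw [lie_smul, sub_lie, S.hw j x, S.hw j y, h4, sub_self, smul_zero]
  exact Subtype.ext (sub_eq_zero.1 h1)

theorem expand (S : Sys w χ φ) (hm : Even m) (x : H) :
    x = ∑ s ∈ Finset.Ico 1 m, lam χ s x • cv (df χ s) := by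
  refine S.ext_lam fun p hp => ?_
  rw [S.lam_comb hm hp]
  split_ifs with h
  · rfl
  · rcases Nat.eq_zero_or_pos p with h0 | h0
    · rw [h0, lam_zero, Pi.zero_apply]
    · have h1 : p = m := by
        by_contra h1
        exact h ⟨h0, lt_of_le_of_ne hp h1⟩
      rw [h1, S.lam_m, Pi.zero_apply]

/-- Positive roots are sums. -/
theorem rt_sum (S : Sys w χ φ) {β : H → k} (hβ : IsRt H β) (h0 : 0 < φ β) :
    ∃ n : ℕ → ℕ, (∃ s, 1 ≤ s ∧ s < m ∧ 1 ≤ n s) ∧ β = ∑ t ∈ Finset.Ico 1 m, n t • df χ t := by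
  obtain ⟨x, hx, hx0⟩ := (Submodule.ne_bot_iff _).1 hβ.2
  have h1 : ∃ j, ⁅x, w j⁆ ≠ 0 := by
    by_contra hcon
    push Not at hcon
    refine hx0 (S.fai x fun v => ?_)
    rw [← w.sum_repr v, lie_sum]
    refine Finset.sum_eq_zero fun j _ => ?_
    rw [lie_smul, hcon, smul_zero]
  obtain ⟨j, hj⟩ := h1
  obtain ⟨l, h2, h3, -⟩ := S.raise h0 hx hj
  have h2' : (j : ℕ) < l := h2
  refine ⟨fun t => if (j : ℕ) < t ∧ t ≤ l then 1 else 0, ⟨l, by omega, l.2, ?_⟩, ?_⟩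
  · simp only [h2', le_refl, and_self, if_true]
  · rw [h3, chi_sub (m := m) χ h2'.le l.2]

end Sys

/-! ### Two systems -/

section two

variable {W₂ : Type*} [AddCommGroup W₂] [Module k W₂] [LieRingModule L W₂] [LieModule k L W₂]
  [FiniteDimensional k W₂]
variable {m₂ : ℕ} {w₂ : Basis (Fin m₂) k W₂} {χ₂ : ℕ → H → k}

theorem rt_height (S : Sys w χ φ) (hm : Even m) {β : H → k} (hβ : IsRt H β) (h0 : 0 < φ β) :
    ∃ N : ℕ, 1 ≤ N ∧ β (rho χ m) = N := by
  obtain ⟨n, ⟨s, hs1, hs2, hs3⟩, h1⟩ := S.rt_sum hβ h0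
  refine ⟨∑ t ∈ Finset.Ico 1 m, n t, ?_, ?_⟩
  · exact hs3.trans (Finset.single_le_sum (f := n) (fun t _ => Nat.zero_le _)
      (Finset.mem_Ico.2 ⟨hs1, hs2⟩))
  · rw [h1, Finset.sum_apply, Nat.cast_sum]
    refine Finset.sum_congr rfl fun t ht => ?_
    rw [Finset.mem_Ico] at ht
    rw [Pi.smul_apply, S.df_rho hm ht.1 ht.2, nsmul_eq_mul, mul_one]

/-- The simple roots of the second system are simple roots of the first. -/
theorem df_mem (S : Sys w χ φ) (S₂ : Sys w₂ χ₂ φ) (hm₂ : Even m₂) {t : ℕ} (ht : 1 ≤ t)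
    (htm : t < m₂) : ∃ s, 1 ≤ s ∧ s < m ∧ df χ₂ t = df χ s := by
  obtain ⟨n, ⟨s, hs1, hs2, hs3⟩, h1⟩ := S.rt_sum (S₂.isRt_df ht htm) (S₂.pos t ht htm)
  have h2 : ∀ r, ∃ N : ℕ, (1 ≤ r → r < m → 1 ≤ N ∧ df χ r (rho χ₂ m₂) = N) := by
    intro r
    by_cases h : 1 ≤ r ∧ r < m
    · obtain ⟨N, hN⟩ := rt_height S₂ hm₂ (S.isRt_df h.1 h.2) (S.pos r h.1 h.2)
      exact ⟨N, fun _ _ => hN⟩
    · exact ⟨0, fun h1 h2 => absurd ⟨h1, h2⟩ h⟩
  choose N hN using h2
  have h3 : ∑ r ∈ Finset.Ico 1 m, n r * N r = 1 := by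
    have h4 := congrFun h1 (rho χ₂ m₂)
    rw [S₂.df_rho hm₂ ht htm, Finset.sum_apply] at h4
    have h5 : ((∑ r ∈ Finset.Ico 1 m, n r * N r : ℕ) : k) = ((1 : ℕ) : k) := by
      rw [Nat.cast_sum, Nat.cast_one, h4]
      refine Finset.sum_congr rfl fun r hr => ?_
      rw [Finset.mem_Ico] at hr
      rw [Pi.smul_apply, (hN r hr.1 hr.2).2, nsmul_eq_mul, Nat.cast_mul]
    exact_mod_cast h5
  have h4 := Finset.add_sum_erase (Finset.Ico 1 m) (fun r => n r * N r)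
    (Finset.mem_Ico.2 ⟨hs1, hs2⟩)
  rw [h3] at h4
  have h5 : 1 ≤ n s * N s := Nat.one_le_iff_ne_zero.2
    (Nat.mul_ne_zero (by omega) (by have := (hN s hs1 hs2).1; omega))
  have h6 : ∑ r ∈ (Finset.Ico 1 m).erase s, n r * N r = 0 := by omega
  have h7 : n s * N s = 1 := by omega
  have h8 : n s = 1 := Nat.eq_one_of_mul_eq_one_right h7
  refine ⟨s, hs1, hs2, ?_⟩
  rw [h1, Finset.sum_eq_single s]
  · rw [h8, one_smul]
  · intro r hr hrs
    rw [Finset.sum_eq_zero_iff] at h6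
    have h9 := h6 r (Finset.mem_erase.2 ⟨hrs, hr⟩)
    rw [Finset.mem_Ico] at hr
    rcases Nat.mul_eq_zero.1 h9 with h10 | h10
    · rw [h10, zero_smul]
    · have := (hN r hr.1 hr.2).1
      omega
  · intro h
    exact absurd (Finset.mem_Ico.2 ⟨hs1, hs2⟩) h

theorem card_le (S : Sys w χ φ) (S₂ : Sys w₂ χ₂ φ) (hm₂ : Even m₂) (h0 : 0 < m) : m₂ ≤ m := by
  have h1 : ∀ t, ∃ s, 1 ≤ t → t < m₂ → 1 ≤ s ∧ s < m ∧ df χ₂ t = df χ s := by
    intro t
    by_cases h : 1 ≤ t ∧ t < m₂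
    · obtain ⟨s, hs⟩ := df_mem S S₂ hm₂ h.1 h.2
      exact ⟨s, fun _ _ => hs⟩
    · exact ⟨0, fun h1 h2 => absurd ⟨h1, h2⟩ h⟩
  choose f hf using h1
  have h2 := Finset.card_le_card_of_injOn (s := Finset.Ico 1 m₂) (t := Finset.Ico 1 m) f (by
    intro t ht
    rw [Finset.coe_Ico, Set.mem_Ico] at ht ⊢
    exact ⟨(hf t ht.1 ht.2).1, (hf t ht.1 ht.2).2.1⟩) (by
    intro t ht r hr h
    rw [Finset.coe_Ico, Set.mem_Ico] at ht hr
    have h3 := (hf t ht.1 ht.2).2.2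
    have h4 := (hf r hr.1 hr.2).2.2
    rw [h, ← h4] at h3
    exact S₂.distinct' hm₂ ht.1 hr.1 ht.2 hr.2 h3)
  rw [Nat.card_Ico, Nat.card_Ico] at h2
  omega

/-- Top weights correspond. -/
theorem lam_corr (S : Sys w χ φ) (S₂ : Sys w₂ χ₂ φ) (hm : Even m) (hm₂ : Even m₂) {s t : ℕ}
    (hs : 1 ≤ s) (hsm : s < m) (ht : 1 ≤ t) (htm : t < m₂) (h : df χ₂ t = df χ s) :
    lam χ₂ t = lam χ s := by
  funext x
  obtain ⟨Λ, hΛ⟩ := S₂.lam_lin (p := t) htm.le
  have h1 : lam χ₂ t x = ∑ r ∈ Finset.Ico 1 m, lam χ r x * lam χ₂ t (cv (df χ r)) := by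
    conv_lhs => rw [S.expand hm x]
    rw [← hΛ, map_sum]
    refine Finset.sum_congr rfl fun r _ => ?_
    rw [map_smul, hΛ, smul_eq_mul]
  rw [h1, Finset.sum_eq_single s]
  · rw [← h, S₂.val_one hm₂ ht htm, mul_one]
  · intro r hr hrs
    rw [Finset.mem_Ico] at hr
    obtain ⟨t', ht1, ht2, ht3⟩ := df_mem S₂ S hm hr.1 hr.2
    rw [ht3, S₂.val_diff hm₂ htm.le ht1 ht2, mul_zero]
    rintro rfl
    rw [h] at ht3
    exact hrs (S.distinct' hm hr.1 hs hr.2 hsm ht3)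
  · intro h2
    exact absurd (Finset.mem_Ico.2 ⟨hs, hsm⟩) h2

/-- **The middle exterior powers agree.** -/
theorem mid (S : Sys w χ φ) (S₂ : Sys w₂ χ₂ φ) (hm : Even m) (hm₂ : Even m₂) (h0 : 0 < m)
    (h0' : 0 < m₂) : ∃ h, 1 ≤ h ∧ h < m ∧ h < m₂ ∧ lam χ₂ h = lam χ h := by
  have hmm : m₂ = m := le_antisymm (card_le S S₂ hm₂ h0) (card_le S₂ S hm h0')
  obtain ⟨h, hh⟩ := hm
  have h1 : 1 ≤ h := by omega
  have h2 : h < m := by omega
  obtain ⟨q, hq1, hq2, hq3⟩ := df_mem S S₂ hm₂ (t := h) h1 (by omega)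
  have hm : Even m := ⟨h, hh⟩
  have h3 := lam_corr S S₂ hm hm₂ hq1 hq2 h1 (by omega) hq3
  have h4 : rho χ m = rho χ₂ m₂ := by
    refine S.ext_df h0 fun t ht htm => ?_
    rw [S.df_rho hm ht htm]
    obtain ⟨s, hs1, hs2, hs3⟩ := df_mem S₂ S hm ht htm
    rw [hs3, S₂.df_rho hm₂ hs1 hs2]
  have h5 : q = h := by
    have h6 := congrFun h3 (rho χ m)
    rw [S.lam_rho hm hq2.le, h4, S₂.lam_rho hm₂ (by omega)] at h6
    have h7 : (h : k) * ((m : k) - h) = (q : k) * ((m : k) - q) := by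
      rw [hmm] at h6
      linear_combination 2 * h6
    have h8 : ((h : k) - q) * ((h : k) - q) = 0 := by
      have h9 : (m : k) = h + h := by
        rw [hh]
        push_cast
        ring
      rw [h9] at h7
      linear_combination h7
    have h9 := sub_eq_zero.1 (mul_self_eq_zero.1 h8)
    exact_mod_cast h9.symm
  rw [h5] at h3
  exact ⟨h, h1, h2, by omega, h3⟩

end two

end Pool.Agent.TH164.Un
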